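import Pool.Agent.J4H50.NI.Gd
import Pool.Agent.J4H50.IG.Split
import Pool.Agent.N103.V.SuspB

set_option autoImplicit false
set_option linter.unusedSectionVars false
set_option linter.unusedVariables false

/-! # Functional equations at one number and contact equivalence of jets -/

namespace Pool.Agent.J4H50.NI

open MvPolynomial Pool.Agent.J4H50.IG
open Pool.Agent.N103 (nab nab_apply D_Gi_pow)
open Pool.Agent.N103.V (Ev)

variable {σ : Type}

/-- the derivative of `q F ^ (s - k)`, divided by `F ^ (s - k - 1)` -/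
noncomputable def SS (s : ℂ) (F : MvPolynomial σ ℂ) (k : ℕ) (i : σ) (q : MvPolynomial σ ℂ) :
    MvPolynomial σ ℂ :=
  F * pderiv i q + C (s - (k : ℂ)) * pderiv i F * q

/-- the `q` such that `q F ^ (s - k)` is obtained by a differential operator of order at most
`k` from the `g F ^ s`, `g = F` or `g = ∂_i F` -/
noncomputable def KI (s : ℂ) (F : MvPolynomial σ ℂ) : ℕ → Ideal (MvPolynomial σ ℂ)
  | 0 => Ideal.span ({F} ∪ Set.range fun i => pderiv i F)
  | k + 1 => Ideal.span ({x | ∃ q ∈ KI s F k, x = F * q} ∪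
      {x | ∃ i, ∃ q ∈ KI s F k, x = SS s F k i q})

variable (s : ℂ)

theorem KI_F (F : MvPolynomial σ ℂ) : F ∈ KI s F 0 := Ideal.subset_span (Or.inl rfl)

theorem KI_D (F : MvPolynomial σ ℂ) (i : σ) : pderiv i F ∈ KI s F 0 :=
  Ideal.subset_span (Or.inr ⟨i, rfl⟩)

theorem KI_mul {F q : MvPolynomial σ ℂ} {k : ℕ} (hq : q ∈ KI s F k) : F * q ∈ KI s F (k + 1) :=
  Ideal.subset_span (Or.inl ⟨q, hq, rfl⟩)

theorem KI_SS {F q : MvPolynomial σ ℂ} {k : ℕ} (i : σ) (hq : q ∈ KI s F k) :
    SS s F k i q ∈ KI s F (k + 1) :=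
  Ideal.subset_span (Or.inr ⟨i, q, hq, rfl⟩)

theorem KI_pow {F q : MvPolynomial σ ℂ} {k : ℕ} (hq : q ∈ KI s F k) (n : ℕ) :
    F ^ n * q ∈ KI s F (k + n) := by
  induction n with
  | zero => simpa using hq
  | succ n ih =>
    rw [pow_succ', mul_assoc]
    exact KI_mul s ih

/-- induction over the ideals -/
theorem KI_ind {F : MvPolynomial σ ℂ} (P : ℕ → MvPolynomial σ ℂ → Prop)
    (hz : P 0 0) (h0 : P 0 F) (h0' : ∀ i, P 0 (pderiv i F))
    (hadd : ∀ k a b, P k a → P k b → P k (a + b))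
    (hmul : ∀ k a q, P k q → P k (a * q))
    (h1 : ∀ k q, q ∈ KI s F k → P k q → P (k + 1) (F * q))
    (h2 : ∀ k i q, q ∈ KI s F k → P k q → P (k + 1) (SS s F k i q)) (k : ℕ) :
    ∀ q ∈ KI s F k, P k q := by
  induction k with
  | zero =>
    intro q hq
    unfold KI at hq
    refine Submodule.span_induction (p := fun x _ => P 0 x) ?_ hz ?_ ?_ hq
    · rintro x (rfl | ⟨i, rfl⟩)
      · exact h0
      · exact h0' i
    · exact fun a b _ _ ha hb => hadd _ a b ha hb
    · exact fun a q _ hq => hmul _ a q hq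
  | succ k ih =>
    intro q hq
    unfold KI at hq
    refine Submodule.span_induction (p := fun x _ => P (k + 1) x) ?_ ?_ ?_ ?_ hq
    · rintro x (⟨q, hq, rfl⟩ | ⟨i, q, hq, rfl⟩)
      · exact h1 k q hq (ih q hq)
      · exact h2 k i q hq (ih q hq)
    · have := hmul (k + 1) 0 _ (h1 k 0 (Ideal.zero_mem _) (ih 0 (Ideal.zero_mem _)))
      rwa [zero_mul] at this
    · exact fun a b _ _ ha hb => hadd _ a b ha hb
    · exact fun a q _ hq => hmul _ a q hq

/-- substitutions -/
theorem KI_pull [Fintype σ] [DecidableEq σ] (ψ : σ → MvPolynomial σ ℂ) (F : MvPolynomial σ ℂ)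
    (k : ℕ) : ∀ q ∈ KI s F k, (JM ψ).det ^ (2 * k + 1) * aeval ψ q ∈ KI s (aeval ψ F) k := by
  set δ := (JM ψ).det with hδ
  refine KI_ind s (fun k q => δ ^ (2 * k + 1) * aeval ψ q ∈ KI s (aeval ψ F) k)
    ?_ ?_ (fun i => ?_) (fun k a b ha hb => ?_) (fun k a q hq => ?_) (fun k q _ hq => ?_)
    (fun k i q _ hq => ?_) k
  · rw [map_zero, mul_zero]
    exact Ideal.zero_mem _
  · exact Ideal.mul_mem_left _ _ (KI_F s _)
  · have h1 := adj_chain ψ F i
    have e1 : δ ^ (2 * 0 + 1) * aeval ψ (pderiv i F) = δ * aeval ψ (pderiv i F) := by ring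
    rw [e1, hδ, h1]
    exact Ideal.sum_mem _ fun j _ => Ideal.mul_mem_left _ _ (KI_D s _ j)
  · rw [map_add, mul_add]
    exact Ideal.add_mem _ ha hb
  · rw [map_mul, mul_left_comm]
    exact Ideal.mul_mem_left _ _ hq
  · have h1 := Ideal.mul_mem_left (KI s (aeval ψ F) (k + 1)) (δ ^ 2) (KI_mul s hq)
    rw [map_mul]
    have : δ ^ (2 * (k + 1) + 1) * (aeval ψ F * aeval ψ q) =
        δ ^ 2 * (aeval ψ F * (δ ^ (2 * k + 1) * aeval ψ q)) := by ring
    rw [this]
    exact h1
  · have h3 : ∀ j, δ ^ (2 * k + 2) * SS s (aeval ψ F) k j (aeval ψ q) ∈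
        KI s (aeval ψ F) (k + 1) := by
      intro j
      have h4 := KI_SS s j hq
      have h5 := KI_mul s hq
      have e1 : δ ^ (2 * k + 2) * SS s (aeval ψ F) k j (aeval ψ q) =
          δ * SS s (aeval ψ F) k j (δ ^ (2 * k + 1) * aeval ψ q) -
            ((2 * k + 1 : ℕ) : MvPolynomial σ ℂ) * pderiv j δ *
              (aeval ψ F * (δ ^ (2 * k + 1) * aeval ψ q)) := by
        unfold SS
        rw [Derivation.leibniz, Derivation.leibniz_pow, smul_eq_mul, smul_eq_mul, nsmul_eq_mul,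
          smul_eq_mul, Nat.add_sub_cancel]
        ring
      rw [e1]
      exact Ideal.sub_mem _ (Ideal.mul_mem_left _ _ h4) (Ideal.mul_mem_left _ _ h5)
    have e3 : δ ^ (2 * (k + 1) + 1) * aeval ψ (SS s F k i q) =
        ∑ j, (JM ψ).adjugate i j * (δ ^ (2 * k + 2) * SS s (aeval ψ F) k j (aeval ψ q)) := by
      have h6 := adj_chain ψ q i
      have h7 := adj_chain ψ F i
      rw [← hδ] at h6 h7
      unfold SS
      rw [map_add, map_mul, map_mul, map_mul, aeval_C, algebraMap_eq]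
      have e4 : ∀ j, (JM ψ).adjugate i j * (δ ^ (2 * k + 2) * (aeval ψ F * pderiv j (aeval ψ q) +
          C (s - (k : ℂ)) * pderiv j (aeval ψ F) * aeval ψ q)) =
          δ ^ (2 * k + 2) * aeval ψ F * ((JM ψ).adjugate i j * pderiv j (aeval ψ q)) +
          δ ^ (2 * k + 2) * C (s - (k : ℂ)) * aeval ψ q *
            ((JM ψ).adjugate i j * pderiv j (aeval ψ F)) := by
        intro j
        ring
      simp only [e4]
      rw [Finset.sum_add_distrib, ← Finset.mul_sum, ← Finset.mul_sum, ← h6, ← h7]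
      ring
    rw [e3]
    exact Ideal.sum_mem _ fun j _ => Ideal.mul_mem_left _ _ (h3 j)

/-- multiplication by a polynomial -/
theorem KI_unit (v F : MvPolynomial σ ℂ) (k : ℕ) :
    ∀ q ∈ KI s F k, v ^ (2 * k + 2) * q ∈ KI s (v * F) k := by
  refine KI_ind s (fun k q => v ^ (2 * k + 2) * q ∈ KI s (v * F) k)
    ?_ ?_ (fun i => ?_) (fun k a b ha hb => ?_) (fun k a q hq => ?_) (fun k q _ hq => ?_)
    (fun k i q _ hq => ?_) k
  · rw [mul_zero]
    exact Ideal.zero_mem _
  · have e : v ^ (2 * 0 + 2) * F = v * (v * F) := by ring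
    rw [e]
    exact Ideal.mul_mem_left _ _ (KI_F s _)
  · have e : v ^ (2 * 0 + 2) * pderiv i F = v * pderiv i (v * F) - pderiv i v * (v * F) := by
      rw [Derivation.leibniz, smul_eq_mul, smul_eq_mul]
      ring
    rw [e]
    exact Ideal.sub_mem _ (Ideal.mul_mem_left _ _ (KI_D s _ i)) (Ideal.mul_mem_left _ _ (KI_F s _))
  · rw [mul_add]
    exact Ideal.add_mem _ ha hb
  · rw [mul_left_comm]
    exact Ideal.mul_mem_left _ _ hq
  · have e : v ^ (2 * (k + 1) + 2) * (F * q) = v * (v * F * (v ^ (2 * k + 2) * q)) := by ring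
    rw [e]
    exact Ideal.mul_mem_left _ _ (KI_mul s hq)
  · have h4 := KI_SS s i hq
    have h5 := KI_mul s hq
    have e : v ^ (2 * (k + 1) + 2) * SS s F k i q =
        v * SS s (v * F) k i (v ^ (2 * k + 2) * q) -
          (((2 * k + 2 : ℕ) : MvPolynomial σ ℂ) + C (s - (k : ℂ))) * pderiv i v *
            (v * F * (v ^ (2 * k + 2) * q)) := by
      unfold SS
      rw [Derivation.leibniz, Derivation.leibniz, Derivation.leibniz_pow, smul_eq_mul,
        smul_eq_mul, nsmul_eq_mul, smul_eq_mul, smul_eq_mul, smul_eq_mul]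
      have e1 : 2 * k + 2 - 1 = 2 * k + 1 := by omega
      rw [e1]
      ring
    rw [e]
    exact Ideal.sub_mem _ (Ideal.mul_mem_left _ _ h4) (Ideal.mul_mem_left _ _ h5)

/-- approximations -/
theorem KI_approx {F G : MvPolynomial σ ℂ} {n : ℕ} (h : G - F ∈ mI σ ℂ ^ n) (k : ℕ)
    (hk : k + 1 ≤ n) (q : MvPolynomial σ ℂ) (hq : q ∈ KI s G k) :
    q ∈ KI s F k ⊔ mI σ ℂ ^ (n - (k + 1)) := by
  refine KI_ind s (fun k q => k + 1 ≤ n → q ∈ KI s F k ⊔ mI σ ℂ ^ (n - (k + 1)))
    (fun _ => Ideal.zero_mem _) (fun _ => ?_) (fun i _ => ?_)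
    (fun k a b ha hb hk => Ideal.add_mem _ (ha hk) (hb hk))
    (fun k a q hq hk => Ideal.mul_mem_left _ _ (hq hk))
    (fun k q _ hq hk => ?_) (fun k i q _ hq hk => ?_) k q hq hk
  · have e1 : G = F + (G - F) := by ring
    rw [e1]
    exact Submodule.add_mem_sup (KI_F s F) (pow_le (by omega) h)
  · have e1 : pderiv i G = pderiv i F + pderiv i (G - F) := by
      rw [map_sub]
      ring
    rw [e1]
    refine Submodule.add_mem_sup (KI_D s F i) ?_
    refine pow_le (Nat.le_refl _) (pderiv_mem i (n - (0 + 1)) ?_)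
    rwa [Nat.sub_add_cancel (by omega)]
  · obtain ⟨u, hu, v, hv, rfl⟩ := Submodule.mem_sup.1 (hq (by omega))
    have e1 : G * (u + v) = F * u + ((G - F) * u + G * v) := by ring
    rw [e1]
    refine Submodule.add_mem_sup (KI_mul s hu) (Ideal.add_mem _ ?_ ?_)
    · exact Ideal.mul_mem_right _ _ (pow_le (by omega) h)
    · exact Ideal.mul_mem_left _ _ (pow_le (by omega) hv)
  · obtain ⟨u, hu, v, hv, rfl⟩ := Submodule.mem_sup.1 (hq (by omega))
    have e1 : SS s G k i (u + v) = SS s F k i u + ((G - F) * pderiv i u +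
        C (s - (k : ℂ)) * pderiv i (G - F) * u + SS s G k i v) := by
      unfold SS
      rw [Derivation.map_add, Derivation.map_sub]
      ring
    have h1 := pderiv_mem (A := ℂ) i (n - 1) (q := G - F) (by
      rwa [Nat.sub_add_cancel (by omega)])
    have h2 := pderiv_mem (A := ℂ) i (n - (k + 1 + 1)) (q := v) (by
      have : n - (k + 1 + 1) + 1 = n - (k + 1) := by omega
      rwa [this])
    rw [e1]
    refine Submodule.add_mem_sup (KI_SS s i hu) (Ideal.add_mem _ (Ideal.add_mem _ ?_ ?_) ?_)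
    · exact Ideal.mul_mem_right _ _ (pow_le (by omega) h)
    · exact Ideal.mul_mem_right _ _ (Ideal.mul_mem_left _ _ (pow_le (by omega) h1))
    · unfold SS
      refine Ideal.add_mem _ (Ideal.mul_mem_left _ _ h2) (Ideal.mul_mem_left _ _ ?_)
      exact pow_le (by omega) hv

/-- from the ideals to the functional equation -/
theorem Ev_of_KI {F H : MvPolynomial σ ℂ} {k : ℕ} (h : F ^ k * H ∈ KI s F k) : Ev H F s := by
  intro L _ _ φ D Gi hD hG U h1 h2 h3 h4
  have hU : ∀ (q : MvPolynomial σ ℂ), ∀ x ∈ U, φ q * x ∈ U := by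
    intro q
    induction q using MvPolynomial.induction_on with
    | C a =>
      intro x hx
      have : φ (C a) = algebraMap ℂ L a := by
        rw [← algebraMap_eq]
        exact φ.commutes a
      rw [this, ← Algebra.smul_def]
      exact U.smul_mem a hx
    | add p q hp hq =>
      intro x hx
      rw [map_add, add_mul]
      exact U.add_mem (hp x hx) (hq x hx)
    | mul_X p i hp =>
      intro x hx
      rw [map_mul, mul_assoc]
      exact hp _ (h1 i x hx)
  have key : ∀ q ∈ KI s F k, φ q * Gi ^ k ∈ U := by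
    refine KI_ind s (fun k q => φ q * Gi ^ k ∈ U) ?_ ?_ (fun i => ?_) (fun k a b ha hb => ?_)
      (fun k a q hq => ?_) (fun k q _ hq => ?_) (fun k i q _ hq => ?_) k
    · rw [map_zero, zero_mul]
      exact U.zero_mem
    · rw [pow_zero, mul_one]
      exact h3
    · rw [pow_zero, mul_one]
      exact h4 i
    · rw [map_add, add_mul]
      exact U.add_mem ha hb
    · rw [map_mul, mul_assoc]
      exact hU a _ hq
    · have e : φ (F * q) * Gi ^ (k + 1) = φ q * Gi ^ k := by
        rw [map_mul, pow_succ]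
        linear_combination (φ q * Gi ^ k) * hG
      rw [e]
      exact hq
    · have h5 := h2 i _ hq
      have e : nab φ D F Gi s i (φ q * Gi ^ k) = φ (SS s F k i q) * Gi ^ (k + 1) := by
        rw [nab_apply, Derivation.leibniz, D_Gi_pow φ D F Gi hG, hD, hD, smul_eq_mul, smul_eq_mul]
        unfold SS
        rw [map_add, map_mul, map_mul, map_mul]
        have e1 : φ (C (s - (k : ℂ))) = algebraMap ℂ L s - (k : L) := by
          have : φ (C (s - (k : ℂ))) = algebraMap ℂ L (s - (k : ℂ)) := by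
            rw [← algebraMap_eq]
            exact φ.commutes _
          rw [this, map_sub, map_natCast]
        rw [e1, pow_succ]
        linear_combination (- φ (pderiv i q) * Gi ^ k) * hG
      rw [← e]
      exact h5
  have h5 := key _ h
  rw [map_mul, map_pow] at h5
  have e : φ F ^ k * φ H * Gi ^ k = φ H := by
    have : φ F ^ k * Gi ^ k = 1 := by rw [← mul_pow, hG, one_pow]
    linear_combination (φ H) * this
  rwa [e] at h5

/-- from the functional equation to the ideals -/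
theorem KI_of_Ev {F H : MvPolynomial σ ℂ} (hF : F ≠ 0) (h : Ev H F s) :
    ∃ k, F ^ k * H ∈ KI s F k := by
  classical
  have hM : Submonoid.powers F ≤ nonZeroDivisors (MvPolynomial σ ℂ) :=
    powers_le_nonZeroDivisors_of_noZeroDivisors hF
  have hinj : Function.Injective (algebraMap (MvPolynomial σ ℂ)
      (Localization.Away F)) := IsLocalization.injective _ hM
  set al := algebraMap (MvPolynomial σ ℂ) (Localization.Away F) with hal
  have hder : ∀ i : σ, ∃ E : Derivation ℂ (Localization.Away F)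
      (Localization.Away F), ∀ x, E (al x) = al (pderiv i x) := fun i =>
    Pool.Agent.N103.exists_locDer (B := Localization.Away F) (Submonoid.powers F) (pderiv i)
  choose δ hδ using hder
  have hu : IsUnit (al F) := IsLocalization.map_units (Localization.Away F)
    (⟨F, Submonoid.mem_powers _⟩ : Submonoid.powers F)
  obtain ⟨FI, hFI⟩ := hu.exists_right_inv
  set ψ : MvPolynomial σ ℂ →ₐ[ℂ] Localization.Away F :=
    IsScalarTower.toAlgHom ℂ (MvPolynomial σ ℂ) (Localization.Away F) with hψ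
  have hψa : ∀ x, ψ x = al x := fun x => rfl
  have halC : ∀ c : ℂ, algebraMap ℂ (Localization.Away F) c = al (C c) := fun c =>
    (ψ.commutes c).symm
  let U : Submodule ℂ (Localization.Away F) :=
    { carrier := {y | ∃ (k : ℕ) (q : MvPolynomial σ ℂ), q ∈ KI s F k ∧ y * al F ^ k = al q}
      add_mem' := by
        rintro x y ⟨m1, p1, u1, e1⟩ ⟨m2, p2, u2, e2⟩
        refine ⟨m1 + m2, F ^ m2 * p1 + F ^ m1 * p2, Ideal.add_mem _ (KI_pow s u1 m2) ?_, ?_⟩
        · rw [add_comm m1 m2]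
          exact KI_pow s u2 m1
        · rw [map_add, map_mul, map_mul, map_pow, map_pow, ← e1, ← e2, pow_add]
          ring
      zero_mem' := ⟨0, 0, Ideal.zero_mem _, by simp⟩
      smul_mem' := by
        rintro c x ⟨m, q, u1, e1⟩
        refine ⟨m, C c * q, Ideal.mul_mem_left _ _ u1, ?_⟩
        rw [Algebra.smul_def, halC, map_mul, ← e1]
        ring }
  have hmem := h (Localization.Away F) ψ δ FI (fun i p => hδ i p) hFI U
    (by
      rintro i x ⟨m, q, u1, e1⟩
      refine ⟨m, X i * q, Ideal.mul_mem_left _ _ u1, ?_⟩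
      rw [hψa, map_mul, ← e1]
      ring)
    (by
      rintro i y ⟨m, q, u1, hy⟩
      refine ⟨m + 1, SS s F m i q, KI_SS s i u1, ?_⟩
      have d1 := congrArg (δ i) hy
      rw [Derivation.leibniz, Derivation.leibniz_pow, hδ, hδ, smul_eq_mul, smul_eq_mul,
        smul_eq_mul, nsmul_eq_mul] at d1
      have d2 : al F * ((m : Localization.Away F) * al F ^ (m - 1)) = m * al F ^ m := by
        rcases m with _ | m
        · simp
        · rw [Nat.add_sub_cancel, pow_succ]; ring
      have d3 : al (C (s - m)) = algebraMap ℂ (Localization.Away F) s - m := by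
        rw [← halC, map_sub, map_natCast]
      unfold SS
      rw [nab_apply, hψa, hδ, map_add, map_mul, map_mul, map_mul, d3, pow_succ]
      linear_combination al F * d1 - y * al (pderiv i F) * d2
        + (algebraMap ℂ (Localization.Away F) s * al (pderiv i F) * y * al F ^ m) * hFI
        + ((algebraMap ℂ (Localization.Away F) s - m) * al (pderiv i F)) * hy)
    ⟨0, F, KI_F s F, by rw [pow_zero, mul_one]; rfl⟩
    (fun i => ⟨0, pderiv i F, KI_D s F i, by rw [pow_zero, mul_one]; rfl⟩)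
  obtain ⟨k, q, hq, e⟩ := hmem
  refine ⟨k, ?_⟩
  have e2 : al (F ^ k * H) = al q := by
    rw [map_mul, map_pow, ← e, hψa]
    ring
  rw [hinj e2]
  exact hq

/-- substitutions -/
theorem Ev_pull [Fintype σ] [DecidableEq σ] {F H : MvPolynomial σ ℂ} (hF : F ≠ 0) (h : Ev H F s)
    (ψ : σ → MvPolynomial σ ℂ) :
    ∃ N : ℕ, Ev ((JM ψ).det ^ N * aeval ψ H) (aeval ψ F) s := by
  obtain ⟨k, hk⟩ := KI_of_Ev s hF h
  refine ⟨2 * k + 1, Ev_of_KI s (k := k) ?_⟩
  have h1 := KI_pull s ψ F k _ hk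
  rw [map_mul, map_pow] at h1
  have e : aeval ψ F ^ k * ((JM ψ).det ^ (2 * k + 1) * aeval ψ H) =
    (JM ψ).det ^ (2 * k + 1) * (aeval ψ F ^ k * aeval ψ H) := by ring
  rw [e]
  exact h1

theorem Ev_unit {F H : MvPolynomial σ ℂ} (hF : F ≠ 0) (h : Ev H F s) (v : MvPolynomial σ ℂ) :
    ∃ N : ℕ, Ev (v ^ N * H) (v * F) s := by
  obtain ⟨k, hk⟩ := KI_of_Ev s hF h
  refine ⟨(2 * k + 2) + k, Ev_of_KI s (k := k) ?_⟩
  have h1 := Ideal.mul_mem_left _ (v ^ (2 * k)) (KI_unit s v F k _ hk)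
  have h2 := Ideal.mul_mem_left _ (v ^ (k * 2)) (KI_unit s v F k _ hk)
  have e : (v * F) ^ k * (v ^ (2 * k + 2 + k) * H) =
    v ^ (k * 2) * (v ^ (2 * k + 2) * (F ^ k * H)) := by
    rw [mul_pow, pow_add v (2 * k + 2) k]
    ring
  rw [e]
  exact h2

/-- contact equivalence of jets -/
def CEq [Fintype σ] [DecidableEq σ] {A : Type} [CommRing A] (f F : MvPolynomial σ A) (n : ℕ) :
    Prop :=
  ∃ (ψ : σ → MvPolynomial σ A) (v : MvPolynomial σ A), NonDeg ψ ∧ IsUnit (constantCoeff v) ∧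
    v * aeval ψ f - F ∈ mI σ A ^ n

/-- **Functional equations and contact equivalence of jets.** -/
theorem LEv_jet [Fintype σ] [DecidableEq σ] {f G : MvPolynomial σ ℂ} (hf : f ≠ 0)
    (h : LEv 0 f s) (hJ : ∀ n, CEq f G n) : LEv 0 G s := by
  obtain ⟨H, hH, hE⟩ := h
  obtain ⟨k, hk⟩ := KI_of_Ev s hf hE
  have h0 : constantCoeff H ≠ 0 := by
    rw [← eval_zero]
    exact hH
  have key : ∀ n, G ^ k ∈ KI s G k ⊔ mI σ ℂ ^ n := by
    intro n
    obtain ⟨ψ, v, hψ, hv, hR⟩ := hJ (n + (k + 1))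
    have h1 := KI_unit s v _ k _ (KI_pull s ψ f k _ hk)
    have h2 := KI_approx s hR k (by omega) _ h1
    rw [Nat.add_sub_cancel, map_mul, map_pow] at h2
    have h3 := Ideal.mul_mem_left _ (v ^ k) h2
    have h4 : (v * aeval ψ f) ^ k - G ^ k ∈ mI σ ℂ ^ n :=
      pow_le (by omega) (Ideal.mem_of_dvd _ (sub_dvd_pow_sub_pow _ _ k) hR)
    set u := v ^ (2 * k + 2) * (JM ψ).det ^ (2 * k + 1) * aeval ψ H with hu
    have h5 : u * G ^ k ∈ KI s G k ⊔ mI σ ℂ ^ n := by
      have e : u * G ^ k = v ^ k * (v ^ (2 * k + 2) * ((JM ψ).det ^ (2 * k + 1) *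
          (aeval ψ f ^ k * aeval ψ H))) - u * ((v * aeval ψ f) ^ k - G ^ k) := by
        rw [hu, mul_pow]
        ring
      rw [e]
      exact Ideal.sub_mem _ h3 (Submodule.mem_sup_right (Ideal.mul_mem_left _ _ h4))
    have h6 : IsUnit (constantCoeff u) := by
      rw [hu, map_mul, map_mul, map_pow, map_pow, cc_aeval ψ hψ.1]
      exact ((hv.pow _).mul (hψ.2.pow _)).mul (IsUnit.mk0 _ h0)
    obtain ⟨w, hw⟩ := inv_mod u h6 n
    have e : G ^ k = w * (u * G ^ k) - G ^ k * (w * u - 1) := by ring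
    rw [e]
    exact Ideal.sub_mem _ (Ideal.mul_mem_left _ _ h5)
      (Submodule.mem_sup_right (Ideal.mul_mem_left _ _ hw))
  obtain ⟨r, hr, h1⟩ := krull _ (mI σ ℂ) _ key
  refine ⟨1 - r, ?_, Ev_of_KI s (k := k) ?_⟩
  · rw [eval_zero, map_sub, map_one, (mem_m_iff _).1 hr, sub_zero]
    exact one_ne_zero
  · rw [mul_comm]
    exact h1

end Pool.Agent.J4H50.NI
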