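import Pool.Agent.J4H50.NI.Jt

set_option autoImplicit false
set_option linter.unusedSectionVars false
set_option linter.unusedTactic false

/-! # Squarefree polynomials on the lines through the origin -/

namespace Pool.Agent.J4H50.NI

open MvPolynomial
open Pool.Agent.J4H50.IG (mI mem_m_iff X_mem)

variable {σ K : Type} [Field K]

/-- a polynomial is a product of a unit at the origin and of a polynomial all of whose factors vanish
at the origin -/
theorem unit_split (F : MvPolynomial σ K) (hF : F ≠ 0) : ∃ u G : MvPolynomial σ K, F = u * G ∧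
    constantCoeff u ≠ 0 ∧ G ≠ 0 ∧ ∀ q : MvPolynomial σ K, Irreducible q → q ∣ G →
      constantCoeff q = 0 := by
  induction F using WfDvdMonoid.induction_on_irreducible with
  | zero => exact absurd rfl hF
  | unit u hu =>
    refine ⟨u, 1, (mul_one u).symm, ?_, one_ne_zero, fun q hq h1 => absurd (isUnit_of_dvd_one h1) hq.1⟩
    exact (hu.map constantCoeff).ne_zero
  | mul a i ha hi ih =>
    obtain ⟨u, G, h1, h2, h3, h4⟩ := ih ha
    by_cases hc : constantCoeff i = 0
    · refine ⟨u, i * G, by rw [h1]; ring, h2, mul_ne_zero hi.ne_zero h3, fun q hq hd => ?_⟩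
      rcases (hq.prime).dvd_or_dvd hd with h | h
      · obtain ⟨t, ht⟩ := (hq.associated_of_dvd hi h).dvd'
        rcases (hq.associated_of_dvd hi h) with ⟨w, hw⟩
        have h5 : constantCoeff q * constantCoeff (w : MvPolynomial σ K) = 0 := by
          rw [← map_mul, hw, hc]
        exact (mul_eq_zero.1 h5).resolve_right (w.isUnit.map constantCoeff).ne_zero
      · exact h4 q hq h
    · refine ⟨i * u, G, by rw [h1]; ring, ?_, h3, h4⟩
      rw [map_mul]
      exact mul_ne_zero hc h2

section gauss

open Polynomial

/-- **Gauss.** -/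
theorem gauss_sep {R : Type} [CommRing R] [IsDomain R] [UniqueFactorizationMonoid R] [CharZero R]
    (e : R[X]) (he : e ≠ 0) (h : ∀ x : R[X], x.natDegree ≠ 0 → ¬ x * x ∣ e) :
    ∃ (α β : R[X]) (h : R), h ≠ 0 ∧ α * e + β * derivative e = Polynomial.C h := by
  let Q := FractionRing R
  have hcz : CharZero Q := charZero_of_injective_algebraMap (IsFractionRing.injective R Q)
  have := Classical.arbitrary (NormalizedGCDMonoid R)
  have hinj : Function.Injective (algebraMap R Q) := IsFractionRing.injective R Q
  have hsq : Squarefree (e.map (algebraMap R Q)) := by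
    intro y hy
    have hy0 : y ≠ 0 := by
      rintro rfl
      rw [mul_zero] at hy
      rw [zero_dvd_iff] at hy
      exact he ((Polynomial.map_eq_zero_iff hinj).1 hy)
    obtain ⟨c, c0, hc⟩ := IsLocalization.integerNormalization_spec (nonZeroDivisors R) y
    rw [Algebra.smul_def, Polynomial.algebraMap_apply] at hc
    rw [mem_nonZeroDivisors_iff_ne_zero] at c0
    set g := IsLocalization.integerNormalization (nonZeroDivisors R) y with hg
    have hcu : IsUnit (Polynomial.C (algebraMap R Q c)) :=
      Polynomial.isUnit_C.2 (IsUnit.mk0 _ fun h0 => c0 (hinj (h0.trans (map_zero _).symm)))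
    have hx1 : g.primPart.map (algebraMap R Q) ∣ y := by
      have h1 : g.primPart.map (algebraMap R Q) ∣ g.map (algebraMap R Q) := by
        conv_rhs => rw [g.eq_C_content_mul_primPart]
        rw [Polynomial.map_mul]
        exact dvd_mul_left _ _
      rw [hc] at h1
      exact (hcu.dvd_mul_left).1 h1
    have hx2 : g.primPart * g.primPart ∣ e := by
      refine (g.isPrimitive_primPart.mul g.isPrimitive_primPart).dvd_of_fraction_map_dvd_fraction_map
        (K := Q) ?_
      rw [Polynomial.map_mul]
      exact (mul_dvd_mul hx1 hx1).trans hy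
    have hx3 : g.primPart.natDegree = 0 := by
      by_contra hn
      exact h _ hn hx2
    rw [Polynomial.natDegree_primPart] at hx3
    have hx4 : y.natDegree = 0 := by
      have h1 : (g.map (algebraMap R Q)).natDegree = g.natDegree :=
        Polynomial.natDegree_map_eq_of_injective hinj g
      rw [hc, Polynomial.natDegree_C_mul (fun h0 => c0 (hinj (h0.trans (map_zero _).symm)))] at h1
      rw [h1, hx3]
    rw [Polynomial.eq_C_of_natDegree_eq_zero hx4]
    refine Polynomial.isUnit_C.2 (IsUnit.mk0 _ fun h0 => hy0 ?_)
    rw [Polynomial.eq_C_of_natDegree_eq_zero hx4, h0, map_zero]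
  obtain ⟨a, b, hab⟩ := (PerfectField.separable_iff_squarefree.2 hsq)
  obtain ⟨c, c0, hc⟩ := IsLocalization.integerNormalization_spec (nonZeroDivisors R) a
  obtain ⟨d, d0, hd⟩ := IsLocalization.integerNormalization_spec (nonZeroDivisors R) b
  rw [Algebra.smul_def, Polynomial.algebraMap_apply] at hc hd
  rw [mem_nonZeroDivisors_iff_ne_zero] at c0 d0
  set a1 := IsLocalization.integerNormalization (nonZeroDivisors R) a
  set b1 := IsLocalization.integerNormalization (nonZeroDivisors R) b
  refine ⟨Polynomial.C d * a1, Polynomial.C c * b1, c * d, mul_ne_zero c0 d0, ?_⟩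
  apply Polynomial.map_injective _ hinj
  rw [Polynomial.map_add, Polynomial.map_mul, Polynomial.map_mul, Polynomial.map_mul,
    Polynomial.map_mul, hc, hd, Polynomial.map_C, Polynomial.map_C, Polynomial.map_C, map_mul,
    map_mul, ← Polynomial.derivative_map]
  linear_combination (Polynomial.C (algebraMap R Q c) * Polynomial.C (algebraMap R Q d)) * hab

end gauss

/-- the polynomials in one variable with polynomial coefficients -/
noncomputable abbrev oel : MvPolynomial (Option σ) K ≃ₐ[K] Polynomial (MvPolynomial σ K) :=
  optionEquivLeft K σ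

theorem oel_der (f : MvPolynomial (Option σ) K) :
    Polynomial.derivative (oel f) = oel (pderiv none f) := by
  classical
  induction f using MvPolynomial.induction_on with
  | C a => rw [pderiv_C, map_zero, optionEquivLeft_C, Polynomial.derivative_C]
  | add f g hf hg => rw [map_add, Polynomial.derivative_add, hf, hg, map_add, map_add]
  | mul_X f i hf =>
    rw [map_mul, Polynomial.derivative_mul, hf, Derivation.leibniz, map_add, smul_eq_mul,
      smul_eq_mul, map_mul, map_mul]
    cases i with
    | none =>
      rw [pderiv_X_self, map_one, optionEquivLeft_X_none, Polynomial.derivative_X]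
      ring
    | some i =>
      rw [pderiv_X_of_ne (by simp), optionEquivLeft_X_some, Polynomial.derivative_C, map_zero]
      ring

theorem oel_rename (q : MvPolynomial σ K) : oel (rename some q) = Polynomial.C q := by
  induction q using MvPolynomial.induction_on with
  | C a => rw [rename_C, optionEquivLeft_C]
  | add f g hf hg => rw [map_add, map_add, hf, hg, map_add]
  | mul_X f i hf => rw [map_mul, map_mul, hf, rename_X, optionEquivLeft_X_some, map_mul]

/-- the substitution `x_i = a_i z` -/
noncomputable def kap : MvPolynomial (Option σ) K →ₐ[K] MvPolynomial (Option σ) K :=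
  aeval fun o : Option σ => o.elim (X none) fun i => X (some i) * X none

theorem kap_none : kap (X none : MvPolynomial (Option σ) K) = X none := by
  unfold kap; rw [aeval_X]; rfl

theorem kap_some (i : σ) : kap (X (some i) : MvPolynomial (Option σ) K) = X (some i) * X none := by
  unfold kap; rw [aeval_X]; rfl

section Fin

variable [Fintype σ]

/-- the exponent of the image of a monomial -/
noncomputable def mu' (m : Option σ →₀ ℕ) : Option σ →₀ ℕ := m.some.optionElim (Finsupp.degree m)

theorem kap_monomial (m : Option σ →₀ ℕ) (c : K) :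
    kap (monomial m c) = monomial (mu' m) c := by
  classical
  unfold kap mu'
  rw [aeval_monomial, MvPolynomial.monomial_eq, Finsupp.prod_fintype _ _ (fun i => pow_zero _),
    Finsupp.prod_fintype _ _ (fun i => pow_zero _), algebraMap_eq, Fintype.prod_option,
    Fintype.prod_option, Finsupp.degree_eq_sum, Fintype.sum_option]
  simp only [Option.elim_none, Option.elim_some, mul_pow, Finsupp.optionElim_apply_none,
    Finsupp.optionElim_apply_some, Finsupp.some_apply, Finset.prod_mul_distrib]
  rw [pow_add, Finset.prod_pow_eq_pow_sum]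
  ring

theorem mu'_inj : Function.Injective (mu' : (Option σ →₀ ℕ) → (Option σ →₀ ℕ)) := by
  classical
  intro m m' h
  have h1 : ∀ i, m (some i) = m' (some i) := by
    intro i
    have := congrArg (fun f => f (some i)) h
    simpa [mu'] using this
  have h2 : Finsupp.degree m = Finsupp.degree m' := by
    have := congrArg (fun f => f none) h
    simpa [mu'] using this
  rw [Finsupp.degree_eq_sum, Finsupp.degree_eq_sum, Fintype.sum_option, Fintype.sum_option] at h2
  simp only [h1] at h2
  ext o
  cases o with
  | none => omega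
  | some i => exact h1 i

theorem kap_coeff (G : MvPolynomial (Option σ) K) (m : Option σ →₀ ℕ) :
    coeff (mu' m) (kap G) = coeff m G := by
  classical
  conv_lhs => rw [G.as_sum, map_sum]
  rw [coeff_sum]
  simp only [kap_monomial, coeff_monomial, mu'_inj.eq_iff]
  rw [Finset.sum_ite_eq']
  split_ifs with h
  · rfl
  · rw [notMem_support_iff.1 h]

theorem kap_inj {f g : MvPolynomial (Option σ) K} (h : kap f = kap g) : f = g := by
  ext m
  rw [← kap_coeff f, ← kap_coeff g, h]

end Fin

theorem kap_div (f : MvPolynomial (Option σ) K) : ∃ (M : ℕ) (g : MvPolynomial (Option σ) K),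
    kap g = X none ^ M * f := by
  induction f using MvPolynomial.induction_on with
  | C a => exact ⟨0, C a, by unfold kap; rw [aeval_C, algebraMap_eq]; ring⟩
  | add f g hf hg =>
    obtain ⟨M1, f1, h1⟩ := hf
    obtain ⟨M2, g1, h2⟩ := hg
    refine ⟨M1 + M2, X none ^ M2 * f1 + X none ^ M1 * g1, ?_⟩
    rw [map_add, map_mul, map_mul, map_pow, map_pow, h1, h2, kap_none, pow_add]
    ring
  | mul_X f i hf =>
    obtain ⟨M1, f1, h1⟩ := hf
    cases i with
    | none => exact ⟨M1, f1 * X none, by rw [map_mul, h1, kap_none]; ring⟩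
    | some i => exact ⟨M1 + 1, f1 * X (some i), by rw [map_mul, h1, kap_some]; ring⟩

/-- **Squarefree polynomials on the generic line through the origin.** -/
theorem sqf_line [Fintype σ] [CharZero K] (G : MvPolynomial (Option σ) K) (hG : Squarefree G)
    (k : ℕ) (e : MvPolynomial (Option σ) K) (he : kap G = X none ^ k * e)
    (hz : ¬ (X none : MvPolynomial (Option σ) K) ∣ e) :
    ∃ (α β : MvPolynomial (Option σ) K) (h : MvPolynomial σ K), h ≠ 0 ∧
      α * e + β * pderiv none e = rename some h := by
  have hzp : Prime (X none : MvPolynomial (Option σ) K) := by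
    have h1 : Prime (oel (X none : MvPolynomial (Option σ) K)) := by
      rw [optionEquivLeft_X_none]
      exact Polynomial.prime_X
    exact (MulEquiv.prime_iff (oel : MvPolynomial (Option σ) K ≃ₐ[K] _).toMulEquiv).1 h1
  have he0 : e ≠ 0 := by
    rintro rfl
    exact hz (dvd_zero _)
  obtain ⟨α, β, h, hh, h1⟩ := gauss_sep (oel e) (by
    intro h0
    exact he0 ((map_eq_zero_iff _ (oel : MvPolynomial (Option σ) K ≃ₐ[K] _).injective).1 h0)) (by
    intro x hx hxe
    obtain ⟨x0, rfl⟩ := (oel : MvPolynomial (Option σ) K ≃ₐ[K] _).surjective x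
    obtain ⟨y, hy⟩ := hxe
    obtain ⟨y0, rfl⟩ := (oel : MvPolynomial (Option σ) K ≃ₐ[K] _).surjective y
    have hy' : e = x0 * x0 * y0 := by
      apply (oel : MvPolynomial (Option σ) K ≃ₐ[K] _).injective
      rw [hy, map_mul, map_mul]
    have hx0 : x0 ≠ 0 := by
      rintro rfl
      exact he0 (by rw [hy']; ring)
    obtain ⟨m, xh, hxh⟩ := kap_div x0
    obtain ⟨l, yh, hyh⟩ := kap_div y0
    have hxh0 : xh ≠ 0 := by
      rintro rfl
      rw [map_zero] at hxh
      exact mul_ne_zero (pow_ne_zero _ hzp.ne_zero) hx0 hxh.symm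
    -- the identity in the polynomial ring
    have h2 : xh * xh * yh * X none ^ k = X none ^ (m + m + l) * G := by
      apply kap_inj
      rw [map_mul, map_mul, map_mul, map_pow, map_mul, map_pow, kap_none, hxh, hyh, he, hy']
      ring
    -- the powers of `z`
    obtain ⟨j, x1, hx1, hxj⟩ := WfDvdMonoid.max_power_factor hxh0 hzp.irreducible
    have h3 : X none ^ (m + m + l) ∣ x1 * x1 * (X none ^ (j + j) * yh * X none ^ k) :=
      ⟨G, by rw [← h2, hxj]; ring⟩
    have h4 : (X none : MvPolynomial (Option σ) K) ^ (m + m + l) ∣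
        X none ^ (j + j) * yh * X none ^ k := by
      refine hzp.pow_dvd_of_dvd_mul_left _ (fun hd => ?_) h3
      rcases hzp.dvd_or_dvd hd with hd | hd <;> exact hx1 hd
    obtain ⟨w, hw⟩ := h4
    have h5 : x1 * x1 * w = G := by
      have h6 : (X none : MvPolynomial (Option σ) K) ^ (m + m + l) * (x1 * x1 * w) =
          X none ^ (m + m + l) * G := by
        rw [← h2, hxj]
        linear_combination (-(x1 * x1)) * hw
      exact mul_left_cancel₀ (pow_ne_zero _ hzp.ne_zero) h6
    have h6 : IsUnit x1 := hG x1 ⟨w, h5.symm⟩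
    have h7 : IsUnit (kap x1) := h6.map kap
    have h8 : X none ^ j * kap x1 = X none ^ m * x0 := by
      rw [← hxh, hxj, map_mul, map_pow, kap_none]
    rcases le_or_gt j m with hjm | hjm
    · have h9 : kap x1 = X none ^ (m - j) * x0 := by
        apply mul_left_cancel₀ (pow_ne_zero j hzp.ne_zero)
        rw [h8, ← mul_assoc, ← pow_add, Nat.add_sub_cancel' hjm]
      have h10 : IsUnit x0 := isUnit_of_dvd_unit ⟨X none ^ (m - j), by rw [h9]; ring⟩ h7
      apply hx
      exact Polynomial.natDegree_eq_zero_of_isUnit (h10.map (oel : MvPolynomial (Option σ) K ≃ₐ[K] _))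
    · have h9 : X none ^ (j - m) * kap x1 = x0 := by
        apply mul_left_cancel₀ (pow_ne_zero m hzp.ne_zero)
        rw [← h8, ← mul_assoc, ← pow_add, Nat.add_sub_cancel' hjm.le]
      apply hz
      rw [hy', ← h9]
      obtain ⟨t, ht⟩ : ∃ t, j - m = t + 1 := ⟨j - m - 1, by omega⟩
      rw [ht, pow_succ]
      exact ⟨X none ^ t * kap x1 * (X none ^ t * X none * kap x1) * y0, by ring⟩)
  refine ⟨oel.symm α, oel.symm β, h, hh, ?_⟩
  apply (oel : MvPolynomial (Option σ) K ≃ₐ[K] _).injective
  rw [map_add, map_mul, map_mul, AlgEquiv.apply_symm_apply, AlgEquiv.apply_symm_apply, ← oel_der,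
    oel_rename]
  exact h1

end Pool.Agent.J4H50.NI
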