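import Pool.Agent.J4H50.NI.Alg1

set_option autoImplicit false
set_option linter.unusedSectionVars false
set_option linter.unusedTactic false

/-! # The discriminant -/

namespace Pool.Agent.J4H50.NI

open Polynomial
open Pool.Agent.J4H50.IG (mI mem_m_iff X_mem)

variable {σ K : Type} [Field K]

/-- Nakayama -/
theorem nak (F : (MvPolynomial σ K)[X]) (hl : IsUnit F.leadingCoeff) (a b : K[X])
    (hab : a * F.map MvPolynomial.constantCoeff +
      b * derivative (F.map MvPolynomial.constantCoeff) = X) :
    ∃ (M N : MvPolynomial σ K) (α β : (MvPolynomial σ K)[X]),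
      MvPolynomial.constantCoeff M = 1 ∧ C M * X - C N = α * F + β * derivative F := by
  set cc : MvPolynomial σ K →+* K := MvPolynomial.constantCoeff with hcc
  set I : Ideal (MvPolynomial σ K) := RingHom.ker cc with hI
  set J0 : Ideal (MvPolynomial σ K)[X] := Ideal.span {F, derivative F} with hJ0
  set J : Submodule (MvPolynomial σ K) (MvPolynomial σ K)[X] :=
    J0.restrictScalars (MvPolynomial σ K) ⊔ Submodule.span (MvPolynomial σ K) {1} with hJ
  have hF0 : F ≠ 0 := by
    rintro rfl
    rw [leadingCoeff_zero] at hl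
    exact not_isUnit_zero hl
  -- finiteness
  obtain ⟨l, hl'⟩ := hl
  set P : (MvPolynomial σ K)[X] := C ((l⁻¹ : (MvPolynomial σ K)ˣ) : MvPolynomial σ K) * F with hP
  have hPm : P.Monic := by
    unfold Monic
    rw [hP, leadingCoeff_mul, leadingCoeff_C, ← hl', Units.inv_mul]
  have hPJ : P ∈ J0 := Ideal.mul_mem_left _ _ (Ideal.subset_span (by simp))
  have hfin : Module.Finite (MvPolynomial σ K) ((MvPolynomial σ K)[X] ⧸ J) := by
    have h1 : Module.Finite (MvPolynomial σ K) (degreeLT (MvPolynomial σ K) P.natDegree) :=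
      Module.Finite.equiv (degreeLTEquiv (MvPolynomial σ K) P.natDegree).symm
    refine Module.Finite.of_surjective (J.mkQ.comp
      (degreeLT (MvPolynomial σ K) P.natDegree).subtype) fun q => ?_
    obtain ⟨f, rfl⟩ := J.mkQ_surjective q
    refine ⟨⟨f %ₘ P, ?_⟩, ?_⟩
    · rw [mem_degreeLT]
      refine (degree_modByMonic_lt f hPm).trans_le ?_
      exact degree_le_natDegree
    · rw [LinearMap.comp_apply, Submodule.subtype_apply, ← sub_eq_zero, ← map_sub,
        Submodule.mkQ_apply, Submodule.Quotient.mk_eq_zero]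
      refine Submodule.mem_sup_left ?_
      show f %ₘ P - f ∈ J0
      have h2 := modByMonic_add_div f P
      have h3 : f %ₘ P - f = -(P * (f /ₘ P)) := by
        linear_combination h2
      rw [h3]
      exact neg_mem (Ideal.mul_mem_right _ _ hPJ)
  -- the variable
  have hX : ∃ α β r : (MvPolynomial σ K)[X], X = α * F + β * derivative F + r ∧
      r ∈ Ideal.map C I := by
    refine ⟨a.map MvPolynomial.C, b.map MvPolynomial.C,
      X - (a.map MvPolynomial.C * F + b.map MvPolynomial.C * derivative F), by ring, ?_⟩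
    have hcomp : ∀ q : K[X], (q.map (MvPolynomial.C : K →+* MvPolynomial σ K)).map cc = q := by
      intro q
      rw [Polynomial.map_map]
      have : cc.comp MvPolynomial.C = RingHom.id K := by
        ext x
        simp [hcc]
      rw [this, Polynomial.map_id]
    have h1 : (X - (a.map MvPolynomial.C * F + b.map MvPolynomial.C * derivative F) :
        (MvPolynomial σ K)[X]).map cc = 0 := by
      rw [Polynomial.map_sub, Polynomial.map_add, Polynomial.map_mul, Polynomial.map_mul, map_X,
        hcomp, hcomp, ← derivative_map, hab, sub_self]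
    rw [Ideal.mem_map_C_iff]
    intro n
    have h2 : ((X - (a.map MvPolynomial.C * F + b.map MvPolynomial.C * derivative F) :
        (MvPolynomial σ K)[X]).map cc).coeff n = 0 := by rw [h1, coeff_zero]
    rw [coeff_map] at h2
    rw [hI, RingHom.mem_ker]
    exact h2
  obtain ⟨α0, β0, r, hX, hr⟩ := hX
  have hrI : ∀ g : (MvPolynomial σ K)[X], J.mkQ (r * g) ∈
      I • (⊤ : Submodule (MvPolynomial σ K) ((MvPolynomial σ K)[X] ⧸ J)) := by
    refine Submodule.span_induction (p := fun r _ => ∀ g : (MvPolynomial σ K)[X], J.mkQ (r * g) ∈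
      I • (⊤ : Submodule (MvPolynomial σ K) ((MvPolynomial σ K)[X] ⧸ J))) ?_ ?_ ?_ ?_ hr
    · rintro _ ⟨i, hi, rfl⟩ g
      rw [← smul_eq_C_mul, map_smul]
      exact Submodule.smul_mem_smul hi trivial
    · intro g
      rw [zero_mul, map_zero]
      exact Submodule.zero_mem _
    · intro x y _ _ hx hy g
      rw [add_mul, map_add]
      exact Submodule.add_mem _ (hx g) (hy g)
    · intro c x _ hx g
      rw [smul_eq_mul, mul_comm c x, mul_assoc]
      exact hx _
  have hle : (⊤ : Submodule (MvPolynomial σ K) ((MvPolynomial σ K)[X] ⧸ J)) ≤ I • ⊤ := by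
    intro q _
    obtain ⟨f, rfl⟩ := J.mkQ_surjective q
    have h1 : f = C (f.coeff 0) + (α0 * F + β0 * derivative F) * divX f + r * divX f := by
      have h2 := divX_mul_X_add f
      have h3 : f = divX f * (α0 * F + β0 * derivative F + r) + C (f.coeff 0) := by
        rw [← hX]
        exact h2.symm
      conv_lhs => rw [h3]
      ring
    rw [h1, map_add]
    have h2 : J.mkQ (C (f.coeff 0) + (α0 * F + β0 * derivative F) * divX f) = 0 := by
      rw [Submodule.mkQ_apply, Submodule.Quotient.mk_eq_zero]
      refine Submodule.add_mem _ (Submodule.mem_sup_right ?_) (Submodule.mem_sup_left ?_)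
      · rw [Submodule.mem_span_singleton]
        exact ⟨f.coeff 0, by rw [smul_eq_C_mul, mul_one]⟩
      · show _ ∈ J0
        refine Ideal.mul_mem_right _ _ (add_mem (Ideal.mul_mem_left _ _ (Ideal.subset_span
          (by simp))) (Ideal.mul_mem_left _ _ (Ideal.subset_span (by simp))))
    rw [h2, zero_add]
    exact hrI _
  obtain ⟨M, hM1, hM2⟩ := Submodule.exists_sub_one_mem_and_smul_eq_zero_of_fg_of_le_smul I ⊤
    Module.Finite.fg_top hle
  have hMX := hM2 (J.mkQ X) trivial
  rw [← map_smul, Submodule.mkQ_apply, Submodule.Quotient.mk_eq_zero, hJ, Submodule.mem_sup] at hMX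
  obtain ⟨y, hy, z, hz, hyz⟩ := hMX
  rw [Submodule.mem_span_singleton] at hz
  obtain ⟨N, hN⟩ := hz
  have hy' : y ∈ Ideal.span {F, derivative F} := hy
  rw [Ideal.mem_span_pair] at hy'
  obtain ⟨α, β, hαβ⟩ := hy'
  refine ⟨M, N, α, β, ?_, ?_⟩
  · rw [hI, RingHom.mem_ker, map_sub, map_one, sub_eq_zero] at hM1
    exact hM1
  · rw [hαβ, ← smul_eq_C_mul, ← hyz, ← hN, smul_eq_C_mul, mul_one]
    ring

/-- **The discriminant.** -/
theorem elim_disc (F : (MvPolynomial σ K)[X]) (hl : IsUnit F.leadingCoeff) (E : K[X])
    (hE : F.map MvPolynomial.constantCoeff = X ^ 2 * E) (a b : K[X])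
    (hab : a * F.map MvPolynomial.constantCoeff +
      b * derivative (F.map MvPolynomial.constantCoeff) = X) :
    ∃ (A B : (MvPolynomial σ K)[X]) (D : MvPolynomial σ K),
      MvPolynomial.constantCoeff (A.coeff 0) = 1 ∧ A * F + B * derivative F = C D := by
  obtain ⟨M, N, α, β, hM, hMN⟩ := nak F hl a b hab
  set cc : MvPolynomial σ K →+* K := MvPolynomial.constantCoeff with hcc
  have hd : derivative (X ^ 2 * E) = X * (2 * E + X * derivative E) := by
    rw [derivative_mul, derivative_X_pow]
    have h2 : (C 2 : K[X]) = 2 := map_ofNat C 2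
    norm_num
    rw [h2]
    ring
  -- the constant term of `N`
  have hN : cc N = 0 := by
    have h1 := congrArg (fun q => (q.map cc).eval 0) hMN
    beta_reduce at h1
    rw [Polynomial.map_sub, Polynomial.map_mul, Polynomial.map_add, Polynomial.map_mul,
      Polynomial.map_mul, map_C, map_C, map_X, ← derivative_map, hE, hd] at h1
    simp only [eval_sub, eval_mul, eval_add, eval_C, eval_X, eval_pow] at h1
    simp at h1
    exact h1
  set W : (MvPolynomial σ K)[X] := F.scaleRoots M with hW
  set D : MvPolynomial σ K := W.eval N with hD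
  have h1 : eval₂ C (C M * X) W = C M ^ F.natDegree * F := by
    rw [hW, scaleRoots_eval₂_mul, eval₂_C_X]
  have h2 : eval₂ C (C N) W = C D := by
    rw [hD, eval₂_at_apply]
  obtain ⟨Q, hQ⟩ : (C M * X - C N) ∣ eval₂ C (C M * X) W - eval₂ C (C N) W := by
    rw [← eval_map, ← eval_map]
    exact sub_dvd_eval_sub _ _ _
  rw [h1, h2] at hQ
  refine ⟨C M ^ F.natDegree - Q * α, -(Q * β), D, ?_, ?_⟩
  · -- the value of `Q` at the origin
    have h3 := congrArg (fun q => q.map cc) hQ
    beta_reduce at h3
    rw [Polynomial.map_sub, Polynomial.map_mul, Polynomial.map_mul, Polynomial.map_sub,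
      Polynomial.map_mul, Polynomial.map_pow, map_C, map_C, map_C, map_X, hE, hM, hN, map_one,
      one_pow, map_zero, one_mul, one_mul, sub_zero] at h3
    have h4 : cc D = 0 := by
      have h5 := congrArg (fun q => q.eval 0) h3
      simp at h5
      exact h5
    rw [h4, map_zero, sub_zero] at h3
    have h5 : Q.map cc = X * E := by
      apply mul_left_cancel₀ (X_ne_zero (R := K))
      rw [← h3]
      ring
    have h6 : cc (Q.coeff 0) = 0 := by
      have := congrArg (fun q => q.coeff 0) h5
      simpa [coeff_map] using this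
    rw [coeff_sub, mul_coeff_zero, map_sub, map_mul, h6, zero_mul, sub_zero, ← C_pow, coeff_C_zero,
      map_pow, hM, one_pow]
  · linear_combination hQ + Q * hMN

end Pool.Agent.J4H50.NI
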