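import Pool.Agent.J4H50.NI.Alg2
import Pool.Agent.J4H50.IG.Split2

set_option autoImplicit false
set_option linter.unusedSectionVars false
set_option linter.unusedTactic false

/-! # Adapted linear coordinates -/

namespace Pool.Agent.J4H50.NI

open MvPolynomial
open Pool.Agent.J4H50.IG (mI mem_m_iff X_mem lin qf hes hes_qf aeval_qf second_order hes_symm
  pow_le pderiv_mem aeval_mem nonDeg_lin)

variable {σ K : Type} [Fintype σ] [DecidableEq σ] [Field K]

/-- the restriction to a line parallel to the axis `z` -/
noncomputable def sp (a : σ → K) : MvPolynomial (Option σ) K →ₐ[K] Polynomial K :=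
  aeval fun o : Option σ => o.elim Polynomial.X fun i => Polynomial.C (a i)

theorem sp_none (a : σ → K) : sp a (X none) = Polynomial.X := by
  unfold sp; rw [aeval_X]; rfl

theorem sp_some (a : σ → K) (i : σ) : sp a (X (some i)) = Polynomial.C (a i) := by
  unfold sp; rw [aeval_X]; rfl

theorem sp_C (a : σ → K) (c : K) : sp a (C c) = Polynomial.C c := by
  unfold sp; rw [aeval_C, Polynomial.algebraMap_eq]

theorem sp_der (a : σ → K) (f : MvPolynomial (Option σ) K) :
    Polynomial.derivative (sp a f) = sp a (pderiv none f) := by
  induction f using MvPolynomial.induction_on with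
  | C c => rw [pderiv_C, map_zero, sp_C, Polynomial.derivative_C]
  | add f g hf hg => rw [map_add, Polynomial.derivative_add, hf, hg, map_add, map_add]
  | mul_X f i hf =>
    rw [map_mul, Polynomial.derivative_mul, hf, Derivation.leibniz, map_add, smul_eq_mul,
      smul_eq_mul, map_mul, map_mul]
    cases i with
    | none =>
      rw [pderiv_X_self, map_one, sp_none, Polynomial.derivative_X]
      ring
    | some i =>
      rw [pderiv_X_of_ne (by simp), sp_some, Polynomial.derivative_C, map_zero]
      ring

theorem sp_rename (a : σ → K) (q : MvPolynomial σ K) :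
    sp a (rename some q) = Polynomial.C (eval a q) := by
  induction q using MvPolynomial.induction_on with
  | C c => rw [rename_C, sp_C, eval_C]
  | add f g hf hg => rw [map_add, map_add, hf, hg, map_add, map_add]
  | mul_X f i hf => rw [map_mul, map_mul, hf, rename_X, sp_some, map_mul, map_mul, eval_X]

theorem sp_oel (f : MvPolynomial (Option σ) K) : (oel f).map constantCoeff = sp 0 f := by
  induction f using MvPolynomial.induction_on with
  | C c => rw [optionEquivLeft_C, Polynomial.map_C, constantCoeff_C, sp_C]
  | add f g hf hg => rw [map_add, Polynomial.map_add, hf, hg, map_add]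
  | mul_X f i hf =>
    rw [map_mul, Polynomial.map_mul, hf, map_mul]
    congr 1
    cases i with
    | none => rw [optionEquivLeft_X_none, Polynomial.map_X, sp_none]
    | some i => rw [optionEquivLeft_X_some, Polynomial.map_C, constantCoeff_X, sp_some]; rfl

/-- the restriction to the line through the origin in the direction `v` -/
noncomputable def ln (v : Option σ → K) : MvPolynomial (Option σ) K →ₐ[K] Polynomial K :=
  aeval fun o : Option σ => Polynomial.C (v o) * Polynomial.X

/-- the vector `(a, 1)` -/
def va (a : σ → K) : Option σ → K := fun o => o.elim 1 a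

theorem sp_kap (a : σ → K) (f : MvPolynomial (Option σ) K) : sp a (kap f) = ln (va a) f := by
  unfold ln
  induction f using MvPolynomial.induction_on with
  | C c =>
    have : kap (C c : MvPolynomial (Option σ) K) = C c := by
      unfold kap; rw [aeval_C, algebraMap_eq]
    rw [this, sp_C, aeval_C, Polynomial.algebraMap_eq]
  | add f g hf hg => rw [map_add, map_add, hf, hg, map_add]
  | mul_X f i hf =>
    rw [map_mul, map_mul, hf, map_mul, aeval_X]
    congr 1
    cases i with
    | none => rw [kap_none, sp_none]; unfold va; simp
    | some i => rw [kap_some, map_mul, sp_none, sp_some]; rfl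

theorem sp_lin (L : Matrix (Option σ) (Option σ) K) (f : MvPolynomial (Option σ) K) :
    sp 0 (aeval (lin L) f) = ln (L none) f := by
  unfold ln
  induction f using MvPolynomial.induction_on with
  | C c => rw [aeval_C, algebraMap_eq, sp_C, aeval_C, Polynomial.algebraMap_eq]
  | add f g hf hg => rw [map_add, map_add, hf, hg, map_add]
  | mul_X f i hf =>
    rw [map_mul, map_mul, hf, map_mul, aeval_X, aeval_X]
    congr 1
    unfold lin
    rw [map_sum, Fintype.sum_option]
    simp only [map_mul, sp_C, sp_none, sp_some, Pi.zero_apply, map_zero, mul_zero,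
      Finset.sum_const_zero, add_zero]

theorem kap_mem (n : ℕ) (q : MvPolynomial (Option σ) K) (hq : q ∈ mI (Option σ) K ^ n) :
    ∃ t, kap q = X none ^ n * t := by
  have h1 : Ideal.map (kap : MvPolynomial (Option σ) K →ₐ[K] _) (mI (Option σ) K) ≤
      Ideal.span {X none} := by
    rw [Ideal.map_span, Ideal.span_le]
    rintro _ ⟨_, ⟨i, rfl⟩, rfl⟩
    cases i with
    | none =>
      show kap (X none) ∈ Ideal.span {X none}
      rw [kap_none]
      exact Ideal.subset_span rfl
    | some i =>
      show kap (X (some i)) ∈ Ideal.span {X none}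
      rw [kap_some]
      exact Ideal.mul_mem_left _ _ (Ideal.subset_span rfl)
  have h2 := Ideal.mem_map_of_mem (kap : MvPolynomial (Option σ) K →ₐ[K] _) hq
  rw [Ideal.map_pow] at h2
  have h3 := Ideal.pow_right_mono h1 n h2
  rw [Ideal.span_singleton_pow, Ideal.mem_span_singleton] at h3
  exact h3

/-- the quadratic form on the vectors `(a, 1)` -/
noncomputable def Q0 (S : Matrix (Option σ) (Option σ) K) : MvPolynomial σ K :=
  ∑ i : Option σ, ∑ j : Option σ, C (S i j) * ((i.elim 1 X : MvPolynomial σ K) * (j.elim 1 X))

theorem kap_qf (S : Matrix (Option σ) (Option σ) K) :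
    kap (qf S) = X none ^ 2 * rename some (Q0 S) := by
  unfold qf Q0
  simp only [map_sum, map_mul, Finset.mul_sum]
  refine Finset.sum_congr rfl fun i _ => Finset.sum_congr rfl fun j _ => ?_
  have hC : kap (C (S i j) : MvPolynomial (Option σ) K) = C (S i j) := by
    unfold kap; rw [aeval_C, algebraMap_eq]
  have hX : ∀ i : Option σ, kap (X i : MvPolynomial (Option σ) K) =
      X none * rename some (i.elim 1 X : MvPolynomial σ K) := by
    intro i
    cases i with
    | none => rw [kap_none]; simp
    | some i => rw [kap_some]; simp [mul_comm]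
  rw [hC, hX, hX, rename_C]
  ring

theorem eval_Q0 (S : Matrix (Option σ) (Option σ) K) (a : σ → K) :
    eval a (Q0 S) = dotProduct (va a) (S.mulVec (va a)) := by
  unfold Q0 dotProduct Matrix.mulVec dotProduct
  simp only [map_sum, map_mul, eval_C, Finset.mul_sum]
  refine Finset.sum_congr rfl fun i _ => Finset.sum_congr rfl fun j _ => ?_
  have hX : ∀ i : Option σ, eval a (i.elim 1 X : MvPolynomial σ K) = va a i := by
    intro i
    cases i with
    | none => simp [va]
    | some i => simp [va]
  rw [hX, hX]
  ring

theorem Q0_ne [CharZero K] (S : Matrix (Option σ) (Option σ) K) (hS : S.IsSymm) (h : S ≠ 0) :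
    Q0 S ≠ 0 := by
  intro h0
  apply h
  have h2 : (2 : K) ≠ 0 := two_ne_zero
  have h1 : qf S = 0 := by
    apply mul_left_cancel₀ (X_ne_zero (none : Option σ) : (X none : MvPolynomial (Option σ) K) ≠ 0)
    rw [mul_zero]
    apply MvPolynomial.funext
    intro v
    rw [map_zero, map_mul, eval_X]
    by_cases hv : v none = 0
    · rw [hv, zero_mul]
    · have h3 := eval_Q0 S fun i => v (some i) / v none
      rw [h0, map_zero] at h3
      have h4 : v = v none • va fun i => v (some i) / v none := by
        funext o
        cases o with
        | none => simp [va]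
        | some i => simp only [va, Pi.smul_apply, smul_eq_mul, Option.elim_some]; field_simp
      have h5 : eval v (qf S) = dotProduct v (S.mulVec v) := by
        unfold qf dotProduct Matrix.mulVec dotProduct
        simp only [map_sum, map_mul, eval_C, eval_X, Finset.mul_sum]
        exact Finset.sum_congr rfl fun i _ => Finset.sum_congr rfl fun j _ => by ring
      rw [h5]
      conv_lhs => rw [h4]
      rw [Matrix.mulVec_smul, smul_dotProduct, dotProduct_smul, ← h3, smul_zero, smul_zero, mul_zero]
  ext i j
  have h3 := hes_qf S i j
  have h4 : hes (qf S) i j = 0 := by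
    rw [h1]
    unfold hes
    simp
  have h6 : S j i = S i j := hS.apply i j
  rw [h4, h6] at h3
  have h5 : 2 * S i j = 0 := by rw [two_mul]; exact h3.symm
  rw [Matrix.zero_apply]
  exact (mul_eq_zero.1 h5).resolve_left h2

/-- the matrix of the coordinates adapted to the vector `(a, 1)` -/
noncomputable def Lm (S : Matrix (Option σ) (Option σ) K) (a : σ → K) :
    Matrix (Option σ) (Option σ) K :=
  Matrix.of fun o => o.elim (va a) fun i => Pi.single (some i) 1 -
    ((S.mulVec (va a)) (some i) / dotProduct (va a) (S.mulVec (va a))) • va a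

theorem Lm_none (S : Matrix (Option σ) (Option σ) K) (a : σ → K) : Lm S a none = va a := rfl

theorem Lm_det (S : Matrix (Option σ) (Option σ) K) (a : σ → K) : (Lm S a).det ≠ 0 := by
  intro h
  obtain ⟨v, hv, h1⟩ := Matrix.exists_vecMul_eq_zero_iff.2 h
  apply hv
  set μ : σ → K := fun i => (S.mulVec (va a)) (some i) / dotProduct (va a) (S.mulVec (va a)) with hμ
  have h2 : ∀ j, v none * va a j + ∑ i : σ, v (some i) *
      ((if j = some i then 1 else 0) - μ i * va a j) = 0 := by
    intro j
    have h3 := congrFun h1 j
    unfold Matrix.vecMul dotProduct at h3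
    rw [Fintype.sum_option] at h3
    refine Eq.trans ?_ h3
    congr 1
    refine Finset.sum_congr rfl fun i _ => ?_
    congr 1
    show _ = (Pi.single (some i) (1 : K) - μ i • va a : Option σ → K) j
    rw [Pi.sub_apply, Pi.smul_apply, smul_eq_mul, Pi.single_apply]
  have h3 := h2 none
  have hva : va a none = 1 := rfl
  simp only [hva, mul_one, reduceCtorEq, if_false, zero_sub] at h3
  have h4 : ∀ i, v (some i) = 0 := by
    intro i
    have h5 := h2 (some i)
    have h6 : ∑ k : σ, v (some k) * ((if (some i : Option σ) = some k then 1 else 0) -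
        μ k * va a (some i)) = v (some i) + (∑ k : σ, v (some k) * -μ k) * va a (some i) := by
      rw [Finset.sum_mul]
      have h7 : ∀ k : σ, v (some k) * ((if (some i : Option σ) = some k then 1 else 0) -
          μ k * va a (some i)) = (if i = k then v (some k) else 0) +
            v (some k) * -μ k * va a (some i) := by
        intro k
        by_cases hik : i = k
        · subst hik
          simp
          ring
        · simp [hik]
          ring
      simp only [h7]
      rw [Finset.sum_add_distrib, Finset.sum_ite_eq, if_pos (Finset.mem_univ _)]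
    rw [h6] at h5
    linear_combination h5 - va a (some i) * h3
  funext o
  cases o with
  | none =>
    simp only [h4, zero_mul, Finset.sum_const_zero, add_zero] at h3
    exact h3
  | some i => exact h4 i

theorem LSL (L S : Matrix (Option σ) (Option σ) K) (i j : Option σ) :
    (L * S * L.transpose) i j = dotProduct (L i) (S.mulVec (L j)) := by
  rw [Matrix.mul_assoc]
  rfl

theorem Lm_block (S : Matrix (Option σ) (Option σ) K) (hS : S.IsSymm) (a : σ → K)
    (ha : dotProduct (va a) (S.mulVec (va a)) ≠ 0) (i : σ) :
    (Lm S a * S * (Lm S a).transpose) (some i) none = 0 ∧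
      (Lm S a * S * (Lm S a).transpose) none (some i) = 0 := by
  have h1 : (Lm S a * S * (Lm S a).transpose) (some i) none = 0 := by
    rw [LSL]
    show dotProduct (Pi.single (some i) 1 - ((S.mulVec (va a)) (some i) /
      dotProduct (va a) (S.mulVec (va a))) • va a) (S.mulVec (va a)) = 0
    rw [sub_dotProduct, smul_dotProduct, single_dotProduct, one_mul, smul_eq_mul,
      div_mul_cancel₀ _ ha, sub_self]
  refine ⟨h1, ?_⟩
  have h2 : (Lm S a * S * (Lm S a).transpose).IsSymm := by
    unfold Matrix.IsSymm
    rw [Matrix.transpose_mul, Matrix.transpose_mul, Matrix.transpose_transpose, hS.eq,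
      Matrix.mul_assoc]
  rw [← h2.apply]
  exact h1

/-- the lower block -/
noncomputable def blk (T : Matrix (Option σ) (Option σ) K) : Matrix σ σ K :=
  T.submatrix some some

theorem qf_block (T : Matrix (Option σ) (Option σ) K) (h1 : ∀ i : σ, T (some i) none = 0)
    (h2 : ∀ i : σ, T none (some i) = 0) :
    qf T = C (T none none) * X none ^ 2 + rename some (qf (blk T)) := by
  unfold qf
  rw [Fintype.sum_option, Fintype.sum_option]
  simp only [Fintype.sum_option, h1, h2, map_zero, zero_mul, Finset.sum_const_zero, add_zero,
    zero_add, map_sum, map_mul, rename_C, rename_X]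
  rw [pow_two]
  rfl

theorem rank_add_le' {m n : Type} [Fintype m] [Fintype n] (A B : Matrix m n K) :
    (A + B).rank ≤ A.rank + B.rank := by
  unfold Matrix.rank
  rw [Matrix.mulVecLin_add]
  refine (Submodule.finrank_mono (t := LinearMap.range A.mulVecLin ⊔ LinearMap.range B.mulVecLin)
    ?_).trans (Submodule.finrank_add_le_finrank_add_finrank _ _)
  rintro _ ⟨x, rfl⟩
  exact Submodule.add_mem_sup ⟨x, rfl⟩ ⟨x, rfl⟩

theorem rank_block (T : Matrix (Option σ) (Option σ) K) (h1 : ∀ i : σ, T (some i) none = 0)
    (h2 : ∀ i : σ, T none (some i) = 0) : T.rank ≤ (blk T).rank + 1 := by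
  set P : Matrix (Option σ) σ K := Matrix.of fun o i => if o = some i then 1 else 0 with hP
  set v : Option σ → K := Pi.single none (T none none) with hv
  set w : Option σ → K := Pi.single none 1 with hw
  have h3 : T = P * blk T * P.transpose + Matrix.vecMulVec v w := by
    ext o o'
    rw [Matrix.add_apply, Matrix.mul_apply]
    simp only [Matrix.mul_apply, Matrix.transpose_apply, hP, Matrix.of_apply, Matrix.vecMulVec_apply]
    cases o with
    | none =>
      cases o' with
      | none => simp [hv, hw]
      | some j => simp [hw, h2]
    | some i =>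
      cases o' with
      | none => simp [hv, h1]
      | some j => simp [hw, blk]
  calc T.rank = (P * blk T * P.transpose + Matrix.vecMulVec v w).rank := by rw [← h3]
    _ ≤ (P * blk T * P.transpose).rank + (Matrix.vecMulVec v w).rank := rank_add_le' _ _
    _ ≤ (blk T).rank + 1 := by
      refine add_le_add ?_ (Matrix.rank_vecMulVec_le _ _)
      exact (Matrix.rank_mul_le_left _ _).trans (Matrix.rank_mul_le_right _ _)

end Pool.Agent.J4H50.NI
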