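import Pool.Agent.J4H50.NI.Alg3

set_option autoImplicit false
set_option linter.unusedSectionVars false
set_option linter.unusedTactic false

/-! # The discriminant in adapted linear coordinates -/

namespace Pool.Agent.J4H50.NI

open MvPolynomial
open Pool.Agent.J4H50.IG (mI mem_m_iff X_mem lin qf hes hes_qf aeval_qf second_order hes_symm
  pow_le pderiv_mem aeval_mem nonDeg_lin)

variable {σ K : Type} [Fintype σ] [DecidableEq σ] [Field K]

theorem sp_eval (a : σ → K) (f : MvPolynomial (Option σ) K) : (oel f).map (eval a) = sp a f := by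
  induction f using MvPolynomial.induction_on with
  | C c => rw [optionEquivLeft_C, Polynomial.map_C, eval_C, sp_C]
  | add f g hf hg => rw [map_add, Polynomial.map_add, hf, hg, map_add]
  | mul_X f i hf =>
    rw [map_mul, Polynomial.map_mul, hf, map_mul]
    congr 1
    cases i with
    | none => rw [optionEquivLeft_X_none, Polynomial.map_X, sp_none]
    | some i => rw [optionEquivLeft_X_some, Polynomial.map_C, eval_X, sp_some]

theorem cc_oel (f : MvPolynomial (Option σ) K) :
    constantCoeff f = constantCoeff ((oel f).coeff 0) := by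
  have h := optionEquivLeft_coeff_coeff (R := K) (σ := σ) f 0 0
  rw [Finsupp.optionElim_zero, Finsupp.single_zero] at h
  exact h.symm

theorem td_lin (L : Matrix (Option σ) (Option σ) K) (G : MvPolynomial (Option σ) K) :
    (aeval (lin L) G).totalDegree ≤ G.totalDegree := by
  have h1 : ∀ j, (lin L j).totalDegree ≤ 1 := by
    intro j
    unfold lin
    refine (totalDegree_finsetSum_le fun i _ => ?_)
    refine (totalDegree_mul _ _).trans ?_
    rw [totalDegree_C, totalDegree_X]
  conv_lhs => rw [G.as_sum, map_sum]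
  refine totalDegree_finsetSum_le fun m hm => ?_
  rw [aeval_monomial, Finsupp.prod_fintype _ _ (fun i => pow_zero _), algebraMap_eq]
  refine (totalDegree_mul _ _).trans ?_
  rw [totalDegree_C, zero_add]
  refine (totalDegree_finsetProd _ _).trans ?_
  have h2 : ∑ i, (lin L i ^ m i).totalDegree ≤ ∑ i, m i := by
    refine Finset.sum_le_sum fun i _ => ?_
    refine (totalDegree_pow _ _).trans ?_
    calc m i * (lin L i).totalDegree ≤ m i * 1 := Nat.mul_le_mul_left _ (h1 i)
      _ = m i := mul_one _
  refine h2.trans ?_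
  have h3 := le_totalDegree hm
  rwa [Finsupp.sum_fintype _ _ (fun _ => rfl)] at h3

theorem pd_rename (q : MvPolynomial σ K) : pderiv none (rename (some : σ → Option σ) q) = 0 := by
  apply pderiv_eq_zero_of_notMem_vars
  intro h
  have h1 := vars_rename some q h
  simp at h1

/-- the quadratic part in the adapted coordinates -/
theorem quad_part (h2 : (2 : K) ≠ 0) (G : MvPolynomial (Option σ) K) (hG : G ∈ mI (Option σ) K ^ 2)
    (a : σ → K) (ha : eval a (Q0 ((2 : K)⁻¹ • hes G)) ≠ 0) :
    aeval (lin (Lm ((2 : K)⁻¹ • hes G) a)) G -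
      (C (eval a (Q0 ((2 : K)⁻¹ • hes G))) * X none ^ 2 +
        rename some (qf (blk (Lm ((2 : K)⁻¹ • hes G) a * ((2 : K)⁻¹ • hes G) *
          (Lm ((2 : K)⁻¹ • hes G) a).transpose)))) ∈ mI (Option σ) K ^ 3 := by
  set S := (2 : K)⁻¹ • hes G with hS
  have hSs : S.IsSymm := (hes_symm G).smul _
  rw [eval_Q0] at ha
  have hb := Lm_block S hSs a ha
  have h3 : C (eval a (Q0 S)) * X none ^ 2 + rename some (qf (blk (Lm S a * S *
      (Lm S a).transpose))) = aeval (lin (Lm S a)) (qf S) := by
    rw [aeval_qf, qf_block _ (fun i => (hb i).1) (fun i => (hb i).2), LSL, Lm_none, eval_Q0]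
  rw [h3, ← map_sub]
  exact aeval_mem _ (nonDeg_lin (Lm S a) (IsUnit.mk0 _ (Lm_det S a))).mem 3
    (second_order h2 G hG)

/-- the quadratic part of the discriminant -/
theorem D_quad (c : K) (h2c : 2 * c ≠ 0) (F : MvPolynomial (Option σ) K) (g0 : MvPolynomial σ K)
    (hg0 : g0 ∈ mI σ K ^ 2) (hF : F - (C c * X none ^ 2 + rename some g0) ∈ mI (Option σ) K ^ 3)
    (A B : MvPolynomial (Option σ) K) (hA : constantCoeff A = 1) (D : MvPolynomial σ K)
    (hD : A * F + B * pderiv none F = rename some D) : D - g0 ∈ mI σ K ^ 3 := by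
  set r := F - (C c * X none ^ 2 + rename some g0) with hr
  have hFe : F = C c * X none ^ 2 + rename some g0 + r := by rw [hr]; ring
  have hFm : F ∈ mI (Option σ) K ^ 2 := by
    rw [hFe]
    refine add_mem (add_mem (Ideal.mul_mem_left _ _ (Ideal.pow_mem_pow (X_mem none) 2)) ?_)
      (pow_le (by norm_num) hF)
    rw [rename_eq_aeval]
    exact aeval_mem _ (fun i => X_mem _) 2 hg0
  have hdr : pderiv none r ∈ mI (Option σ) K ^ 2 := pderiv_mem none 2 hF
  have hdF : pderiv none F = C (2 * c) * X none + pderiv none r := by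
    conv_lhs => rw [hFe]
    rw [map_add, map_add, pderiv_C_mul, pderiv_pow, pderiv_X_self, pd_rename, add_zero, map_mul,
      map_ofNat]
    norm_num
    ring
  -- the constant term of `B`
  have hB : constantCoeff B = 0 := by
    have h1 := congrArg (fun q => constantCoeff (pderiv none q)) hD
    beta_reduce at h1
    have hF1 : constantCoeff F = 0 := (mem_m_iff _).1 (by
      have := pow_le (σ := Option σ) (A := K) (show 1 ≤ 2 by norm_num) hFm
      rwa [pow_one] at this)
    have hdF1 : constantCoeff (pderiv none F) = 0 := (mem_m_iff _).1 (by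
      have := pderiv_mem none 1 hFm
      rwa [pow_one] at this)
    have hdd : constantCoeff (pderiv none (pderiv none F)) = 2 * c := by
      rw [hdF, map_add, pderiv_C_mul, pderiv_X_self, mul_one, map_add, constantCoeff_C]
      have h5 : constantCoeff (pderiv none (pderiv none r)) = 0 := (mem_m_iff _).1 (by
        have := pderiv_mem none 1 hdr
        rwa [pow_one] at this)
      rw [h5, add_zero]
    rw [pd_rename, map_zero, map_add, Derivation.leibniz, Derivation.leibniz] at h1
    simp only [map_add, smul_eq_mul, map_mul, hF1, hdF1, hdd] at h1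
    have h2 : constantCoeff B * (2 * c) = 0 := by linear_combination h1
    exact (mul_eq_zero.1 h2).resolve_right h2c
  have hz := congrArg z0 hD
  rw [map_add, map_mul, map_mul, z0_rename, hdF, map_add, map_mul, z0_none, mul_zero, zero_add] at hz
  have hzF : z0 F = g0 + z0 r := by
    conv_lhs => rw [hFe]
    rw [map_add, map_add, map_mul, map_pow, z0_none, z0_rename]
    ring
  have e : D - g0 = z0 A * z0 r + (z0 A - 1) * g0 + z0 B * z0 (pderiv none r) := by
    rw [← hz, hzF]
    ring
  rw [e]
  refine add_mem (add_mem (Ideal.mul_mem_left _ _ (z0_mem 3 hF)) ?_) ?_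
  · have h3 : z0 A - 1 ∈ mI σ K := by
      rw [mem_m_iff, map_sub, z0_cc, hA, map_one, sub_self]
    have h4 := Ideal.mul_mem_mul h3 hg0
    rwa [← pow_succ'] at h4
  · have h3 : z0 B ∈ mI σ K := by rw [mem_m_iff, z0_cc, hB]
    have h4 := Ideal.mul_mem_mul h3 (z0_mem 2 hdr)
    rwa [← pow_succ'] at h4

/-- **The discriminant of a squarefree polynomial.** -/
theorem data_sqf [CharZero K] (G : MvPolynomial (Option σ) K) (hG : G ∈ mI (Option σ) K ^ 2)
    (hS : hes G ≠ 0) (hsq : Squarefree G) :
    ∃ a : σ → K, eval a (Q0 ((2 : K)⁻¹ • hes G)) ≠ 0 ∧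
      ∃ (A B : MvPolynomial (Option σ) K) (D : MvPolynomial σ K), constantCoeff A = 1 ∧
        A * aeval (lin (Lm ((2 : K)⁻¹ • hes G) a)) G +
          B * pderiv none (aeval (lin (Lm ((2 : K)⁻¹ • hes G) a)) G) = rename some D := by
  have h2 : (2 : K) ≠ 0 := two_ne_zero
  set S := (2 : K)⁻¹ • hes G with hSd
  have hSs : S.IsSymm := (hes_symm G).smul _
  have hS0 : S ≠ 0 := smul_ne_zero (inv_ne_zero h2) hS
  have hG0 : G ≠ 0 := by
    rintro rfl
    apply hS
    ext i j
    unfold hes
    simp
  have hQ := Q0_ne S hSs hS0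
  obtain ⟨t, ht⟩ := kap_mem 3 _ (second_order h2 G hG)
  set e : MvPolynomial (Option σ) K := rename some (Q0 S) + X none * t with he
  have hke : kap G = X none ^ 2 * e := by
    have h3 : G = qf S + (G - qf S) := by ring
    rw [h3, map_add, kap_qf]
    rw [hSd, ht, ← hSd, he]
    ring
  have hze : ¬ (X none : MvPolynomial (Option σ) K) ∣ e := by
    rintro ⟨w, hw⟩
    apply hQ
    have h3 := congrArg z0 hw
    rw [he, map_add, map_mul, map_mul, z0_none, z0_rename, zero_mul, zero_mul, add_zero] at h3
    exact h3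
  obtain ⟨α, β, h, hh, hαβ⟩ := sqf_line G hsq 2 e hke hze
  -- the leading coefficient
  set d := G.totalDegree with hd
  have hlead : (oel (kap G)).coeff d ≠ 0 := by
    obtain ⟨m, hm, hmd⟩ : ∃ m ∈ G.support, Finsupp.degree m = d := by
      obtain ⟨m, hm, hmd⟩ := Finset.exists_mem_eq_sup G.support
        (support_nonempty.2 hG0) (fun s => s.sum fun _ e => e)
      refine ⟨m, hm, ?_⟩
      rw [hd]
      unfold totalDegree
      rw [hmd]
      rfl
    intro h0
    have h3 := optionEquivLeft_coeff_coeff (R := K) (σ := σ) (kap G) d m.some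
    have h4 : m.some.optionElim d = mu' m := by rw [← hmd]; rfl
    change coeff m.some ((oel (kap G)).coeff d) = _ at h3
    rw [h4, kap_coeff, h0, coeff_zero] at h3
    exact (mem_support_iff.1 hm) h3.symm
  -- the direction
  obtain ⟨a, ha⟩ : ∃ a : σ → K, eval a (h * Q0 S * (oel (kap G)).coeff d) ≠ 0 := by
    by_contra hn
    push Not at hn
    have h3 : h * Q0 S * (oel (kap G)).coeff d = 0 := MvPolynomial.funext fun a => by
      rw [hn a, map_zero]
    exact mul_ne_zero (mul_ne_zero hh hQ) hlead h3
  rw [map_mul, map_mul] at ha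
  have ha1 : eval a h ≠ 0 := left_ne_zero_of_mul (left_ne_zero_of_mul ha)
  have ha2 : eval a (Q0 S) ≠ 0 := right_ne_zero_of_mul (left_ne_zero_of_mul ha)
  have ha3 : eval a ((oel (kap G)).coeff d) ≠ 0 := right_ne_zero_of_mul ha
  refine ⟨a, ha2, ?_⟩
  set F := aeval (lin (Lm S a)) G with hF
  set E := sp a e with hE
  have hFE : (oel F).map constantCoeff = Polynomial.X ^ 2 * E := by
    rw [sp_oel, hF, sp_lin, Lm_none, ← sp_kap, hke, map_mul, map_pow, sp_none]
  -- the leading coefficient is a unit
  have hFd : F.totalDegree ≤ d := td_lin _ G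
  have hc1 : constantCoeff ((oel F).coeff d) ≠ 0 := by
    have h3 : ((oel F).map constantCoeff).coeff d = eval a ((oel (kap G)).coeff d) := by
      rw [← Polynomial.coeff_map, sp_eval, sp_oel, hF, sp_lin, Lm_none, sp_kap]
    rw [Polynomial.coeff_map] at h3
    rw [h3]
    exact ha3
  have hcd : (oel F).coeff d ≠ 0 := fun h0 => hc1 (by rw [h0, map_zero])
  have hnd : (oel F).natDegree ≤ d := by
    rw [natDegree_optionEquivLeft]
    exact (degreeOf_le_totalDegree _ _).trans hFd
  have hnd' : (oel F).natDegree = d := le_antisymm hnd (Polynomial.le_natDegree_of_ne_zero hcd)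
  have hdF : d ≤ F.totalDegree := by
    rw [← hnd', natDegree_optionEquivLeft]
    exact degreeOf_le_totalDegree _ _
  have hl : IsUnit (oel F).leadingCoeff := by
    unfold Polynomial.leadingCoeff
    rw [hnd']
    have h3 := totalDegree_coeff_optionEquivLeft_add_le (R := K) (S₁ := σ) F d hdF
    change ((oel F).coeff d).totalDegree + d ≤ _ at h3
    have h4 : ((oel F).coeff d).totalDegree = 0 := by omega
    rw [totalDegree_eq_zero_iff_eq_C] at h4
    rw [h4]
    refine (IsUnit.mk0 _ ?_).map (C : K →+* MvPolynomial σ K)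
    rw [h4, constantCoeff_C] at hc1
    exact hc1
  -- the coprimality
  have hs := congrArg (sp a) hαβ
  rw [map_add, map_mul, map_mul, ← sp_der, sp_rename] at hs
  have hEE : IsCoprime E (Polynomial.derivative E) := by
    refine ⟨Polynomial.C (eval a h)⁻¹ * sp a α, Polynomial.C (eval a h)⁻¹ * sp a β, ?_⟩
    have h3 : Polynomial.C (eval a h)⁻¹ * Polynomial.C (eval a h) = 1 := by
      rw [← map_mul, inv_mul_cancel₀ ha1, map_one]
    linear_combination Polynomial.C (eval a h)⁻¹ * hs + h3
  have hXE : IsCoprime Polynomial.X E := by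
    refine ⟨-(Polynomial.C (eval a (Q0 S))⁻¹ * sp a t), Polynomial.C (eval a (Q0 S))⁻¹, ?_⟩
    have h3 : Polynomial.C (eval a (Q0 S))⁻¹ * Polynomial.C (eval a (Q0 S)) = 1 := by
      rw [← map_mul, inv_mul_cancel₀ ha2, map_one]
    rw [hE, he, map_add, map_mul, sp_none, sp_rename]
    linear_combination h3
  have h2u : IsUnit (2 : Polynomial K) := by
    rw [show (2 : Polynomial K) = Polynomial.C 2 from (map_ofNat Polynomial.C 2).symm]
    exact Polynomial.isUnit_C.2 (IsUnit.mk0 _ h2)
  have hco : IsCoprime (Polynomial.X * E) (2 * E + Polynomial.X * Polynomial.derivative E) := by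
    refine IsCoprime.mul_left ?_ ?_
    · have h3 : IsCoprime Polynomial.X (2 * E) :=
        (isCoprime_mul_unit_left_right h2u _ _).2 hXE
      exact h3.add_mul_left_right _
    · have h3 : IsCoprime E (Polynomial.X * Polynomial.derivative E) :=
        IsCoprime.mul_right hXE.symm hEE
      have h4 := h3.add_mul_left_right 2
      rw [add_comm, mul_comm E 2] at h4
      exact h4
  obtain ⟨u, v, huv⟩ := hco
  have hd2 : Polynomial.derivative (Polynomial.X ^ 2 * E) =
      Polynomial.X * (2 * E + Polynomial.X * Polynomial.derivative E) := by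
    rw [Polynomial.derivative_mul, Polynomial.derivative_X_pow]
    have h3 : (Polynomial.C 2 : Polynomial K) = 2 := map_ofNat Polynomial.C 2
    norm_num
    rw [h3]
    ring
  obtain ⟨A, B, D, hA, hD⟩ := elim_disc (oel F) hl E hFE u v (by
    rw [hFE, hd2]
    linear_combination Polynomial.X * huv)
  refine ⟨oel.symm A, oel.symm B, D, ?_, ?_⟩
  · rw [cc_oel, AlgEquiv.apply_symm_apply]
    exact hA
  · apply (oel : MvPolynomial (Option σ) K ≃ₐ[K] _).injective
    rw [map_add, map_mul, map_mul, AlgEquiv.apply_symm_apply, AlgEquiv.apply_symm_apply, ← oel_der,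
      oel_rename]
    exact hD

end Pool.Agent.J4H50.NI
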