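import Pool.Agent.J4H50.NI.Alg4
import Pool.Agent.J4H50.IG.Bs

set_option autoImplicit false
set_option linter.unusedSectionVars false
set_option linter.unusedTactic false

/-! # The discriminant: all cases -/

namespace Pool.Agent.J4H50.NI

open MvPolynomial
open Pool.Agent.J4H50.IG (mI mem_m_iff X_mem lin qf hes hes_qf aeval_qf second_order hes_symm
  pow_le pderiv_mem aeval_mem nonDeg_lin inv_mod cc_aeval lin_cc)

section Hes

variable {V K : Type} [Fintype V] [DecidableEq V] [Field K]

theorem hes_zero_of_mem {r : MvPolynomial V K} (hr : r ∈ mI V K ^ 3) : hes r = 0 := by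
  ext i j
  unfold hes
  rw [Matrix.of_apply, Matrix.zero_apply]
  have := pderiv_mem i 1 (pderiv_mem j 2 hr)
  rwa [pow_one, mem_m_iff] at this

theorem hes_add (f g : MvPolynomial V K) : hes (f + g) = hes f + hes g := by
  ext i j
  unfold hes
  simp only [Matrix.of_apply, Matrix.add_apply, map_add]

theorem hes_C_mul (c : K) (f : MvPolynomial V K) : hes (C c * f) = c • hes f := by
  ext i j
  unfold hes
  simp only [Matrix.of_apply, Matrix.smul_apply, smul_eq_mul, pderiv_C_mul, map_mul,
    constantCoeff_C]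

theorem hes_congr {f g : MvPolynomial V K} (h : f - g ∈ mI V K ^ 3) : hes f = hes g := by
  have e : f = g + (f - g) := by ring
  rw [e, hes_add, hes_zero_of_mem h, add_zero]

theorem hes_unit (u G : MvPolynomial V K) (hG : G ∈ mI V K ^ 2) :
    hes (u * G) = constantCoeff u • hes G := by
  rw [← hes_C_mul]
  refine hes_congr ?_
  have h1 : u - C (constantCoeff u) ∈ mI V K := by
    rw [mem_m_iff, map_sub, constantCoeff_C, sub_self]
  have h2 := Ideal.mul_mem_mul h1 hG
  rw [← pow_succ'] at h2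
  have e : u * G - C (constantCoeff u) * G = (u - C (constantCoeff u)) * G := by ring
  rw [e]
  exact h2

theorem mem_of_unit (u G : MvPolynomial V K) (hu : constantCoeff u ≠ 0) (n : ℕ)
    (h : u * G ∈ mI V K ^ n) : G ∈ mI V K ^ n := by
  obtain ⟨v, hv⟩ := inv_mod u (IsUnit.mk0 _ hu) n
  have e : G = v * (u * G) - (v * u - 1) * G := by ring
  rw [e]
  exact sub_mem (Ideal.mul_mem_left _ _ h) (Ideal.mul_mem_right _ _ hv)

theorem qf_mem (S : Matrix V V K) : qf S ∈ mI V K ^ 2 := by
  unfold qf
  refine Ideal.sum_mem _ fun i _ => Ideal.sum_mem _ fun j _ => Ideal.mul_mem_left _ _ ?_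
  rw [pow_two]
  exact Ideal.mul_mem_mul (X_mem i) (X_mem j)

theorem hes_rename {W : Type} [Fintype W] [DecidableEq W] (e : V ≃ W) (F : MvPolynomial V K) :
    hes (rename e F) = (hes F).submatrix e.symm e.symm := by
  ext i j
  obtain ⟨i, rfl⟩ := e.surjective i
  obtain ⟨j, rfl⟩ := e.surjective j
  rw [Matrix.submatrix_apply, Equiv.symm_apply_apply, Equiv.symm_apply_apply]
  unfold hes
  rw [Matrix.of_apply, Matrix.of_apply, pderiv_rename e.injective, pderiv_rename e.injective,
    constantCoeff_rename]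

theorem rename_mem {W : Type} (e : V → W) (n : ℕ) {F : MvPolynomial V K}
    (hF : F ∈ mI V K ^ n) : rename e F ∈ mI W K ^ n := by
  rw [rename_eq_aeval]
  exact aeval_mem _ (fun i => X_mem _) n hF

end Hes

variable {σ K : Type} [Fintype σ] [DecidableEq σ] [Field K]

/-- **The discriminant: the polynomials with multiple factors.** -/
theorem data_nsq [CharZero K] (G : MvPolynomial (Option σ) K) (hG : G ∈ mI (Option σ) K ^ 2)
    (hS : hes G ≠ 0) (hall : ∀ q : MvPolynomial (Option σ) K, Irreducible q → q ∣ G →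
      constantCoeff q = 0) (hsq : ¬ Squarefree G) :
    ∃ a : σ → K, eval a (Q0 ((2 : K)⁻¹ • hes G)) ≠ 0 ∧
      ∃ (A B : MvPolynomial (Option σ) K) (D : MvPolynomial σ K), constantCoeff A = 1 ∧
        A * aeval (lin (Lm ((2 : K)⁻¹ • hes G) a)) G +
          B * pderiv none (aeval (lin (Lm ((2 : K)⁻¹ • hes G) a)) G) = rename some D := by
  have h2 : (2 : K) ≠ 0 := two_ne_zero
  have hG0 : G ≠ 0 := by
    rintro rfl
    apply hS
    ext i j
    unfold hes
    simp
  obtain ⟨x, hx, hxu⟩ : ∃ x, x * x ∣ G ∧ ¬ IsUnit x := by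
    unfold Squarefree at hsq
    push Not at hsq
    exact hsq
  have hx0 : x ≠ 0 := by
    rintro rfl
    rw [mul_zero, zero_dvd_iff] at hx
    exact hG0 hx
  obtain ⟨P, hP, hPx⟩ := WfDvdMonoid.exists_irreducible_factor hxu hx0
  have hPG : P * P ∣ G := (mul_dvd_mul hPx hPx).trans hx
  have hPc : constantCoeff P = 0 := hall P hP ((dvd_mul_right P P).trans hPG)
  obtain ⟨W, hW⟩ := hPG
  have hWc : constantCoeff W ≠ 0 := by
    intro h0
    apply hS
    refine hes_zero_of_mem ?_
    rw [hW, show (3 : ℕ) = 1 + 1 + 1 from rfl, pow_add, pow_add, pow_one]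
    exact Ideal.mul_mem_mul (Ideal.mul_mem_mul ((mem_m_iff _).2 hPc) ((mem_m_iff _).2 hPc))
      ((mem_m_iff _).2 h0)
  set S := (2 : K)⁻¹ • hes G with hSd
  have hSs : S.IsSymm := (hes_symm G).smul _
  have hS0 : S ≠ 0 := smul_ne_zero (inv_ne_zero h2) hS
  have hQ := Q0_ne S hSs hS0
  obtain ⟨a, ha⟩ : ∃ a : σ → K, eval a (Q0 S) ≠ 0 := by
    by_contra hn
    push Not at hn
    exact hQ (MvPolynomial.funext fun a => by rw [hn a, map_zero])
  refine ⟨a, ha, ?_⟩
  have hq := quad_part h2 G hG a ha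
  rw [← hSd] at hq
  set L := Lm S a with hL
  set P' := aeval (lin L) P with hP'
  set W' := aeval (lin L) W with hW'
  have hG' : aeval (lin L) G = P' * P' * W' := by rw [hW, map_mul, map_mul]
  have hPc' : constantCoeff P' = 0 := by rw [hP', cc_aeval _ (lin_cc L), hPc]
  have hWc' : constantCoeff W' ≠ 0 := by rw [hW', cc_aeval _ (lin_cc L)]; exact hWc
  have hdP : constantCoeff (pderiv none P') ≠ 0 := by
    intro h0
    have h3 : constantCoeff (pderiv none (pderiv none (aeval (lin L) G))) =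
        2 * eval a (Q0 S) := by
      have h4 := pderiv_mem none 1 (pderiv_mem none 2 hq)
      rw [pow_one, mem_m_iff, map_sub, map_sub, map_sub, map_add, pd_rename, add_zero,
        pderiv_C_mul, pderiv_pow, pderiv_X_self, sub_eq_zero] at h4
      rw [h4]
      norm_num
      rw [map_ofNat]
      ring
    rw [hG'] at h3
    simp only [Derivation.leibniz, smul_eq_mul, map_add, map_mul, hPc', h0] at h3
    have h5 : 2 * eval a (Q0 S) = 0 := by rw [← h3]; ring
    exact mul_ne_zero h2 ha h5
  set κ := (2 * constantCoeff W' * constantCoeff (pderiv none P'))⁻¹ with hκ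
  have hκ0 : 2 * constantCoeff W' * constantCoeff (pderiv none P') ≠ 0 :=
    mul_ne_zero (mul_ne_zero h2 hWc') hdP
  refine ⟨C κ * (2 * W' * pderiv none P' + P' * pderiv none W'), -(C κ * (W' * P')), 0, ?_, ?_⟩
  · rw [map_mul, map_add, map_mul, map_mul, map_mul, constantCoeff_C, hPc', zero_mul, add_zero,
      map_ofNat, hκ, inv_mul_cancel₀ hκ0]
  · rw [map_zero, hG']
    simp only [Derivation.leibniz, smul_eq_mul]
    ring

/-- **The discriminant.** -/
theorem data [CharZero K] (G : MvPolynomial (Option σ) K) (hG : G ∈ mI (Option σ) K ^ 2)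
    (hS : hes G ≠ 0) (hall : ∀ q : MvPolynomial (Option σ) K, Irreducible q → q ∣ G →
      constantCoeff q = 0) :
    ∃ a : σ → K, eval a (Q0 ((2 : K)⁻¹ • hes G)) ≠ 0 ∧
      ∃ (A B : MvPolynomial (Option σ) K) (D : MvPolynomial σ K), constantCoeff A = 1 ∧
        A * aeval (lin (Lm ((2 : K)⁻¹ • hes G) a)) G +
          B * pderiv none (aeval (lin (Lm ((2 : K)⁻¹ • hes G) a)) G) = rename some D := by
  by_cases hsq : Squarefree G
  · exact data_sqf G hG hS hsq
  · exact data_nsq G hG hS hall hsq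

end Pool.Agent.J4H50.NI
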