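import Pool.Agent.J4H50.NI.K
import Pool.Agent.J4H50.IG.Ts3

set_option autoImplicit false
set_option linter.unusedSectionVars false
set_option linter.unusedVariables false

/-! # Local functional equations: suspensions, coordinates, jets of critical points -/

namespace Pool.Agent.J4H50.NI

open MvPolynomial Pool.Agent.J4H50.IG
open Pool.Agent.N103.V (Ev susp cz cz_add cz_mon Fd opt_ind)

section Basic

variable {σ : Type}

theorem cc_cz (H : MvPolynomial (Option σ) ℂ) : constantCoeff (cz H) = constantCoeff H := by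
  induction H using opt_ind with
  | hadd p r hp hr => rw [cz_add, map_add, map_add, hp, hr]
  | hmon k q =>
    rw [cz_mon, map_mul, MvPolynomial.constantCoeff_rename, map_pow, constantCoeff_X]
    split_ifs with h
    · rw [h, pow_zero, mul_one]
    · rw [map_zero, zero_pow h, mul_zero]

/-- suspensions -/
theorem LEv_susp1 {G : MvPolynomial σ ℂ} {e : ℂ} (he : ∀ n : ℕ, e ≠ n)
    (h : LEv 0 (X none ^ 2 + rename some G) e) : LEv 0 G (e + 1 / 2) := by
  obtain ⟨H, hH, hE⟩ := h
  refine ⟨cz H, ?_, ?_⟩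
  · rw [eval_zero, cc_cz, ← eval_zero]
    exact hH
  · have h1 := susp (d := 2) le_rfl he (G := G) (H := H) hE
    exact_mod_cast h1

theorem Ev_equiv {τ : Type} {F H : MvPolynomial σ ℂ} {s : ℂ} (e : σ ≃ τ) (h : Ev H F s) :
    Ev (rename e H) (rename e F) s := by
  intro L _ _ φ D Gi hD hG U h1 h2 h3 h4
  have key : ∀ i : σ, ∀ q : MvPolynomial σ ℂ,
      pderiv (e i) (rename e q) = rename e (pderiv i q) := fun i q =>
    pderiv_rename e.injective i q
  refine h L (φ.comp (rename e)) (fun i => D (e i)) Gi ?_ hG U ?_ ?_ h3 ?_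
  · intro i p
    rw [AlgHom.comp_apply, hD, key]
    rfl
  · intro i x hx
    rw [AlgHom.comp_apply, rename_X]
    exact h1 _ x hx
  · intro i x hx
    exact h2 (e i) x hx
  · intro i
    have := h4 (e i)
    rwa [key] at this

theorem LEv_equiv {τ : Type} {F : MvPolynomial σ ℂ} {s : ℂ} (e : σ ≃ τ) (h : LEv 0 F s) :
    LEv 0 (rename e F) s := by
  obtain ⟨H, hH, hE⟩ := h
  refine ⟨rename e H, ?_, Ev_equiv e hE⟩
  rw [eval_zero, MvPolynomial.constantCoeff_rename, ← eval_zero]
  exact hH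

end Basic

section Fin

variable {σ : Type} [Fintype σ] [DecidableEq σ]

theorem LEv_subst {F : MvPolynomial σ ℂ} {s : ℂ} (hF : F ≠ 0) (h : LEv 0 F s)
    (ψ : σ → MvPolynomial σ ℂ) (hψ : NonDeg ψ) : LEv 0 (aeval ψ F) s :=
  LEv_jet s hF h fun n => ⟨ψ, 1, hψ, by simp, by
    rw [one_mul, sub_self]
    exact Ideal.zero_mem _⟩

theorem LEv_unit {F : MvPolynomial σ ℂ} {s : ℂ} (hF : F ≠ 0) (h : LEv 0 F s)
    (v : MvPolynomial σ ℂ) (hv : constantCoeff v ≠ 0) : LEv 0 (v * F) s :=
  LEv_jet s hF h fun n => ⟨fun i => X i + 0, v, nonDeg_id _ fun i => Ideal.zero_mem _,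
    IsUnit.mk0 _ hv, by
      have : aeval (fun i => X i + (0 : MvPolynomial σ ℂ)) F = F := by
        simp only [add_zero]
        exact aeval_X_left_apply F
      rw [this, sub_self]
      exact Ideal.zero_mem _⟩

/-- affine substitutions, with the point -/
theorem LEv_affine {F H : MvPolynomial σ ℂ} {s : ℂ} (hF : F ≠ 0) (hE : Ev H F s) (Pt : σ → ℂ)
    (a : σ → ℂ) (c : ℂ) (hc : c ≠ 0) (hH : eval (fun i => c * Pt i + a i) H ≠ 0) (w : ℂ)
    (hw : w ≠ 0) : LEv Pt (C w * aeval (fun i => C c * X i + C (a i)) F) s := by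
  set ψ : σ → MvPolynomial σ ℂ := fun i => C c * X i + C (a i) with hψ
  have hJM : (JM ψ).det = C (c ^ Fintype.card σ) := by
    have : JM ψ = Matrix.diagonal (fun _ => C c) := by
      ext1 i j
      unfold JM
      rw [Matrix.of_apply, hψ]
      beta_reduce
      rw [map_add, pderiv_C, add_zero, pderiv_C_mul, pderiv_X]
      by_cases hij : i = j
      · subst hij
        rw [Pi.single_eq_same, mul_one, Matrix.diagonal_apply_eq]
      · rw [Pi.single_eq_of_ne (fun h => hij h.symm), mul_zero, Matrix.diagonal_apply_ne _ hij]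
    rw [this, Matrix.det_diagonal, Finset.prod_const, Finset.card_univ, map_pow]
  obtain ⟨N, hN⟩ := Ev_pull s hF hE ψ
  rw [hJM] at hN
  have hFψ : aeval ψ F ≠ 0 := by
    intro h0
    apply hF
    have h1 := congrArg (aeval (fun i => C c⁻¹ * (X i - C (a i)) : σ → MvPolynomial σ ℂ)) h0
    rw [aeval_aeval, map_zero] at h1
    have e : (fun i => aeval (fun i => C c⁻¹ * (X i - C (a i)) : σ → MvPolynomial σ ℂ) (ψ i)) =
        X := by
      funext i
      rw [hψ]
      beta_reduce
      rw [map_add, map_mul, aeval_C, aeval_C, aeval_X, algebraMap_eq, ← mul_assoc, ← map_mul,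
        mul_inv_cancel₀ hc, map_one, one_mul, sub_add_cancel]
    rw [e, aeval_X_left, AlgHom.id_apply] at h1
    exact h1
  obtain ⟨M, hM⟩ := Ev_unit s hFψ hN (C w)
  refine ⟨_, ?_, hM⟩
  rw [map_mul, map_pow, eval_C, map_mul, map_pow, eval_C, eval_aeval]
  refine mul_ne_zero (pow_ne_zero _ hw) (mul_ne_zero (pow_ne_zero _ (pow_ne_zero _ hc)) ?_)
  have e : (fun i => eval Pt (ψ i)) = fun i => c * Pt i + a i := by
    funext i
    rw [hψ]
    simp
  rw [e]
  exact hH

/-- a square is not invertible -/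
theorem not_LEv_sq (j : σ) (c : ℂ) (hc : c ≠ 0) : ¬ LEv 0 (C c * X j ^ 2 : MvPolynomial σ ℂ)
    (-1 / 2) := by
  rintro ⟨H, hH, hE⟩
  have hX : (X j : MvPolynomial σ ℂ) ≠ 0 := X_ne_zero j
  have hF : (C c * X j ^ 2 : MvPolynomial σ ℂ) ≠ 0 :=
    mul_ne_zero (C_ne_zero.2 hc) (pow_ne_zero _ hX)
  obtain ⟨k, hk⟩ := KI_of_Ev _ hF hE
  have key : ∀ q ∈ KI (-1 / 2) (C c * X j ^ 2 : MvPolynomial σ ℂ) k,
      (X j : MvPolynomial σ ℂ) ^ (2 * k + 1) ∣ q := by
    refine KI_ind _ (fun k q => (X j : MvPolynomial σ ℂ) ^ (2 * k + 1) ∣ q) (dvd_zero _) ?_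
      (fun i => ?_) (fun k a b ha hb => dvd_add ha hb) (fun k a q hq => hq.mul_left a)
      (fun k q _ hq => ?_) (fun k i q _ hq => ?_) k
    · exact ⟨C c * X j, by ring⟩
    · rw [pderiv_C_mul, Derivation.leibniz_pow, smul_eq_mul, nsmul_eq_mul]
      exact ⟨C c * ((2 : ℕ) : MvPolynomial σ ℂ) * pderiv i (X j), by ring⟩
    · obtain ⟨r, rfl⟩ := hq
      exact ⟨C c * r, by ring⟩
    · obtain ⟨r, rfl⟩ := hq
      unfold SS
      rw [pderiv_C_mul, Derivation.leibniz_pow, Derivation.leibniz, Derivation.leibniz_pow,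
        smul_eq_mul, nsmul_eq_mul, smul_eq_mul, nsmul_eq_mul, smul_eq_mul, smul_eq_mul]
      have e1 : (C (-1 / 2 - (k : ℂ)) : MvPolynomial σ ℂ) * 2 = - (2 * k + 1) := by
        have e2 : (2 : MvPolynomial σ ℂ) = C 2 := (map_ofNat C 2).symm
        have e3 : (k : MvPolynomial σ ℂ) = C (k : ℂ) := (map_natCast C k).symm
        rw [e2, e3, ← map_mul, ← map_mul, ← map_one C, ← map_add, ← map_neg]
        congr 1
        ring
      have e4 : 2 * k + 1 - 1 = 2 * k := by omega
      have e5 : 2 * (k + 1) + 1 = 2 * k + 3 := by omega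
      have e6 : 2 - 1 = 1 := rfl
      rw [e4, e5, e6]
      refine ⟨C c * pderiv i r, ?_⟩
      push_cast
      linear_combination (C c * X j * X j ^ (2 * k + 1) * r * pderiv i (X j)) * e1
  have h1 := key _ hk
  rw [mul_pow, ← pow_mul, pow_succ] at h1
  have h2 : (X j : MvPolynomial σ ℂ) ^ (2 * k) * X j ∣ X j ^ (2 * k) * (C c ^ k * H) := by
    obtain ⟨r, hr⟩ := h1
    exact ⟨r, by rw [← hr]; ring⟩
  have h3 := (mul_dvd_mul_iff_left (pow_ne_zero (2 * k) hX)).1 h2
  obtain ⟨r, hr⟩ := h3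
  apply hH
  have h4 := congrArg (eval (0 : σ → ℂ)) hr
  rw [map_mul, map_mul, map_pow, eval_C, eval_X, Pi.zero_apply, zero_mul] at h4
  exact (mul_eq_zero.1 h4).resolve_left (pow_ne_zero _ hc)

end Fin

/-- suspensions, second form -/
theorem LEv_susp {σ : Type} [Fintype σ] [DecidableEq σ] {G : MvPolynomial σ ℂ} {e c : ℂ}
    (hc : c ≠ 0) (he : ∀ n : ℕ, e ≠ n) (h : LEv 0 (C c * X none ^ 2 + rename some G) e) :
    LEv 0 G (e + 1 / 2) := by
  obtain ⟨a, ha⟩ := IsAlgClosed.exists_pow_nat_eq (c⁻¹) (n := 2) two_pos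
  have ha0 : a ≠ 0 := by
    rintro rfl
    rw [zero_pow two_ne_zero] at ha
    exact inv_ne_zero hc ha.symm
  set l : Option σ → ℂ := fun i => i.elim a fun _ => 1 with hl
  have hl0 : ∀ i, l i ≠ 0 := by
    rintro (_ | i)
    · exact ha0
    · exact one_ne_zero
  have hF : (C c * X none ^ 2 + rename some G : MvPolynomial (Option σ) ℂ) ≠ 0 := by
    intro h0
    have h1 := congrArg (pderiv none) h0
    rw [map_add, pderiv_C_mul, Derivation.leibniz_pow, pderiv_X_self, smul_eq_mul, mul_one,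
      map_zero] at h1
    have h2 : pderiv (none : Option σ) (rename some G) = 0 := by
      apply pderiv_eq_zero_of_notMem_vars
      intro h
      have h2 := vars_rename _ _ h
      simp at h2
    rw [h2, add_zero] at h1
    have h3 := congrArg (eval (fun _ => (1 : ℂ))) h1
    simp at h3
    exact hc h3
  have h1 := LEv_subst hF h _ (nonDeg_diag l hl0)
  rw [← dsc_lin] at h1
  have e1 : dsc l (C c * X none ^ 2 + rename some G) = X none ^ 2 + rename some G := by
    unfold dsc
    rw [map_add, map_mul, map_pow, aeval_C, aeval_X, algebraMap_eq, aeval_rename]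
    congr 1
    · have : l none = a := rfl
      rw [this, mul_pow, ← mul_assoc, ← map_pow, ← map_mul, ha, mul_inv_cancel₀ hc, map_one,
        one_mul]
    · rw [rename_eq_aeval]
      congr 2
      funext i
      have : l (some i) = 1 := rfl
      simp [this]
  rw [e1] at h1
  exact LEv_susp1 he h1

end Pool.Agent.J4H50.NI
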