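import Pool.Agent.J4H50.NI.Inv
import Pool.Agent.J4H50.NI.Sus
import Pool.Agent.N138.BF.F2
import Pool.Agent.N103.Main

set_option autoImplicit false
set_option linter.unusedSectionVars false
set_option linter.unusedTactic false

/-! # Two variables -/

namespace Pool.Agent.J4H50.NI

open MeasureTheory MvPolynomial
open Pool.Agent.W427.SMC (msZ bsZ mu)
open Pool.Agent.Y230.PS (EP N0 N0_EP mem_N0)
open Pool.Agent.N138.SU Pool.Agent.N138.SV
open Pool.Agent.N316.SU (ppos plt norm_le_iff)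
open Pool.Agent.N138.RF (IsM)
open Pool.Agent.J4H50.IG (hm pi_unique mI scl scl_lift pderiv_scl eval_scl cz cz_inj lip
  exists_pow_mul_le mem_m_iff X_mem norm_p_pow_le eval_cz isom_onto eval_aeval)
open Pool.Agent.Y230.PT (rr inc)
open Pool.Agent.N103.V (Ev Ev_of_heq)

attribute [local instance] msZ bsZ

variable {p : ℕ} [Fact p.Prime]

/-- The numbers outside of `B` are not roots of the local b-function of `G` at the origin. -/
def HB (emb : ℚ_[p] →+* ℂ) {V : Type} (G : MvPolynomial V ℚ_[p]) (B : Set ℝ) : Prop :=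
  ∀ r : ℝ, r ∉ B → r < 0 → LEv 0 (map emb G) (r : ℂ)

section spread

variable {V : Type} [Fintype V]

/-- a polynomial which does not vanish at the origin does not vanish at the near `p`-adic points -/
theorem spread (emb : ℚ_[p] →+* ℂ) (H : MvPolynomial V ℂ) (hH : eval 0 H ≠ 0) :
    ∃ k0 : ℕ, ∀ P : V → ℤ_[p], (∀ i, ‖P i‖ ≤ ((p : ℝ)⁻¹) ^ k0) →
      eval (fun i => emb (inc p (P i))) H ≠ 0 := by
  classical
  let _ : Algebra ℚ_[p] ℂ := emb.toAlgebra
  obtain ⟨ρ, hρ⟩ := LinearMap.exists_leftInverse_of_injective (Algebra.linearMap ℚ_[p] ℂ)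
    (LinearMap.ker_eq_bot.2 (algebraMap ℚ_[p] ℂ).injective)
  have h1 : ∀ c : ℚ_[p], ρ (emb c) = c := fun c => by
    have := congrArg (fun g => g c) hρ
    exact this
  have h2 : ∀ (c : ℚ_[p]) (x : ℂ), ρ (x * emb c) = ρ x * c := by
    intro c x
    have h3 : x * emb c = c • x := by
      rw [Algebra.smul_def, mul_comm]
      rfl
    rw [h3, map_smul, smul_eq_mul, mul_comm]
  set H' : MvPolynomial V ℂ := C (eval 0 H)⁻¹ * H with hH'
  set G : MvPolynomial V ℚ_[p] := ∑ m ∈ H'.support, monomial m (ρ (coeff m H')) with hG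
  have key : ∀ P : V → ℚ_[p], ρ (eval (fun i => emb (P i)) H') = eval P G := by
    intro P
    rw [eval_eq', map_sum, hG, map_sum]
    refine Finset.sum_congr rfl fun m _ => ?_
    have e1 : ∏ i, emb (P i) ^ m i = emb (∏ i, P i ^ m i) := by
      rw [map_prod]
      exact Finset.prod_congr rfl fun i _ => (map_pow _ _ _).symm
    rw [e1, h2, eval_monomial, Finsupp.prod_fintype _ _ (fun i => pow_zero _)]
  have hG0 : constantCoeff G = 1 := by
    have h3 := key 0
    have h4 : (fun i : V => emb ((0 : V → ℚ_[p]) i)) = 0 := by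
      funext i
      simp
    rw [h4, hH', map_mul, eval_C, inv_mul_cancel₀ hH, ← map_one emb, h1, MvPolynomial.eval_zero] at h3
    exact h3.symm
  obtain ⟨k1, A1, hA1⟩ := scaleU G hG0 1
  refine ⟨k1, fun P hP h0 => ?_⟩
  have hP1 : ∀ i, (p : ℤ_[p]) ^ k1 ∣ P i := fun i => (norm_le_iff _ _).1 (hP i)
  choose P' hP' using hP1
  have h3 := key fun i => inc p (P i)
  rw [hH', map_mul, h0, mul_zero, map_zero] at h3
  have h4 : eval (fun i => inc p (P i)) G = cz p (1 + (p : ℤ_[p]) ^ 1 * eval P' A1) := by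
    have h5 : eval (fun i => cz p (P' i)) (scl ((p : ℚ_[p]) ^ k1) G) =
        eval (fun i => inc p (P i)) G := by
      rw [eval_scl]
      congr 2
      funext i
      rw [hinc, hP' i, map_mul, map_pow, map_natCast]
    rw [← h5, hA1, map_add, map_one, map_mul, eval_C, ← eval_cz, map_add, map_one, map_mul, map_pow,
      map_natCast]
  rw [h4] at h3
  have h6 : 1 + (p : ℤ_[p]) ^ 1 * eval P' A1 = 0 := cz_inj (h3.symm.trans (map_zero _).symm)
  have h7 : ‖1 + (p : ℤ_[p]) ^ 1 * eval P' A1‖ = 1 := vt_norm le_rfl _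
  rw [h6, norm_zero] at h7
  exact zero_ne_one h7

theorem sub_eq (c : ℚ_[p]) (b : V → ℚ_[p]) (F : MvPolynomial V ℚ_[p]) (emb : ℚ_[p] →+* ℂ) :
    map emb (Pool.Agent.N138.RF.G5.sub c b F) =
      aeval (fun i => C (emb c) * X i + C (emb (b i))) (map emb F) := by
  unfold Pool.Agent.N138.RF.G5.sub
  induction F using MvPolynomial.induction_on with
  | C a => rw [aeval_C, map_C, aeval_C, algebraMap_eq, algebraMap_eq, map_C]
  | add f g hf hg => rw [map_add, map_add, hf, hg, map_add, map_add]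
  | mul_X f i hf =>
    rw [map_mul, map_mul, hf, map_mul, map_mul, map_X, aeval_X, aeval_X, map_add, map_mul, map_C,
      map_C, map_X]

theorem sub_ne (c : ℚ_[p]) (hc : c ≠ 0) (b : V → ℚ_[p]) (F : MvPolynomial V ℚ_[p]) (hF : F ≠ 0) :
    Pool.Agent.N138.RF.G5.sub c b F ≠ 0 := by
  intro h0
  apply hF
  have h1 := congrArg (aeval (fun i => C c⁻¹ * (X i - C (b i)) : V → MvPolynomial V ℚ_[p])) h0
  unfold Pool.Agent.N138.RF.G5.sub at h1
  rw [IG.aeval_aeval, map_zero] at h1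
  have e : (fun i => aeval (fun i => C c⁻¹ * (X i - C (b i)) : V → MvPolynomial V ℚ_[p])
      (C c * X i + C (b i))) = X := by
    funext i
    rw [map_add, map_mul, aeval_C, aeval_C, aeval_X, algebraMap_eq, ← mul_assoc, ← map_mul,
      mul_inv_cancel₀ hc, map_one, one_mul, sub_add_cancel]
  rw [e, aeval_X_left, AlgHom.id_apply] at h1
  exact h1

end spread

/-- **Two variables.** -/
theorem base (emb : ℚ_[p] →+* ℂ) (G : MvPolynomial (Fin 2) ℚ_[p]) (hG : G ≠ 0) (B : Set ℝ)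
    (hB : HB emb G B) : TD G B := by
  classical
  intro N hN
  have hpne : ∀ k : ℕ, (p : ℚ_[p]) ^ k ≠ 0 := fun k =>
    pow_ne_zero _ (by exact_mod_cast (Fact.out : p.Prime).ne_zero)
  have hGC : map emb G ≠ 0 := fun h =>
    hG (map_injective emb emb.injective (h.trans (map_zero _).symm))
  obtain ⟨b, hb0, hb⟩ := Pool.Agent.N138.BF.F2.exists_b (map emb G) hGC
  have hEv : ∀ s : ℂ, b.eval s ≠ 0 → Ev 1 (map emb G) s := fun s hs =>
    Ev_of_heq hGC (Pool.Agent.N103.heq_of_bfun _ b hb) hs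
  -- the polynomials of the exceptional numbers
  have hr : ∀ s : ℂ, ∃ k0 : ℕ, (∃ r : ℝ, (r : ℂ) = s ∧ r ∉ B ∧ r < 0) →
      ∃ H : MvPolynomial (Fin 2) ℂ, Ev H (map emb G) s ∧ ∀ P : Fin 2 → ℤ_[p],
        (∀ i, ‖P i‖ ≤ ((p : ℝ)⁻¹) ^ k0) → eval (fun i => emb (inc p (P i))) H ≠ 0 := by
    intro s
    by_cases h : ∃ r : ℝ, (r : ℂ) = s ∧ r ∉ B ∧ r < 0
    · obtain ⟨r, rfl, h1, h2⟩ := h
      obtain ⟨H, hH, hE⟩ := hB r h1 h2
      obtain ⟨k0, hk0⟩ := spread emb H hH
      exact ⟨k0, fun _ => ⟨H, hE, hk0⟩⟩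
    · exact ⟨0, fun h' => absurd h' h⟩
  choose kk hkk using hr
  set k0 := ∑ s ∈ b.roots.toFinset, kk s with hk0
  have hkle : ∀ s, b.eval s = 0 → kk s ≤ k0 := fun s hs =>
    Finset.single_le_sum (f := kk) (fun _ _ => Nat.zero_le _)
      (Multiset.mem_toFinset.2 ((Polynomial.mem_roots hb0).2 hs))
  refine ⟨k0, fun k hk a ha c hc φ hφ χ => ?_⟩
  have hM := isM_ball G k a c φ hφ
  have hφm := ball_meas G k a c φ hφ
  set g := C c * Pool.Agent.N138.RF.G5.sub ((p : ℚ_[p]) ^ k) (fun i => inc p (a i)) G with hg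
  have hg0 : g ≠ 0 := mul_ne_zero (C_ne_zero.2 hc) (sub_ne _ (hpne k) _ _ hG)
  have hcu := cu_Eh emb g hg0 (B ∪ {r | 0 ≤ r}) (fun r hrB P => ?_) φ hM χ
  · refine hat_av_mem (by omega) _ (Es_meas (hm p (Fin 2)) φ hφm) (Es_norm (hm p (Fin 2)) φ) χ _ ?_
    refine Pool.Agent.Y230.TH.EP_mono (fun T _ => ?_) hcu
    by_cases h1 : 1 < ‖T‖ ∧ rr p T ∈ B ∪ {r | 0 ≤ r}
    · obtain ⟨h2, h3⟩ := h1
      rcases h3 with h3 | h3
      · rw [mS_top h2 h3]
        exact le_top
      · exfalso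
        have h4 : rr p T < 0 := by
          unfold rr
          have hp : (1 : ℝ) < p := by exact_mod_cast (Fact.out : p.Prime).one_lt
          exact div_neg_of_neg_of_pos (neg_lt_zero.2 (Real.log_pos h2)) (Real.log_pos hp)
        have h5 : 0 ≤ rr p T := h3
        linarith
    · unfold mS
      rw [if_neg h1]
      exact bot_le
  · have hr1 : r ∉ B := fun h => hrB (Or.inl h)
    have hr2 : r < 0 := by
      by_contra h
      exact hrB (Or.inr (not_lt.1 h))
    have hmap : map emb g = C (emb c) * aeval (fun i => C (emb ((p : ℚ_[p]) ^ k)) * X i +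
        C (emb (inc p (a i)))) (map emb G) := by
      rw [hg, map_mul, map_C, sub_eq]
    have hec : emb c ≠ 0 := fun h => hc ((map_eq_zero emb).1 h)
    have hep : emb ((p : ℚ_[p]) ^ k) ≠ 0 := fun h => hpne k ((map_eq_zero emb).1 h)
    have hpt : (fun i => emb ((p : ℚ_[p]) ^ k) * emb (inc p (P i)) + emb (inc p (a i))) =
        fun i => emb (inc p (a i + (p : ℤ_[p]) ^ k * P i)) := by
      funext i
      rw [Pool.Agent.N138.RF.G5.inc_lin, map_add, map_mul, add_comm]
    change LEv _ (map emb g) _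
    rw [hmap]
    by_cases hbr : b.eval (r : ℂ) = 0
    · obtain ⟨H, hE, hH⟩ := hkk (r : ℂ) ⟨r, rfl, hr1, hr2⟩
      refine LEv_affine hGC hE _ _ _ hep ?_ _ hec
      rw [hpt]
      refine hH _ fun i => ?_
      have h1 : (p : ℤ_[p]) ^ kk (r : ℂ) ∣ a i + (p : ℤ_[p]) ^ k * P i := by
        refine dvd_add ?_ (Dvd.dvd.mul_right (pow_dvd_pow _ ((hkle _ hbr).trans hk)) _)
        exact (norm_le_iff _ _).1 ((ha i).trans
          (pow_le_pow_of_le_one ppos.le plt.le (hkle _ hbr)))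
      exact (norm_le_iff _ _).2 h1
    · exact LEv_affine hGC (hEv _ hbr) _ _ _ hep (by rw [map_one]; exact one_ne_zero) _ hec

end Pool.Agent.J4H50.NI
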