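import Pool.Agent.N138.SV.D1
import Pool.Agent.N138.SV.B6
import Pool.Agent.N138.RF.S
import Pool.Agent.N138.RF.Wh
import Pool.Agent.J4H50.IG.Lat

set_option autoImplicit false
set_option linter.unusedSectionVars false

/-! # The averages of the exponential sums over the numbers near `1` -/

namespace Pool.Agent.J4H50.NI

open MeasureTheory
open Pool.Agent.W427.SMC (msZ bsZ mu)
open Pool.Agent.Y230.PS (EP N0 N0_EP mem_N0)
open Pool.Agent.N138.SU Pool.Agent.N138.SV
open Pool.Agent.N316.SU (cx cx_unit cx_not cx_mul cx_norm cx_cont int_un X_conj X_near X_mul ppos plt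
  norm_le_iff un_meas)

attribute [local instance] msZ bsZ

variable {p : ℕ} [Fact p.Prime]

/-- the number `1 + p ^ N t` -/
noncomputable def vt (N : ℕ) (t : ℤ_[p]) : ℤ_[p] := 1 + (p : ℤ_[p]) ^ N * t

/-- the average over the multiplications by the numbers near `1` -/
noncomputable def av (N : ℕ) (E : ℕ → ℤ_[p] → ℂ) (e : ℕ) (u : ℤ_[p]) : ℂ :=
  ∫ t, E e (u * vt N t) ∂(mu p)

theorem vt_near (N : ℕ) (t : ℤ_[p]) : ‖vt N t - 1‖ ≤ ((p : ℝ)⁻¹) ^ N := by
  unfold vt
  rw [add_sub_cancel_left, norm_mul, norm_pow, PadicInt.norm_p]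
  exact mul_le_of_le_one_right (pow_pos ppos _).le (PadicInt.norm_le_one _)

theorem vt_norm {N : ℕ} (hN : 1 ≤ N) (t : ℤ_[p]) : ‖vt N t‖ = 1 :=
  Pool.Agent.N316.SU.norm_eq_one_of_near _ N hN (vt_near N t)

theorem vt_cont (N : ℕ) : Continuous (vt N : ℤ_[p] → ℤ_[p]) :=
  continuous_const.add (continuous_const.mul continuous_id)

theorem isom_aff (s v : ℤ_[p]) (hv : ‖v‖ = 1) : Isometry fun t : ℤ_[p] => s + v * t := by
  refine Isometry.of_dist_eq fun x y => ?_
  rw [dist_eq_norm, dist_eq_norm, show s + v * x - (s + v * y) = v * (x - y) by ring, norm_mul, hv,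
    one_mul]

/-- the substitution in the average -/
theorem av_subst {N : ℕ} (hN : 1 ≤ N) (v : ℤ_[p]) (hv : ‖v - 1‖ ≤ ((p : ℝ)⁻¹) ^ N)
    (f : ℤ_[p] → ℂ) (hf : Measurable f) :
    ∫ t, f (v * vt N t) ∂(mu p) = ∫ t, f (vt N t) ∂(mu p) := by
  obtain ⟨s, hs⟩ := (norm_le_iff _ N).1 hv
  have hv1 : ‖v‖ = 1 := Pool.Agent.N316.SU.norm_eq_one_of_near _ N hN hv
  have h1 : ∀ t, v * vt N t = vt N (s + v * t) := by
    intro t
    have h2 : v = 1 + (p : ℤ_[p]) ^ N * s := by rw [← hs]; ring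
    unfold vt
    rw [mul_add, mul_one]
    nth_rewrite 1 [h2]
    ring
  simp only [h1]
  exact Pool.Agent.N138.RF.S1.int_isom _ (isom_aff s v hv1) (fun t => f (vt N t))
    (hf.comp (vt_cont N).measurable)

theorem av_LC {N : ℕ} (hN : 1 ≤ N) (E : ℕ → ℤ_[p] → ℂ) (hE : ∀ e, Measurable (E e)) :
    LC N (av N E) := by
  intro e u v hv
  unfold av
  have h1 := av_subst hN v hv (fun z => E e (u * z))
    ((hE e).comp (continuous_const.mul continuous_id).measurable)
  simp only [← mul_assoc] at h1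
  exact h1

theorem av_of_LC {N : ℕ} (E : ℕ → ℤ_[p] → ℂ) (hE : LC N E) : av N E = E := by
  funext e u
  unfold av
  simp only [hE e u _ (vt_near N _)]
  rw [integral_const]
  simp

/-- **The average and the characters.** -/
theorem hat_av {N : ℕ} (hN : 1 ≤ N) (E : ℕ → ℤ_[p] → ℂ) (hE : ∀ e, Measurable (E e))
    (hb : ∀ e u, ‖E e u‖ ≤ 1) (χ : UC p) (e : ℕ) :
    hat (av N E) χ e = (∫ t, χ.X ((vt N t : ℤ_[p]) : ℚ_[p]) ∂(mu p)) * hat E χ e := by
  unfold hat
  rw [int_un, int_un]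
  have hm : Measurable fun z : ℤ_[p] × ℤ_[p] => cx χ z.1 * E e (z.1 * vt N z.2) := by
    refine ((cx_cont χ).measurable.comp measurable_fst).mul ((hE e).comp ?_)
    exact (continuous_fst.mul ((vt_cont N).comp continuous_snd)).measurable
  have hi : Integrable (fun z : ℤ_[p] × ℤ_[p] => cx χ z.1 * E e (z.1 * vt N z.2))
      ((mu p).prod (mu p)) := by
    refine Integrable.of_bound hm.aestronglyMeasurable 1 (Filter.Eventually.of_forall fun z => ?_)
    rw [norm_mul]
    exact mul_le_one₀ (cx_norm _ _) (norm_nonneg _) (hb _ _)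
  calc ∫ u, cx χ u * av N E e u ∂(mu p)
      = ∫ u, ∫ t, cx χ u * E e (u * vt N t) ∂(mu p) ∂(mu p) := by
        refine integral_congr_ae (Filter.Eventually.of_forall fun u => ?_)
        unfold av
        exact (integral_const_mul _ _).symm
    _ = ∫ t, ∫ u, cx χ u * E e (u * vt N t) ∂(mu p) ∂(mu p) := integral_integral_swap hi
    _ = ∫ t, χ.X ((vt N t : ℤ_[p]) : ℚ_[p]) * ∫ u, cx χ u * E e u ∂(mu p) ∂(mu p) := by
        refine integral_congr_ae (Filter.Eventually.of_forall fun t => ?_)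
        beta_reduce
        have hv := vt_norm hN t
        have h1 : ∀ u, cx χ u * E e (u * vt N t) = χ.X ((vt N t : ℤ_[p]) : ℚ_[p]) *
            (cx χ (0 + vt N t * u) * E e (0 + vt N t * u)) := by
          intro u
          rw [zero_add, cx_mul χ u _ hv, ← mul_assoc, ← mul_assoc,
            mul_comm (χ.X _) ((starRingEnd ℂ) _), X_conj χ _ hv, one_mul, mul_comm u]
        simp only [h1]
        rw [integral_const_mul]
        congr 1
        exact Pool.Agent.N138.RF.S1.int_isom _ (isom_aff 0 _ hv) (fun u => cx χ u * E e u)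
          ((cx_cont χ).measurable.mul (hE e))
    _ = _ := by rw [integral_mul_const]

/-- the average is harmless for the characters which are trivial near `1` -/
theorem hat_av_triv {N : ℕ} (hN : 1 ≤ N) (E : ℕ → ℤ_[p] → ℂ) (hE : ∀ e, Measurable (E e))
    (hb : ∀ e u, ‖E e u‖ ≤ 1) (χ : UC p) (hχ : χ.c ≤ N) (e : ℕ) :
    hat (av N E) χ e = hat E χ e := by
  rw [hat_av hN E hE hb χ e]
  have h1 : ∀ t : ℤ_[p], χ.X ((vt N t : ℤ_[p]) : ℚ_[p]) = 1 := fun t =>
    X_near χ _ ((vt_near N t).trans (pow_le_pow_of_le_one ppos.le plt.le hχ))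
  simp only [h1]
  rw [integral_const]
  simp

theorem hat_av_mem {N : ℕ} (hN : 1 ≤ N) (E : ℕ → ℤ_[p] → ℂ) (hE : ∀ e, Measurable (E e))
    (hb : ∀ e u, ‖E e u‖ ≤ 1) (χ : UC p) (m : ℂ → ℕ∞) (h : (fun e => hat E χ e) ∈ EP m) :
    (fun e => hat (av N E) χ e) ∈ EP m := by
  have h1 : (fun e => hat (av N E) χ e) =
      (∫ t, χ.X ((vt N t : ℤ_[p]) : ℚ_[p]) ∂(mu p)) • fun e => hat E χ e := by
    funext e
    rw [Pi.smul_apply, smul_eq_mul]
    exact hat_av hN E hE hb χ e
  rw [h1]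
  exact Submodule.smul_mem _ _ h

theorem av_meas {N : ℕ} (E : ℕ → ℤ_[p] → ℂ) (hE : ∀ e, Measurable (E e)) (e : ℕ) :
    Measurable (av N E e) := by
  have hm : Measurable (fun z : ℤ_[p] × ℤ_[p] => E e (z.1 * vt N z.2)) :=
    (hE e).comp (continuous_fst.mul ((vt_cont N).comp continuous_snd)).measurable
  have h1 : StronglyMeasurable (Function.uncurry fun (u : ℤ_[p]) (t : ℤ_[p]) => E e (u * vt N t)) :=
    hm.stronglyMeasurable
  exact h1.integral_prod_right.measurable

theorem av_norm {N : ℕ} (E : ℕ → ℤ_[p] → ℂ) (hb : ∀ e u, ‖E e u‖ ≤ 1) (e : ℕ) (u : ℤ_[p]) :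
    ‖av N E e u‖ ≤ 1 := by
  unfold av
  refine (norm_integral_le_of_norm_le_const (C := 1) (Filter.Eventually.of_forall fun y =>
    hb e _)).trans ?_
  rw [one_mul]
  exact measureReal_le_one

end Pool.Agent.J4H50.NI
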