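import Pool.Agent.J4H50.NI.Germ
import Pool.Agent.J4H50.IG.Mild

set_option autoImplicit false
set_option linter.unusedSectionVars false
set_option linter.unusedVariables false
set_option linter.unusedTactic false

/-! # Hypersurfaces whose singular points have corank at most two -/

namespace Pool.Agent.J4H50.NI

open MvPolynomial MeasureTheory
open Pool.Agent.W427.SMC
open Pool.Agent.Y230.PT (msK bsK inc rr exists_emb)
open Pool.Agent.Y230.PS (EP N0 N0_EP mem_N0 hyp mult_of_tr FF_hyp)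
open Pool.Agent.Y230.PT Pool.Agent.Y230.PS Pool.Agent.Y230.TH
open Pool.Agent.R852.PP Pool.Agent.N138.SU Pool.Agent.N138.SV
open Pool.Agent.N138.RF Pool.Agent.N138.BF
open Pool.Agent.H628R4.TP (IsBFunction)
open Pool.Agent.Y230.RE Pool.Agent.W574.SM Pool.Agent.W574.RO Pool.Agent.W574.CN
open Pool.Agent.J4H50.IG (hm mI cz cz_inj germ fb fb_meas LocOK loc_ne loc_nc hes hes_map rank_ext
  hes_symm germ_germ cc_germ pderiv_germ map_germ eval_castQ aeval_emb SingC mem_sq IsoC TS JEq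
  germTS_nc Mild RatTS mild_ts rat_ts iso_descend eval_cz nonempty_of_nc mB_le loc_ts)

attribute [local instance] msZ bsZ

variable {p : ℕ} [Fact p.Prime] {V : Type} [Fintype V]

/-- the exponential sums with one character on the small balls around `P` -/
def LocX (f : MvPolynomial V ℤ_[p]) (P : V → ℤ_[p]) (m : ℂ → ℕ∞) (χ : UC p) : Prop :=
  ∃ k0 : ℕ, ∀ k : ℕ, k0 ≤ k → (fun e : ℕ => Eh (hm p V) (fb f P k) χ e) ∈ EP m

theorem LocX_of {f : MvPolynomial V ℤ_[p]} {P : V → ℤ_[p]} {m : ℂ → ℕ∞} (h : LocOK f P m)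
    (χ : UC p) : LocX f P m χ := by
  obtain ⟨k0, hk0⟩ := h
  exact ⟨k0, fun k hk => hk0 k hk χ⟩

/-- the assembly of the balls -/
theorem glueX (f : MvPolynomial V ℤ_[p]) (m : ℂ → ℕ∞) (χ : UC p) (h : ∀ P, LocX f P m χ) :
    (fun e : ℕ => Eh (hm p V) (fun y => eval y f) χ e) ∈ EP m := by
  choose k0 hk0 using h
  obtain ⟨S, hS1, hS2⟩ := Pool.Agent.N138.RF.D.t p k0
  have hfm : Measurable fun y : V → ℤ_[p] => eval y f :=
    (MvPolynomial.continuous_eval f).measurable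
  have h1 : ∀ (e : ℕ) (u : ℤ_[p]), Es (hm p V) (fun y => eval y f) e u =
      ∑ a ∈ S, ((p : ℂ)⁻¹) ^ (Fintype.card V * a.2) * Es (hm p V) (fb f a.1 a.2) e u := by
    intro e u
    exact hS2 (fun x => psi p e (u * eval x f))
      ((Pool.Agent.N138.SU.B3.psi_meas e).comp (measurable_const.mul hfm))
      ⟨1, fun z => (Pool.Agent.N138.SU.B3.psi_norm e _).le⟩
  have h2 : (fun e : ℕ => Eh (hm p V) (fun y => eval y f) χ e) =
      ∑ a ∈ S, ((p : ℂ)⁻¹) ^ (Fintype.card V * a.2) •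
        (fun e : ℕ => Eh (hm p V) (fb f a.1 a.2) χ e) := by
    funext e
    have h3 := hat_sum S (fun a => ((p : ℂ)⁻¹) ^ (Fintype.card V * a.2))
      (fun a e u => Es (hm p V) (fb f a.1 a.2) e u) e
      (fun a ha => Es_meas (hm p V) (fb f a.1 a.2) (fb_meas f a.1 a.2) e)
      (fun a _ u => Es_norm (hm p V) (fb f a.1 a.2) e u) χ
    have h4 : Eh (hm p V) (fun y => eval y f) χ e = hat (fun e u => ∑ a ∈ S,
        ((p : ℂ)⁻¹) ^ (Fintype.card V * a.2) * Es (hm p V) (fb f a.1 a.2) e u) χ e := by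
      unfold Pool.Agent.N138.SU.Eh hat
      simp only [h1]
    rw [h4, h3, Finset.sum_apply]
    rfl
  rw [h2]
  exact Submodule.sum_mem _ fun a ha => Submodule.smul_mem _ _ (hk0 a.1 a.2 (hS1 a ha))

/-- the critical zeros whose germs satisfy `TD` -/
theorem loc_td (f : MvPolynomial V ℤ_[p]) (P : V → ℤ_[p]) (B : Set ℝ)
    (h : TD (germ (map (cz p) f) fun i => cz p (P i)) B) (χ : UC p) : LocX f P (mS p B) χ := by
  obtain ⟨k0, hk0⟩ := h (max 3 χ.c) (le_max_left _ _)
  refine ⟨k0, fun k hk => ?_⟩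
  have h1 := hk0 k hk 0 (fun i => by
    rw [Pi.zero_apply, norm_zero]
    exact pow_nonneg (inv_nonneg.2 (Nat.cast_nonneg _)) _) 1 one_ne_zero (fb f P k) (fun y => by
      rw [one_mul, germ_germ]
      unfold fb
      rw [hinc, eval_cz]
      congr 2
      funext i
      rw [hinc, Pi.zero_apply, zero_add, map_add, add_comm]) χ
  have h2 : (fun e => hat (av (max 3 χ.c) (Es (hm p V) (fb f P k))) χ e) =
      fun e => Eh (hm p V) (fb f P k) χ e := by
    funext e
    exact hat_av_triv (by omega) _ (Es_meas (hm p V) _ (fb_meas f P k))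
      (Es_norm (hm p V) _) χ (le_max_right _ _) e
  rw [h2] at h1
  exact h1

/-- **From the exponential sums to the poles.** -/
theorem poles (f : MvPolynomial V ℤ) (B : Set ℝ) (hB1 : (-1 : ℝ) ∈ B)
    (h : ∀ χ : UC p, (fun e : ℕ => Eh (hm p V)
      (fun y => eval y (map (Int.castRingHom ℤ_[p]) f)) χ e) ∈ EP (mS p B))
    (Z : ℂ → ℂ) (hZ : MeromorphicOn Z Set.univ)
    (hZp : ∀ s : ℂ, 0 < s.re → Z s = igusaZeta p f s) (s₀ : ℂ)
    (hs : meromorphicOrderAt Z s₀ < 0) : s₀.re ∈ B := by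
  classical
  set φ : (V → ℤ_[p]) → ℤ_[p] := fun y => eval y (map (Int.castRingHom ℤ_[p]) f) with hφd
  have hφ : Measurable φ := (MvPolynomial.continuous_eval _).measurable
  have hp0 : (p : ℂ) ≠ 0 := by exact_mod_cast (Fact.out : p.Prime).ne_zero
  have hp1 : 1 < ‖(p : ℂ)‖ := by
    rw [Complex.norm_natCast]
    exact_mod_cast (Fact.out : p.Prime).one_lt
  have h0 : IsV (map (Int.castRingHom ℚ) f) 0 φ := by
    intro x
    rw [pow_zero, one_mul, Pool.Agent.N138.RF.G5.inc_eval, map_map, map_map]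
    congr 2
  have hD := D_of_Eh (Measure.pi fun _ : V => mu p) φ hφ _ h
  have h4 : op (p : ℂ)⁻¹ (Vc (Measure.pi fun _ : V => mu p) (fun y => ‖φ y‖) p) =
      (p : ℂ)⁻¹ • (fun e : ℕ => (p : ℂ) * Uo (Measure.pi fun _ : V => mu p) φ (e + 1) -
      Uo (Measure.pi fun _ : V => mu p) φ e) := by
    funext e
    rw [Pi.smul_apply, op_apply, ← Uo_Vc, ← Uo_Vc, smul_eq_mul, mul_sub, ← mul_assoc,
      inv_mul_cancel₀ hp0, one_mul]
  have h5 := Submodule.smul_mem _ ((p : ℂ)⁻¹) hD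
  rw [← h4] at h5
  have h6 := EP_of_op _ (p : ℂ) hp0 _ h5
  have hrp : rr p (p : ℂ) = -1 := by
    unfold rr
    rw [Complex.norm_natCast]
    have : Real.log p ≠ 0 := (Real.log_pos (by exact_mod_cast (Fact.out : p.Prime).one_lt)).ne'
    field_simp
  have h7 : Vc (Measure.pi fun _ : V => mu p) (fun y => ‖φ y‖) p ∈
      EP (Pool.Agent.Y230.PS.tr (mS p B)) := by
    rw [mS_tr]
    refine EP_mono (fun T hT => ?_) h6
    split_ifs with hTp
    · rw [hTp, mS_top hp1 (by rw [hrp]; exact hB1)]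
      exact le_top
    · rw [add_zero]
  have h8 := FR_of_Vc (Measure.pi fun _ : V => mu p) (fun y => ‖φ y‖)
    (continuous_norm.measurable.comp hφ) (fun x => val_norm (φ x)) h7
  rw [h0.FZ] at h8
  have h9 := (FR_scaleF (fun _ : Fin 1 => MvPolynomial.map (algebraMap ℚ ℚ_[p])
    (map (Int.castRingHom ℚ) f)) 0).1 h8
  obtain ⟨D, P, hD0, h1', h2⟩ := FR.rat h9
  have h1 : ∀ s : ℝ, 0 ≤ s →
      D.eval ((tr' p s : ℝ) : ℂ) * ((∫⁻ x : V → ℤ_[p], tau p s (aeval x f)
        ∂(Measure.pi fun _ : V => mu p)).toReal : ℂ) = P.eval ((tr' p s : ℝ) : ℂ) := by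
    intro s hs
    rw [← h1' s hs]
    congr 1
    have e1 := FF_hyp (p := p) (map (Int.castRingHom ℚ) f) s
    simp only [tau_N] at e1 ⊢
    exact e1.symm
  have h3 := mero_bound p D P hD0 Z hZ (fun s hs => by
    rw [pw_real, hZp s (by simpa using hs), igusaZeta_eq, h1 s hs.le]) s₀
  have h10 : 0 < D.rootMultiplicity (pw p s₀) := by
    by_contra hn
    have : D.rootMultiplicity (pw p s₀) = 0 := by omega
    rw [this] at h3
    exact absurd hs (not_lt.2 (by simpa using h3))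
  have h11 := h2 (pw p s₀) (pw_ne_zero p s₀)
  rw [mS_tr] at h11
  have h12 := (mS_le h10 h11).2
  have h13 : rr p (pw p s₀) = s₀.re := pw_norm p s₀
  rwa [h13] at h12

end Pool.Agent.J4H50.NI
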