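import Pool.Agent.J4H50.NI.Fin

set_option autoImplicit false
set_option linter.unusedSectionVars false
set_option linter.unusedVariables false
set_option linter.unusedTactic false

/-! # Hypersurfaces whose singular points have corank at most two: the theorem -/

namespace Pool.Agent.J4H50.NI

open MvPolynomial MeasureTheory
open Pool.Agent.W427.SMC
open Pool.Agent.Y230.PT (msK bsK inc rr exists_emb)
open Pool.Agent.Y230.PS (EP N0 N0_EP mem_N0 hyp mult_of_tr FF_hyp single_of_isB)
open Pool.Agent.N138.SU Pool.Agent.N138.SV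
open Pool.Agent.N138.BF
open Pool.Agent.H628R4.TP (IsBFunction)
open Pool.Agent.J4H50.IG (hm mI cz cz_inj germ fb fb_meas LocOK loc_ne loc_nc hes hes_map rank_ext
  hes_symm germ_germ cc_germ pderiv_germ map_germ eval_castQ aeval_emb SingC mem_sq IsoC TS JEq
  germTS_nc Mild RatTS mild_ts rat_ts iso_descend eval_cz nonempty_of_nc mB_le loc_ts)
open Pool.Agent.N103.V (Ev Ev_of_heq)

attribute [local instance] msZ bsZ

variable {p : ℕ} [Fact p.Prime] {V : Type} [Fintype V] [DecidableEq V]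

/-- the germs of a polynomial and its b-function -/
theorem HB_germ (emb : ℚ_[p] →+* ℂ) (f : MvPolynomial V ℤ) (hf : f ≠ 0) (b : Polynomial ℂ)
    (hb : IsBFunction (map (Int.castRingHom ℂ) f) b) (a : V → ℤ_[p]) :
    HB emb (germ (map (cz p) (map (Int.castRingHom ℤ_[p]) f)) fun i => cz p (a i))
      {r | b.eval (r : ℂ) = 0} := by
  intro r hr _
  have hr' : b.eval (r : ℂ) ≠ 0 := hr
  have hfC : map (Int.castRingHom ℂ) f ≠ 0 := fun h =>
    hf (map_injective _ Int.cast_injective (h.trans (map_zero _).symm))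
  have hE := Ev_of_heq hfC (Pool.Agent.N103.heq_of_bfun _ b hb) hr'
  have h1 := LEv_affine hfC hE 0 (fun i => emb (cz p (a i))) 1 one_ne_zero (by
    rw [map_one]
    exact one_ne_zero) 1 one_ne_zero
  rw [map_one, one_mul] at h1
  have e2 : map (Int.castRingHom ℂ) f = map emb (map (cz p) (map (Int.castRingHom ℤ_[p]) f)) := by
    rw [map_map, map_map]
    exact congrArg (fun g => map g f) (RingHom.ext_int _ _)
  have e3 : map emb (germ (map (cz p) (map (Int.castRingHom ℤ_[p]) f)) fun i => cz p (a i)) =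
      aeval (fun i => 1 * X i + C (emb (cz p (a i)))) (map (Int.castRingHom ℂ) f) := by
    rw [map_germ, ← e2]
    unfold germ
    congr 2
    funext i
    rw [one_mul]
  rw [e3]
  exact h1

/-- the isolated critical zeros which are Thom-Sebastiani sums -/
theorem loc_iso (f : MvPolynomial V ℤ) (hf : ∀ c, f ≠ C c) (P : V → ℤ_[p])
    (hP : eval P (map (Int.castRingHom ℤ_[p]) f) = 0)
    (hc : ∀ i, eval P (pderiv i (map (Int.castRingHom ℤ_[p]) f)) = 0)
    (h : ∃ F : MvPolynomial V ℚ_[p], TS ℚ_[p] F ∧ (∃ M, IsoC F M) ∧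
      ∀ n, JEq (germ (map (cz p) (map (Int.castRingHom ℤ_[p]) f)) fun i => cz p (P i)) F n) :
    LocOK (map (Int.castRingHom ℤ_[p]) f) P
      (Pool.Agent.Y230.PS.tr (mW w1 p (hyp (map (Int.castRingHom ℚ) f)))) := by
  have hV := nonempty_of_nc f hf
  obtain ⟨emb⟩ := exists_emb p
  set fp : MvPolynomial V ℤ_[p] := map (Int.castRingHom ℤ_[p]) f with hfp
  obtain ⟨F, hF, ⟨M, hM⟩, hJ⟩ := h
  have hgm : germ (map (cz p) fp) (fun i => cz p (P i)) ∈ mI V ℚ_[p] ^ 2 := by
    refine mem_sq _ ?_ fun i => ?_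
    · rw [cc_germ, ← eval_cz, hP, map_zero]
    · rw [pderiv_germ, cc_germ, pderiv_map, ← eval_cz, hc i, map_zero]
  have hF2 : F ∈ mI V ℚ_[p] ^ 2 := by
    obtain ⟨ψ, hψ, h2⟩ := hJ 2
    have h3 := IG.aeval_mem ψ hψ.mem 2 hgm
    have h4 := Ideal.sub_mem _ h3 h2
    rwa [sub_sub_cancel] at h4
  obtain ⟨κ, F', h1, h2, h3⟩ := loc_ts emb fp P hF (Nat.le_add_left 1 M) (hM.mono (Nat.le_succ M))
    hF2 hJ
  obtain ⟨k0, hk0⟩ := h3
  exact ⟨k0, fun k hk χ => Pool.Agent.Y230.TH.EP_mono
    (fun T _ => mB_le emb f hf P κ F' h1 h2 T) (hk0 k hk χ)⟩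

theorem mW_mS (f : MvPolynomial V ℤ) (b : Polynomial ℂ)
    (hb : IsBFunction (map (Int.castRingHom ℂ) f) b) (T : ℂ) :
    Pool.Agent.Y230.PS.tr (mW w1 p (hyp (map (Int.castRingHom ℚ) f))) T ≤
      mS p {r | b.eval (r : ℂ) = 0} T := by
  unfold Pool.Agent.Y230.PS.tr
  split_ifs with hT
  · exact bot_le
  · by_cases h0 : mW w1 p (hyp (map (Int.castRingHom ℚ) f)) T = 0
    · rw [h0]
      exact bot_le
    · have h1 : ((1 : ℕ) : ℕ∞) ≤ mW w1 p (hyp (map (Int.castRingHom ℚ) f)) T := by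
        rw [Nat.cast_one]
        exact Order.one_le_iff_ne_zero.2 h0
      obtain ⟨k, hk1, -, hk⟩ := mW_FK isW_1 le_rfl h1
      have hb2 : IsBFunction (map (algebraMap ℚ ℂ) (map (Int.castRingHom ℚ) f)) b := by
        rw [map_map]
        have e : (algebraMap ℚ ℂ).comp (Int.castRingHom ℚ) = Int.castRingHom ℂ :=
          RingHom.ext_int _ _
        rw [e]
        exact hb
      have h2 := hk b (single_of_isB _ b hb2)
      rw [mS_top (not_le.1 hT)]
      · exact le_top
      · have h3 : (Polynomial.X - Polynomial.C ((rr p T : ℝ) : ℂ)) ∣ b :=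
          (dvd_pow_self _ (by omega)).trans h2
        exact Polynomial.dvd_iff_isRoot.1 h3

/-- **Hypersurfaces whose singular points have corank at most two, or are isolated and mild or
rational Thom-Sebastiani sums.** -/
theorem main_poles (f : MvPolynomial V ℤ) (hV : 2 ≤ Fintype.card V) (hf : ∀ c, f ≠ C c)
    (h : ∀ x ∈ SingC f, Fintype.card V ≤ (hes (germ (map (Int.castRingHom ℂ) f) x)).rank + 2 ∨
      ((∃ M, IsoC (germ (map (Int.castRingHom ℂ) f) x) M) ∧
        (Mild (germ (map (Int.castRingHom ℂ) f) x) ∨ RatTS f x)))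
    (b : Polynomial ℂ) (hb : IsBFunction (map (Int.castRingHom ℂ) f) b)
    (Z : ℂ → ℂ) (hZ : MeromorphicOn Z Set.univ)
    (hZp : ∀ s : ℂ, 0 < s.re → Z s = igusaZeta p f s) (s₀ : ℂ)
    (hs : meromorphicOrderAt Z s₀ < 0) : b.eval (s₀.re : ℂ) = 0 := by
  have hf0 : f ≠ 0 := fun h0 => hf 0 (by rw [h0, map_zero])
  obtain ⟨emb⟩ := exists_emb p
  have hbQ : IsBFunction (map (algebraMap ℚ ℂ) (map (Int.castRingHom ℚ) f)) b := by
    rw [map_map]
    have e : (algebraMap ℚ ℂ).comp (Int.castRingHom ℚ) = Int.castRingHom ℂ :=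
      RingHom.ext_int _ _
    rw [e]
    exact hb
  have hB1 : b.eval ((-1 : ℝ) : ℂ) = 0 := by
    have h1 := FK_nc _ (germTS_nc f hf) b (single_of_isB _ b hbQ)
    rw [pow_one] at h1
    have h2 := Polynomial.dvd_iff_isRoot.1 h1
    push_cast
    exact h2
  refine poles f {r | b.eval (r : ℂ) = 0} hB1 (fun χ => ?_) Z hZ hZp s₀ hs
  refine glueX _ _ χ fun P => ?_
  set fp : MvPolynomial V ℤ_[p] := map (Int.castRingHom ℤ_[p]) f with hfp
  have ev : ∀ q : MvPolynomial V ℤ, eval P (map (Int.castRingHom ℤ_[p]) q) = aeval P q := by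
    intro q
    rw [eval_map]
    rfl
  by_cases hP : eval P fp = 0
  swap
  · exact LocX_of (loc_ne fp P hP _) χ
  by_cases hc : ∀ i, eval P (pderiv i fp) = 0
  swap
  · push Not at hc
    obtain ⟨i, hi⟩ := hc
    exact LocX_of (loc_nc fp P i hi _) χ
  -- the complex singular point
  set g : MvPolynomial V ℚ_[p] := germ (map (cz p) fp) fun i => cz p (P i) with hg
  set x : V → ℂ := fun i => emb (P i : ℚ_[p]) with hx
  have hev : ∀ q : MvPolynomial V ℤ, aeval x q = emb ((aeval P q : ℤ_[p]) : ℚ_[p]) :=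
    fun q => aeval_emb emb q P
  have hxS : x ∈ SingC f := by
    refine ⟨?_, fun i => ?_⟩
    · rw [hev, ← ev, hP, PadicInt.coe_zero, map_zero]
    · rw [hev, ← ev, ← pderiv_map, hc i, PadicInt.coe_zero, map_zero]
  have hg2 : g ∈ mI V ℚ_[p] ^ 2 := by
    refine mem_sq _ ?_ fun i => ?_
    · rw [hg, cc_germ, ← eval_cz, hP, map_zero]
    · rw [hg, pderiv_germ, cc_germ, pderiv_map, ← eval_cz, hc i, map_zero]
  have hmg : map emb g = germ (map (Int.castRingHom ℂ) f) x := by
    rw [hg, map_germ, hfp, map_map, map_map]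
    have : (emb.comp (cz p)).comp (Int.castRingHom ℤ_[p]) = Int.castRingHom ℂ :=
      RingHom.ext_int _ _
    rw [← this]
    rfl
  have hfp0 : map (cz p) fp ≠ 0 := by
    rw [hfp, map_map]
    intro h0
    have hinj : Function.Injective ((cz p).comp (Int.castRingHom ℤ_[p])) := by
      have : (cz p).comp (Int.castRingHom ℤ_[p]) = Int.castRingHom ℚ_[p] := RingHom.ext_int _ _
      rw [this]
      exact Int.cast_injective
    exact hf0 (map_injective _ hinj (h0.trans (map_zero _).symm))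
  have hg0 : g ≠ 0 := fun h0 => hfp0 (by
    have h1 := congrArg (fun q => germ q fun i => -(cz p (P i))) h0
    beta_reduce at h1
    rw [hg] at h1
    unfold germ at h1
    rw [IG.aeval_aeval, map_zero] at h1
    have e3 : (fun i : V => aeval (fun i => X i + C (-(cz p (P i))))
        (X i + C (cz p (P i)) : MvPolynomial V ℚ_[p])) = X := by
      funext i
      rw [map_add, aeval_X, aeval_C, algebraMap_eq, map_neg]
      ring
    rw [e3, aeval_X_left, AlgHom.id_apply] at h1
    exact h1)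
  rcases h x hxS with hr | ⟨⟨M, hM⟩, hm⟩
  · -- corank at most two
    have hr' : Fintype.card V ≤ (hes g).rank + 2 := by
      rw [← hmg, hes_map, rank_ext two_ne_zero emb (hes g) (hes_symm g)] at hr
      exact hr
    exact loc_td fp P _ (germ_TD emb (Fintype.card V - 2) V (by omega) g hg0 hg2 hr' _
      (HB_germ emb f hf0 b hb P)) χ
  · -- isolated singularities
    rw [← hmg] at hM hm
    have hMg : IsoC g (M + 1) := (iso_descend emb hM).mono (Nat.le_succ M)
    have h1 : ∃ F : MvPolynomial V ℚ_[p], TS ℚ_[p] F ∧ (∃ M, IsoC F M) ∧ ∀ n, JEq g F n := by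
      rcases hm with hm | hm
      · exact mild_ts two_ne_zero emb g hg2 (Nat.le_add_left 1 M) hMg hV hm
      · exact rat_ts emb f x (fun i => ⟨_, rfl⟩) g hmg (Nat.le_add_left 1 M) hMg hm
    obtain ⟨k0, hk0⟩ := LocX_of (loc_iso f hf P hP hc h1) χ
    exact ⟨k0, fun k hk => Pool.Agent.Y230.TH.EP_mono (fun T _ => mW_mS f b hb T) (hk0 k hk)⟩

end Pool.Agent.J4H50.NI
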