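import Pool.Agent.N103.V.Leaf

set_option autoImplicit false
set_option linter.unusedSectionVars false
set_option linter.unusedVariables false

/-! # Local functional equations at one number, in the plane -/

namespace Pool.Agent.J4H50.NI

open Pool.Agent.W574.SM Pool.Agent.N103 Pool.Agent.N103.V

/-- the local functional equation of `F` at the point `Pt` and the number `s` -/
def LEv {σ : Type} (Pt : σ → ℂ) (F : MvPolynomial σ ℂ) (s : ℂ) : Prop :=
  ∃ H : MvPolynomial σ ℂ, MvPolynomial.eval Pt H ≠ 0 ∧ Ev H F s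

/-- the geometry of a node of the resolution of one polynomial -/
abbrev GD (F : MP) (Pt : Fin 2 → ℂ) (g : MP) (a0 n0 a1 n1 : ℕ) : Type :=
  GeomD (κ := Empty) F (fun _ => 1) 1 (fun j => j.elim) Pt g (fun _ => 1) a0 n0 a1 n1

theorem FF_one (F : MP) : FF (κ := Empty) F (fun _ => 1) 1 = MvPolynomial.rename Sum.inl F := by
  unfold FF lin
  simp

theorem FF_ne {F : MP} (hF : F ≠ 0) : FF (κ := Empty) F (fun _ => 1) 1 ≠ 0 := by
  rw [FF_one]
  intro h
  exact hF (MvPolynomial.rename_injective _ Sum.inl_injective (by rw [h, map_zero]))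

theorem Ev_inl {σ κ : Type} {H F : MvPolynomial σ ℂ} {s : ℂ} (h : Ev H F s) :
    Ev (MvPolynomial.rename (Sum.inl : σ → σ ⊕ κ) H) (MvPolynomial.rename Sum.inl F) s := by
  intro L _ _ φ D Gi hD hG U h1 h2 h3 h4
  have key : ∀ i : σ, ∀ q : MvPolynomial σ ℂ,
      MvPolynomial.pderiv (Sum.inl i : σ ⊕ κ) (MvPolynomial.rename Sum.inl q) =
        MvPolynomial.rename Sum.inl (MvPolynomial.pderiv i q) := fun i q =>
    MvPolynomial.pderiv_rename Sum.inl_injective i q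
  refine h L (φ.comp (MvPolynomial.rename Sum.inl)) (fun i => D (Sum.inl i)) Gi ?_ hG U ?_ ?_ h3 ?_
  · intro i p
    rw [AlgHom.comp_apply, hD, key]
    rfl
  · intro i x hx
    rw [AlgHom.comp_apply, MvPolynomial.rename_X]
    exact h1 _ x hx
  · intro i x hx
    exact h2 (Sum.inl i) x hx
  · intro i
    have := h4 (Sum.inl i)
    rwa [key] at this

theorem LEv.ff {F : MP} {Pt : Fin 2 → ℂ} {s : ℂ} (h : LEv Pt F s) :
    ∃ H : MvPolynomial (Fin 2 ⊕ Empty) ℂ,
      MvPolynomial.eval (Sum.elim Pt (fun j : Empty => j.elim)) H ≠ 0 ∧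
      Ev H (FF (κ := Empty) F (fun _ => 1) 1) s := by
  obtain ⟨H, h1, h2⟩ := h
  refine ⟨MvPolynomial.rename Sum.inl H, ?_, ?_⟩
  · rw [MvPolynomial.eval_rename]
    exact h1
  · rw [FF_one]
    exact Ev_inl h2

/-- the initial geometry -/
noncomputable def gd_init (F : MP) (Pt : Fin 2 → ℂ) : GD F Pt (translate Pt F) 0 1 0 1 where
  ξ := fun i => MvPolynomial.X i + MvPolynomial.C (Pt i)
  b0 := 0
  c0 := 0
  b1 := 0
  c1 := 0
  Wh := 1
  Wf := 1
  W' := 1
  hWh := by simp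
  hWf := by simp
  hW' := by simp
  eh := by
    rw [pow_zero, pow_zero, mul_one, mul_one, one_mul]
    rfl
  ef := fun j => by
    rcases j with _ | j
    · simp [fc]
    · exact j.elim
  ea0 := by simp
  ea1 := by simp
  eJ := by
    rw [jac, Matrix.det_fin_two]
    simp only [Matrix.of_apply, map_add, MvPolynomial.pderiv_C]
    rw [MvPolynomial.pderiv_X_self, MvPolynomial.pderiv_X_self,
      MvPolynomial.pderiv_X_of_ne (by decide), MvPolynomial.pderiv_X_of_ne (by decide)]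
    ring
  eP := fun i => by simp
  eK0 := fun h => absurd h (by omega)
  eK1 := fun h => absurd h (by omega)

section Child

variable {F g : MP} {Pt : Fin 2 → ℂ} {a0 n0 a1 n1 : ℕ}

theorem ch1 (z : ℂ) : ∀ j : Option Empty, MvPolynomial.aeval (chart z)
    ((fun _ => 1 : Option Empty → MP) j) =
      MvPolynomial.X 0 ^ 0 * (fun _ => 1 : Option Empty → MP) j := by
  intro j
  simp

theorem chI1 : ∀ j : Option Empty, MvPolynomial.aeval chartI
    ((fun _ => 1 : Option Empty → MP) j) =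
      MvPolynomial.X 1 ^ 0 * (fun _ => 1 : Option Empty → MP) j := by
  intro j
  simp

noncomputable def gd_child0 (G : GD F Pt g a0 n0 a1 n1) (hn0 : 1 ≤ n0) (hn1 : 1 ≤ n1) (m : ℕ)
    (k : MP) (hk : MvPolynomial.aeval (chart 0) g = MvPolynomial.X 0 ^ m * k) :
    GD F Pt k (a0 + a1 + m) (n0 + n1) a1 n1 :=
  G.child0 hn0 hn1 m 0 k (fun _ => 1) hk (ch1 0)

noncomputable def gd_child (G : GD F Pt g a0 n0 a1 n1) (hn0 : 1 ≤ n0) (hn1 : 1 ≤ n1) (m : ℕ)
    (z : ℂ) (hz : z ≠ 0) (k : MP)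
    (hk : MvPolynomial.aeval (chart z) g = MvPolynomial.X 0 ^ m * k) :
    GD F Pt k (a0 + a1 + m) (n0 + n1) 0 1 :=
  G.child hn0 hn1 m 0 z hz k (fun _ => 1) hk (ch1 z)

noncomputable def gd_childI (G : GD F Pt g a0 n0 a1 n1) (hn0 : 1 ≤ n0) (hn1 : 1 ≤ n1) (m : ℕ)
    (k : MP) (hk : MvPolynomial.aeval chartI g = MvPolynomial.X 1 ^ m * k) :
    GD F Pt k a0 n0 (a0 + a1 + m) (n0 + n1) :=
  G.childI hn0 hn1 m 0 k (fun _ => 1) hk chI1

noncomputable def gd_swap (G : GD F Pt g a0 n0 a1 n1) : GD F Pt (sw g) a1 n1 a0 n0 := by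
  have h := G.swap
  have e : (fun j : Option Empty => sw ((fun _ => 1 : Option Empty → MP) j)) =
      (fun _ => 1 : Option Empty → MP) := by
    funext j
    simp
  rw [e] at h
  exact h

open Polynomial in
/-- the equation on a critical exceptional curve -/
theorem sol_E (hF : F ≠ 0) (G : GD F Pt g a0 n0 a1 n1) (hn0 : 1 ≤ n0) (hn1 : 1 ≤ n1) (m : ℕ)
    (hm : 1 ≤ m) (g0 : MP) (hg0 : MvPolynomial.aeval (chart 0) g = MvPolynomial.X 0 ^ m * g0)
    (h0 : res0 g0 ≠ 0)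
    (hE : LEv Pt F (-((n0 + n1 : ℕ) : ℂ) / ((a0 + a1 + m : ℕ) : ℂ))) :
    ∃ (β : ℂ) (A : ℂ[X]), β ≠ 0 ∧ A ≠ 0 ∧
      (X ^ a1 * res0 g0) * derivative A
        + C (-((n0 + n1 : ℕ) : ℂ) / ((a0 + a1 + m : ℕ) : ℂ)) *
          derivative (X ^ a1 * res0 g0) * A
      = C β * X ^ (n1 - 1) * (X ^ a1 * res0 g0) := by
  obtain ⟨H, hH, hE'⟩ := hE.ff
  obtain ⟨P0, hP0, _, ⟨j, hj⟩, β, A, hβ, hA, hs⟩ := blow_sol (t := false) (FF_ne hF) hH le_rfl G
    hn0 hn1 m 0 (by omega) g0 (fun _ => 1) hg0 (ch1 0) h0 (by simp) hE'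
  have hP : P0 = 1 := by
    rw [← hj]
    simp
  subst hP
  refine ⟨β, A, hβ, hA, ?_⟩
  simpa using hs

/-- a multiple component -/
theorem curve_E (hF : F ≠ 0) (G : GD F Pt g a0 n0 0 1) (m : ℕ) (hm : 2 ≤ m)
    (q k : MP) (hg : g = q ^ m * k) (h0 : MvPolynomial.constantCoeff q = 0)
    (h1 : MvPolynomial.constantCoeff (MvPolynomial.pderiv 1 q) ≠ 0)
    (hk : MvPolynomial.constantCoeff k ≠ 0) : ¬ LEv Pt F (-1 / (m : ℂ)) := by
  intro hE
  obtain ⟨H, hH, hE'⟩ := hE.ff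
  exact curve_ne (FF_ne hF) hH G m 0 (by omega) (by simpa using hE') q k (fun _ => 1) hg
    (fun j => by simp) h0 h1 hk none (by simp)

end Child

end Pool.Agent.J4H50.NI
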