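import Pool.Agent.J4H50.NI.Alg5
import Pool.Agent.J4H50.NI.Base

set_option autoImplicit false
set_option linter.unusedSectionVars false
set_option linter.unusedTactic false

/-! # Germs with critical points of corank at most two -/

namespace Pool.Agent.J4H50.NI

open MvPolynomial
open Pool.Agent.W427.SMC (msZ bsZ mu)
open Pool.Agent.J4H50.IG (mI mem_m_iff X_mem lin qf hes hes_qf aeval_qf second_order hes_symm
  pow_le pderiv_mem aeval_mem nonDeg_lin inv_mod cc_aeval lin_cc NonDeg lin_comp lin_one)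
open Pool.Agent.N103.V (Ev)

attribute [local instance] msZ bsZ

variable {p : ℕ} [Fact p.Prime]

section HB

variable (emb : ℚ_[p] →+* ℂ)

theorem HB_jets {V : Type} [Fintype V] [DecidableEq V] {F G : MvPolynomial V ℚ_[p]} (hF : F ≠ 0)
    (hJ : ∀ n, CEq F G n) {B : Set ℝ} (h : HB emb F B) : HB emb G B := by
  intro r hr hr0
  refine LEv_jet (r : ℂ) ?_ (h r hr hr0) fun n => (hJ n).map emb
  intro h0
  exact hF (map_injective emb emb.injective (h0.trans (map_zero _).symm))

theorem HB_rename {V W : Type} {F : MvPolynomial V ℚ_[p]} {B : Set ℝ} (h : HB emb F B)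
    (e : V ≃ W) : HB emb (rename e F) B := by
  intro r hr hr0
  rw [map_rename]
  exact LEv_equiv e (h r hr hr0)

theorem CEq_unit {V : Type} [Fintype V] [DecidableEq V] (u G : MvPolynomial V ℚ_[p])
    (hu : constantCoeff u ≠ 0) (n : ℕ) : CEq (u * G) G n := by
  obtain ⟨v, hv⟩ := inv_mod u (IsUnit.mk0 _ hu) (n + 1)
  have hvc : constantCoeff v * constantCoeff u = 1 := by
    have h1 := pow_le (σ := V) (A := ℚ_[p]) (show 1 ≤ n + 1 by omega) hv
    rw [pow_one, mem_m_iff, map_sub, map_mul, map_one, sub_eq_zero] at h1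
    exact h1
  refine ⟨lin 1, v, nonDeg_lin 1 (by rw [Matrix.det_one]; exact isUnit_one),
    IsUnit.mk0 _ (left_ne_zero_of_mul (hvc.trans_ne one_ne_zero)), ?_⟩
  have e1 : (lin 1 : V → MvPolynomial V ℚ_[p]) = X := funext fun j => lin_one j
  rw [e1, aeval_X_left, AlgHom.id_apply]
  have e : v * (u * G) - G = (v * u - 1) * G := by ring
  rw [e]
  exact Ideal.mul_mem_right _ _ (pow_le (by omega) hv)

theorem CEq_lin {V : Type} [Fintype V] [DecidableEq V] (G : MvPolynomial V ℚ_[p])
    (L : Matrix V V ℚ_[p]) (hL : L.det ≠ 0) (n : ℕ) : CEq G (aeval (lin L) G) n := by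
  refine ⟨lin L, 1, nonDeg_lin L (IsUnit.mk0 _ hL), ?_, ?_⟩
  · rw [map_one]
    exact isUnit_one
  · rw [one_mul, sub_self]
    exact Ideal.zero_mem _

variable {σ : Type} [Fintype σ] [DecidableEq σ]

theorem HB_disc (c : ℚ_[p]) (hc : c ≠ 0) (D : MvPolynomial σ ℚ_[p]) {B : Set ℝ}
    (h : HB emb (C c * X none ^ 2 + rename some D) B) : HB emb D {r | r - 1 / 2 ∈ B} := by
  intro r hr hr0
  have hec : emb c ≠ 0 := fun h => hc ((map_eq_zero emb).1 h)
  have h1 := h (r - 1 / 2) hr (by linarith)
  rw [map_add, map_mul, map_C, map_pow, map_X, map_rename] at h1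
  have h2 := LEv_susp hec (fun n hn => ?_) h1
  · have e : ((r - 1 / 2 : ℝ) : ℂ) + 1 / 2 = (r : ℂ) := by
      push_cast
      ring
    rw [e] at h2
    exact h2
  · have h3 : (r - 1 / 2 : ℝ) = (n : ℝ) := by exact_mod_cast hn
    have h4 : (0 : ℝ) ≤ n := Nat.cast_nonneg n
    linarith

theorem HB_zero (c : ℚ_[p]) (hc : c ≠ 0) {B : Set ℝ}
    (h : HB emb (C c * X none ^ 2 + rename some (0 : MvPolynomial σ ℚ_[p])) B) :
    (-1 / 2 : ℝ) ∈ B := by
  by_contra hn
  have hec : emb c ≠ 0 := fun h => hc ((map_eq_zero emb).1 h)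
  have h1 := h (-1 / 2) hn (by norm_num)
  rw [map_zero, add_zero, map_mul, map_C, map_pow, map_X] at h1
  refine not_LEv_sq (none : Option σ) (emb c) hec ?_
  have e : ((-1 / 2 : ℝ) : ℂ) = -1 / 2 := by push_cast; rfl
  rw [e] at h1
  exact h1

end HB

/-- **Splitting off a square from a germ.** -/
theorem germ_opt (emb : ℚ_[p] →+* ℂ) {σ : Type} [Fintype σ] [DecidableEq σ]
    (F : MvPolynomial (Option σ) ℚ_[p]) (hF : F ≠ 0) (hFm : F ∈ mI (Option σ) ℚ_[p] ^ 2)
    (hSF : hes F ≠ 0) (B : Set ℝ) (hB : HB emb F B)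
    (ih : ∀ D : MvPolynomial σ ℚ_[p], D ≠ 0 → D ∈ mI σ ℚ_[p] ^ 2 →
      (hes F).rank ≤ (hes D).rank + 1 → ∀ B : Set ℝ, HB emb D B → TD D B) : TD F B := by
  -- the unit
  obtain ⟨u, G, huG, hu, hG0, hall⟩ := unit_split F hF
  have hGm : G ∈ mI (Option σ) ℚ_[p] ^ 2 := mem_of_unit u G hu 2 (by rwa [← huG])
  have hh : hes F = constantCoeff u • hes G := by
    rw [huG, hes_unit u G hGm]
  have hrG : (hes F).rank = (hes G).rank := by
    rw [hh]
    exact Matrix.rank_smul_of_mem_nonZeroDivisors _ (mem_nonZeroDivisors_of_ne_zero hu)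
  have hSG : hes G ≠ 0 := by
    intro h0
    apply hSF
    rw [hh, h0, smul_zero]
  have hBG : HB emb G B := HB_jets emb hF (fun k => by
    rw [huG]
    exact CEq_unit u G hu k) hB
  suffices h : TD G B by
    rw [huG]
    exact h.unit u hu
  -- the coordinates
  obtain ⟨a, ha, A, Bb, D, hA, hD⟩ := data G hGm hSG hall
  have hSs : ((2 : ℚ_[p])⁻¹ • hes G).IsSymm := (hes_symm G).smul _
  have hrS : ((2 : ℚ_[p])⁻¹ • hes G).rank = (hes G).rank :=
    Matrix.rank_smul_of_mem_nonZeroDivisors _
      (mem_nonZeroDivisors_of_ne_zero (inv_ne_zero two_ne_zero))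
  have hq := quad_part two_ne_zero G hGm a ha
  generalize (2 : ℚ_[p])⁻¹ • hes G = S at *
  have hLd : (Lm S a).det ≠ 0 := Lm_det S a
  have ha' : dotProduct (va a) (S.mulVec (va a)) ≠ 0 := by
    rw [← eval_Q0]
    exact ha
  have hbl := Lm_block S hSs a ha'
  generalize Lm S a = L at *
  generalize eval a (Q0 S) = c at *
  have hBG' : HB emb (aeval (lin L) G) B := HB_jets emb hG0 (fun k => CEq_lin G L hLd k) hBG
  have hLL : aeval (lin L⁻¹) (aeval (lin L) G) = G := by
    have h2 : (fun i => aeval (lin L⁻¹) (lin L i)) =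
        (X : Option σ → MvPolynomial (Option σ) ℚ_[p]) := by
      funext i
      rw [lin_comp, Matrix.nonsing_inv_mul _ (IsUnit.mk0 _ hLd), lin_one]
    rw [IG.aeval_aeval, h2, aeval_X_left, AlgHom.id_apply]
  have hG'0 : aeval (lin L) G ≠ 0 := by
    intro h0
    rw [h0, map_zero] at hLL
    exact hG0 hLL.symm
  suffices h : TD (aeval (lin L) G) B by
    have h1 := h.lin L⁻¹ (by
      rw [Matrix.det_nonsing_inv]
      exact (IsUnit.mk0 _ hLd).ringInverse)
    rw [hLL] at h1
    exact h1
  generalize hG' : aeval (lin L) G = G' at *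
  have hTs : (L * S * L.transpose).IsSymm := by
    unfold Matrix.IsSymm
    rw [Matrix.transpose_mul, Matrix.transpose_mul, Matrix.transpose_transpose, hSs.eq,
      Matrix.mul_assoc]
  have hTr : (L * S * L.transpose).rank = S.rank := by
    rw [Matrix.rank_mul_eq_left_of_isUnit_det _ _ (by
      rw [Matrix.det_transpose]
      exact IsUnit.mk0 _ hLd), Matrix.rank_mul_eq_right_of_isUnit_det _ _ (IsUnit.mk0 _ hLd)]
  have hTb := rank_block (L * S * L.transpose) (fun i => (hbl i).1) (fun i => (hbl i).2)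
  generalize L * S * L.transpose = T at *
  -- the jets
  have hBD : HB emb (C c * X none ^ 2 + rename some D) B :=
    HB_jets emb hG'0 (fun k => jet_disc two_ne_zero c ha G' _ hq A Bb D hA hD k) hBG'
  have hDq := D_quad c (mul_ne_zero two_ne_zero ha) G' _ (qf_mem _) hq A Bb hA D hD
  refine step c ha G' _ hq A Bb hA D hD B {r | r - 1 / 2 ∈ B} (fun r hr => hr)
    (fun h0 => ?_) (fun hD0 => ?_)
  · rw [h0] at hBD
    exact HB_zero emb _ ha hBD
  · refine ih D hD0 ?_ ?_ _ (HB_disc emb _ ha D hBD)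
    · have e1 : D = (D - qf (blk T)) + qf (blk T) := by
        ring
      rw [e1]
      exact add_mem (pow_le (by norm_num) hDq) (qf_mem _)
    · -- the rank
      have h1 : hes D = (2 : ℚ_[p]) • blk T := by
        rw [hes_congr hDq]
        ext i j
        rw [hes_qf, Matrix.smul_apply, smul_eq_mul, two_mul]
        congr 1
        exact hTs.apply (some i) (some j)
      rw [h1, Matrix.rank_smul_of_mem_nonZeroDivisors _
          (mem_nonZeroDivisors_of_ne_zero two_ne_zero), hrG, ← hrS, ← hTr]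
      exact hTb

/-- **Germs with critical points of corank at most two.** -/
theorem germ_TD (emb : ℚ_[p] →+* ℂ) (n : ℕ) : ∀ (V : Type) [Fintype V] [DecidableEq V],
    Fintype.card V = n + 2 → ∀ F : MvPolynomial V ℚ_[p], F ≠ 0 → F ∈ mI V ℚ_[p] ^ 2 →
    Fintype.card V ≤ (hes F).rank + 2 → ∀ B : Set ℝ, HB emb F B → TD F B := by
  induction n with
  | zero =>
    intro V _ _ hV F hF _ _ B hB
    have e : V ≃ Fin 2 := Fintype.equivFinOfCardEq hV
    have hF' : rename e F ≠ 0 := by
      rw [Ne, map_eq_zero_iff _ (rename_injective _ e.injective)]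
      exact hF
    have h1 := (base emb (rename e F) hF' B (HB_rename emb hB e)).rename e.symm
    rw [rename_rename, Equiv.symm_comp_self, rename_id_apply] at h1
    exact h1
  | succ n ih =>
    intro V _ _ hV F hF hFm hr B hB
    have e : V ≃ Option (Fin (n + 2)) := Fintype.equivOfCardEq (by
      rw [hV, Fintype.card_option, Fintype.card_fin])
    have hrank : (hes (rename e F)).rank = (hes F).rank := by
      rw [hes_rename, Matrix.rank_submatrix]
    have h := germ_opt emb (rename e F) (by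
      rw [Ne, map_eq_zero_iff _ (rename_injective _ e.injective)]
      exact hF) (rename_mem e 2 hFm) (by
      intro h0
      rw [h0, Matrix.rank_zero] at hrank
      omega) B (HB_rename emb hB e) (fun D hD0 hDm hDr B' hB' =>
        ih (Fin (n + 2)) (Fintype.card_fin _) D hD0 hDm (by
          rw [Fintype.card_fin]
          omega) B' hB')
    have h1 := h.rename e.symm
    rw [rename_rename, Equiv.symm_comp_self, rename_id_apply] at h1
    exact h1

end Pool.Agent.J4H50.NI
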