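import Pool.Agent.J4H50.NI.Step2

set_option autoImplicit false
set_option linter.unusedSectionVars false
set_option linter.unusedTactic false

/-! # The property `TD` under coordinate changes and multiplication by units -/

namespace Pool.Agent.J4H50.NI

open MeasureTheory MvPolynomial
open Pool.Agent.W427.SMC (msZ bsZ mu)
open Pool.Agent.Y230.PS (EP N0 N0_EP mem_N0)
open Pool.Agent.N138.SU Pool.Agent.N138.SV
open Pool.Agent.N316.SU (ppos plt norm_le_iff)
open Pool.Agent.N138.RF (IsM)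
open Pool.Agent.J4H50.IG (hm pi_unique mI scl scl_lift pderiv_scl eval_scl cz cz_inj lip
  exists_pow_mul_le mem_m_iff X_mem norm_p_pow_le eval_cz isom_onto mat_lift vm vm_cont vm_fin
  eval_lin lin lattice eval_aeval)
open Pool.Agent.Y230.PT (rr inc)

attribute [local instance] msZ bsZ

variable {p : ℕ} [Fact p.Prime] {V : Type} [Fintype V]

theorem hinc (x : ℤ_[p]) : inc p x = cz p x := rfl

theorem TD.mono {G : MvPolynomial V ℚ_[p]} {B B' : Set ℝ} (h : TD G B) (hB : B ⊆ B') : TD G B' := by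
  intro N hN
  obtain ⟨k0, hk0⟩ := h N hN
  exact ⟨k0, fun k hk a ha c hc φ hφ χ =>
    Pool.Agent.Y230.TH.EP_mono (fun T _ => mS_mono hB T) (hk0 k hk a ha c hc φ hφ χ)⟩

theorem TD.const {G : MvPolynomial V ℚ_[p]} {B : Set ℝ} (h : TD G B) (c' : ℚ_[p]) (hc' : c' ≠ 0) :
    TD (C c' * G) B := by
  intro N hN
  obtain ⟨k0, hk0⟩ := h N hN
  refine ⟨k0, fun k hk a ha c hc φ hφ χ =>
    hk0 k hk a ha (c * c') (mul_ne_zero hc hc') φ (fun y => ?_) χ⟩
  rw [hφ y, map_mul, eval_C, mul_assoc]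

/-- the averages of sums -/
theorem av_sum_mem {ι : Type} (S : Finset ι) (c0 : ℂ) (E : ℕ → ℤ_[p] → ℂ)
    (E' : ι → ℕ → ℤ_[p] → ℂ) (hE : ∀ e u, E e u = ∑ x ∈ S, c0 * E' x e u)
    (hm' : ∀ x e, Measurable (E' x e)) (hb : ∀ x e u, ‖E' x e u‖ ≤ 1) (N : ℕ) (χ : UC p)
    (m : ℂ → ℕ∞) (h : ∀ x ∈ S, (fun e => hat (av N (E' x)) χ e) ∈ EP m) :
    (fun e => hat (av N E) χ e) ∈ EP m := by
  have h1 : av N E = fun e u => ∑ x ∈ S, c0 * av N (E' x) e u := by
    funext e u
    unfold av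
    simp only [hE]
    rw [integral_finsetSum]
    · exact Finset.sum_congr rfl fun x _ => integral_const_mul _ _
    · intro x _
      refine Integrable.const_mul ?_ _
      refine Integrable.of_bound ((hm' x e).comp (continuous_const.mul
        (vt_cont N)).measurable).aestronglyMeasurable 1 (Filter.Eventually.of_forall fun z => ?_)
      exact hb x e _
  rw [h1]
  have h2 : (fun e => hat (fun e u => ∑ x ∈ S, c0 * av N (E' x) e u) χ e) =
      ∑ x ∈ S, c0 • fun e => hat (av N (E' x)) χ e := by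
    funext e
    rw [hat_sum S (fun _ => c0) (fun x => av N (E' x)) e (fun x _ => av_meas _ (hm' x) e)
      (fun x _ u => av_norm _ (hb x) e u) χ, Finset.sum_apply]
    rfl
  rw [h2]
  exact Submodule.sum_mem _ fun x hx => Submodule.smul_mem _ _ (h x hx)

/-- **Linear coordinate changes.** -/
theorem TD.lin [DecidableEq V] {G : MvPolynomial V ℚ_[p]} {B : Set ℝ} (h : TD G B)
    (L : Matrix V V ℚ_[p]) (hL : IsUnit L.det) : TD (aeval (IG.lin L) G) B := by
  intro N hN
  obtain ⟨k0', hk0'⟩ := h N hN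
  obtain ⟨κ1, L1, hL1⟩ := mat_lift L
  obtain ⟨κ2, N1, hN1⟩ := mat_lift L⁻¹
  have hLL : L⁻¹ * L = 1 := Matrix.nonsing_inv_mul _ hL
  have hLL' : L * L⁻¹ = 1 := Matrix.mul_nonsing_inv _ hL
  have hprod : L1 * N1 = ((p : ℤ_[p]) ^ (κ1 + κ2)) • (1 : Matrix V V ℤ_[p]) := by
    ext i j
    apply cz_inj
    have h1 := congrFun (congrFun hLL' i) j
    rw [Matrix.mul_apply] at h1
    rw [Matrix.mul_apply, map_sum, Matrix.smul_apply, smul_eq_mul, map_mul, map_pow, map_natCast]
    have h2 : ∀ k, cz p (L1 i k * N1 k j) = (p : ℚ_[p]) ^ (κ1 + κ2) * (L i k * L⁻¹ k j) := by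
      intro k
      rw [map_mul, hL1, hN1, pow_add]
      ring
    simp only [h2]
    rw [← Finset.mul_sum, h1]
    congr 1
    by_cases hij : i = j
    · subst hij
      simp
    · rw [Matrix.one_apply_ne hij, Matrix.one_apply_ne hij, map_zero]
  refine ⟨k0' + κ1, fun k hk a ha c hc φ hφ χ => ?_⟩
  obtain ⟨S, c0, hS⟩ := lattice (vm N1) (vm_cont N1) (vm_fin N1 L1 (κ1 + κ2) hprod)
  have ha1 : ∀ i, (p : ℤ_[p]) ^ (k0' + κ1) ∣ a i := fun i => (norm_le_iff _ _).1 (ha i)
  choose a1 ha1 using ha1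
  -- the centres
  set b : (V → ℤ_[p]) → (V → ℤ_[p]) := fun x i => (p : ℤ_[p]) ^ k0' * vm L1 a1 i +
    (p : ℤ_[p]) ^ (k - κ1) * vm L1 x i with hb
  have hvL1 : ∀ (x : V → ℤ_[p]) (j : V), cz p (vm L1 x j) =
      (p : ℚ_[p]) ^ κ1 * ∑ i, cz p (x i) * L i j := by
    intro x j
    have e6 : vm L1 x j = ∑ i, x i * L1 i j := rfl
    rw [e6, map_sum, Finset.mul_sum]
    refine Finset.sum_congr rfl fun i _ => ?_
    rw [map_mul, hL1]
    ring
  have key : ∀ x y : V → ℤ_[p], inc p (φ (x + vm N1 y)) =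
      c * eval (fun i => inc p (b x i + (p : ℤ_[p]) ^ (k + κ2) * y i)) G := by
    intro x y
    rw [hφ, eval_aeval]
    congr 3
    funext j
    rw [eval_lin]
    unfold Matrix.vecMul dotProduct
    have e3 : ∀ i, vm N1 y i = ∑ l, y l * N1 l i := fun i => rfl
    have e2 : ∀ i, inc p (a i + (p : ℤ_[p]) ^ k * (x + vm N1 y) i) * L i j =
        (p : ℚ_[p]) ^ (k0' + κ1) * (cz p (a1 i) * L i j) +
        (p : ℚ_[p]) ^ k * (cz p (x i) * L i j) +
          (p : ℚ_[p]) ^ k * ∑ l, cz p (y l) * ((p : ℚ_[p]) ^ κ2 * (L⁻¹ l i * L i j)) := by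
      intro i
      have e4 : inc p (a i + (p : ℤ_[p]) ^ k * (x + vm N1 y) i) =
          (p : ℚ_[p]) ^ (k0' + κ1) * cz p (a1 i) + (p : ℚ_[p]) ^ k * (cz p (x i) +
            ∑ l, cz p (y l) * ((p : ℚ_[p]) ^ κ2 * L⁻¹ l i)) := by
        rw [hinc, Pi.add_apply, e3, ha1 i, map_add, map_mul, map_mul, map_pow, map_pow, map_natCast,
          map_add, map_sum]
        congr 3
        exact Finset.sum_congr rfl fun l _ => by rw [map_mul, hN1]
      rw [e4, add_mul, mul_add ((p : ℚ_[p]) ^ k), add_mul, Finset.mul_sum, Finset.mul_sum,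
        Finset.sum_mul, mul_assoc, mul_assoc, ← add_assoc]
      congr 1
      exact Finset.sum_congr rfl fun l _ => by ring
    simp only [e2]
    rw [Finset.sum_add_distrib, Finset.sum_add_distrib, ← Finset.mul_sum, ← Finset.mul_sum,
      ← Finset.mul_sum, Finset.sum_comm (s := Finset.univ) (t := Finset.univ)]
    have e4 : ∀ l, ∑ i, cz p (y l) * ((p : ℚ_[p]) ^ κ2 * (L⁻¹ l i * L i j)) =
        if l = j then cz p (y l) * (p : ℚ_[p]) ^ κ2 else 0 := by
      intro l
      have h1 := congrFun (congrFun hLL l) j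
      rw [Matrix.mul_apply] at h1
      rw [← Finset.mul_sum, ← Finset.mul_sum, h1]
      by_cases hlj : l = j
      · subst hlj
        rw [if_pos rfl, Matrix.one_apply_eq, mul_one]
      · rw [if_neg hlj, Matrix.one_apply_ne hlj, mul_zero, mul_zero]
    simp only [e4, Finset.sum_ite_eq', Finset.mem_univ, if_true]
    have e8 : inc p (b x j + (p : ℤ_[p]) ^ (k + κ2) * y j) =
        (p : ℚ_[p]) ^ k0' * cz p (vm L1 a1 j) + (p : ℚ_[p]) ^ (k - κ1) * cz p (vm L1 x j) +
          (p : ℚ_[p]) ^ (k + κ2) * cz p (y j) := by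
      rw [hinc, hb]
      beta_reduce
      rw [map_add, map_add, map_mul, map_mul, map_mul, map_pow, map_pow, map_pow, map_natCast]
    have p1 : (p : ℚ_[p]) ^ k = (p : ℚ_[p]) ^ (k - κ1) * (p : ℚ_[p]) ^ κ1 := by
      rw [← pow_add, Nat.sub_add_cancel (by omega)]
    rw [e8, hvL1, hvL1, pow_add (p : ℚ_[p]) k κ2, pow_add (p : ℚ_[p]) k0' κ1, p1]
    ring
  have hnorm : ∀ x i, ‖b x i‖ ≤ ((p : ℝ)⁻¹) ^ k0' := by
    intro x i
    rw [hb]
    refine (norm_le_iff _ _).2 ?_
    refine dvd_add (dvd_mul_right _ _) (Dvd.dvd.mul_right (pow_dvd_pow _ (by omega)) _)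
  have hφm := ball_meas _ k a c φ hφ
  have hvm : ∀ x : V → ℤ_[p], Measurable fun y => x + vm N1 y := fun x =>
    (continuous_const.add (vm_cont N1)).measurable
  refine av_sum_mem S c0 (Es (hm p V) φ) (fun x => Es (hm p V) fun y => φ (x + vm N1 y)) ?_
    (fun x => Es_meas (hm p V) _ (hφm.comp (hvm x))) (fun x => Es_norm (hm p V) _) N χ _
    (fun x _ => hk0' (k + κ2) (by omega) (b x) (hnorm x) c hc _ (key x) χ)
  intro e u
  unfold Es
  exact hS (fun w => psi p e (u * φ w))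
    ((Pool.Agent.N138.SU.B3.psi_meas e).comp (measurable_const.mul hφm))
    ⟨1, fun z => (Pool.Agent.N138.SU.B3.psi_norm e _).le⟩

/-- a unit in small coordinates -/
theorem scaleU (A : MvPolynomial V ℚ_[p]) (hA : constantCoeff A = 1) (L : ℕ) :
    ∃ (k1 : ℕ) (A1 : MvPolynomial V ℤ_[p]),
      scl ((p : ℚ_[p]) ^ k1) A = 1 + C ((p : ℚ_[p]) ^ L) * map (cz p) A1 := by
  have hA1 : A - 1 ∈ mI V ℚ_[p] ^ (0 + 1) := by
    rw [zero_add, pow_one, mem_m_iff, map_sub, hA, map_one, sub_self]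
  obtain ⟨s2, hs2⟩ := scl_lift (p := p) 0 (A - 1) hA1
  obtain ⟨η2, hη2⟩ := hs2 (s2 + L) (by omega)
  refine ⟨s2 + L, η2, ?_⟩
  have e0 : A = 1 + (A - 1) := by ring
  have hsc : ∀ x y : MvPolynomial V ℚ_[p], scl ((p : ℚ_[p]) ^ (s2 + L)) (x + y) =
      scl ((p : ℚ_[p]) ^ (s2 + L)) x + scl ((p : ℚ_[p]) ^ (s2 + L)) y := fun x y => by
    unfold scl; rw [map_add]
  have hs1 : scl ((p : ℚ_[p]) ^ (s2 + L)) (1 : MvPolynomial V ℚ_[p]) = 1 := by
    unfold scl; rw [map_one]
  conv_lhs => rw [e0]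
  rw [hsc, hs1, hη2, zero_mul, pow_zero, one_mul, Nat.add_sub_cancel_left]

/-- the average does not see the units -/
theorem av_unit {Y : Type} [MeasurableSpace Y] (ν : Measure Y) [IsProbabilityMeasure ν]
    (φ φ' : Y → ℤ_[p]) (hφ : Measurable φ) (hφ' : Measurable φ') {N : ℕ} (hN : 1 ≤ N)
    (h : ∀ y, ∃ ε : ℤ_[p], φ y = (1 + (p : ℤ_[p]) ^ N * ε) * φ' y) :
    av N (Es ν φ) = av N (Es ν φ') := by
  funext e u
  have hpsi : Measurable fun z : ℤ_[p] => psi p e (u * z) :=
    (Pool.Agent.N138.SU.B3.psi_meas e).comp (continuous_const.mul continuous_id).measurable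
  have hpb : ∀ z : ℤ_[p], ‖psi p e z‖ ≤ 1 := fun z => (Pool.Agent.N138.SU.B3.psi_norm e z).le
  have hi : ∀ φ : Y → ℤ_[p], Measurable φ → Integrable (fun q : ℤ_[p] × Y =>
      psi p e (u * (vt N q.1 * φ q.2))) ((mu p).prod ν) := by
    intro φ hφ
    refine Integrable.of_bound (hpsi.comp (((vt_cont N).measurable.comp measurable_fst).mul
      (hφ.comp measurable_snd))).aestronglyMeasurable 1 (Filter.Eventually.of_forall fun q => ?_)
    exact hpb _
  have h1 : ∀ φ : Y → ℤ_[p], Measurable φ → av N (Es ν φ) e u =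
      ∫ y, ∫ t, psi p e (u * (vt N t * φ y)) ∂(mu p) ∂ν := by
    intro φ hφ
    rw [← integral_integral_swap (hi φ hφ)]
    unfold av Es
    refine integral_congr_ae (Filter.Eventually.of_forall fun t => ?_)
    refine integral_congr_ae (Filter.Eventually.of_forall fun y => ?_)
    beta_reduce
    rw [mul_assoc]
  rw [h1 φ hφ, h1 φ' hφ']
  refine integral_congr_ae (Filter.Eventually.of_forall fun y => ?_)
  beta_reduce
  obtain ⟨ε, hε⟩ := h y
  have h2 := av_subst hN (1 + (p : ℤ_[p]) ^ N * ε) (vt_near N ε) (fun z => psi p e (u * (z * φ' y)))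
    (hpsi.comp (continuous_id.mul continuous_const).measurable)
  rw [← h2]
  refine integral_congr_ae (Filter.Eventually.of_forall fun t => ?_)
  beta_reduce
  rw [hε]
  congr 1
  ring

/-- **Multiplication by units.** -/
theorem TD.unit {G : MvPolynomial V ℚ_[p]} {B : Set ℝ} (h : TD G B) (u : MvPolynomial V ℚ_[p])
    (hu : constantCoeff u ≠ 0) : TD (u * G) B := by
  intro N hN
  obtain ⟨k2, hk2⟩ := h N hN
  set A : MvPolynomial V ℚ_[p] := C (constantCoeff u)⁻¹ * u with hA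
  have hA1 : constantCoeff A = 1 := by
    rw [hA, map_mul, constantCoeff_C, inv_mul_cancel₀ hu]
  have huA : u = C (constantCoeff u) * A := by
    rw [hA, ← mul_assoc, ← map_mul, mul_inv_cancel₀ hu, map_one, one_mul]
  obtain ⟨k1, A1, hsA⟩ := scaleU A hA1 N
  refine ⟨k1 + k2, fun k hk a ha c hc φ hφ χ => ?_⟩
  obtain ⟨j, rfl⟩ : ∃ j, k = k1 + j := ⟨k - k1, by omega⟩
  have ha1 : ∀ i, (p : ℤ_[p]) ^ k1 ∣ a i := fun i => (norm_le_iff _ _).1 ((ha i).trans
    (pow_le_pow_of_le_one ppos.le plt.le (by omega)))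
  choose a' ha' using ha1
  set pt : (V → ℤ_[p]) → V → ℤ_[p] := fun y i => a' i + (p : ℤ_[p]) ^ j * y i with hpt
  have hpe : ∀ y i, a i + (p : ℤ_[p]) ^ (k1 + j) * y i = (p : ℤ_[p]) ^ k1 * pt y i := by
    intro y i
    rw [hpt, ha' i, pow_add]
    ring
  have hAe : ∀ y, eval (fun i => inc p (a i + (p : ℤ_[p]) ^ (k1 + j) * y i)) A =
      cz p (1 + (p : ℤ_[p]) ^ N * eval (pt y) A1) := by
    intro y
    have hev : eval (fun i => inc p (a i + (p : ℤ_[p]) ^ (k1 + j) * y i)) A =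
        eval (fun i => cz p (pt y i)) (scl ((p : ℚ_[p]) ^ k1) A) := by
      rw [eval_scl]
      congr 2
      funext i
      rw [hpe, hinc, map_mul, map_pow, map_natCast]
    rw [hev, hsA, map_add, map_one, map_mul, eval_C, ← eval_cz, map_add, map_one, map_mul, map_pow,
      map_natCast]
  have hun : ∀ y, ∃ s : ℤ_[p], (1 + (p : ℤ_[p]) ^ N * eval (pt y) A1) * s = 1 := by
    intro y
    have h1 : ‖(1 + (p : ℤ_[p]) ^ N * eval (pt y) A1)‖ = 1 := vt_norm (by omega : 1 ≤ N) _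
    obtain ⟨s, hs⟩ := PadicInt.isUnit_iff.2 h1
    exact ⟨((s⁻¹ : ℤ_[p]ˣ) : ℤ_[p]), by rw [← hs, Units.mul_inv]⟩
  choose s hs using hun
  have hφ' : ∀ y, inc p (s y * φ y) = (c * constantCoeff u) *
      eval (fun i => inc p (a i + (p : ℤ_[p]) ^ (k1 + j) * y i)) G := by
    intro y
    have e1 : cz p (φ y) = c * eval (fun i => inc p (a i + (p : ℤ_[p]) ^ (k1 + j) * y i)) (u * G) :=
      hφ y
    have e2 := congrArg (cz p) (hs y)
    rw [map_mul, map_one] at e2
    rw [hinc, map_mul, e1, map_mul]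
    conv_lhs => rw [huA]
    rw [map_mul (eval _) (C _), eval_C, hAe]
    linear_combination (c * constantCoeff u * eval (fun i => inc p (a i +
      (p : ℤ_[p]) ^ (k1 + j) * y i)) G) * e2
  have hφm := ball_meas _ _ a c φ hφ
  have hφm' := ball_meas _ _ a _ _ hφ'
  rw [av_unit (hm p V) φ (fun y => s y * φ y) hφm hφm' (by omega : 1 ≤ N) fun y =>
    ⟨eval (pt y) A1, by rw [← mul_assoc, hs, one_mul]⟩]
  exact hk2 (k1 + j) (by omega) a (fun i => (ha i).trans
    (pow_le_pow_of_le_one ppos.le plt.le (by omega))) _ (mul_ne_zero hc hu) _ hφ' χ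

/-- **Renaming.** -/
theorem TD.rename {W : Type} [Fintype W] {G : MvPolynomial V ℚ_[p]} {B : Set ℝ} (h : TD G B)
    (e : V ≃ W) : TD (MvPolynomial.rename e G) B := by
  intro N hN
  obtain ⟨k0, hk0⟩ := h N hN
  refine ⟨k0, fun k hk a ha c hc φ hφ χ => ?_⟩
  have hφm := ball_meas _ k a c φ hφ
  have hJ : Measurable fun x : V → ℤ_[p] => (fun i : W => x (e.symm i)) :=
    measurable_pi_lambda _ fun i => measurable_pi_apply _
  have hmap : (hm p V).map (fun x : V → ℤ_[p] => (fun i : W => x (e.symm i))) = hm p W := by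
    have i1 : IsProbabilityMeasure ((hm p V).map (fun x : V → ℤ_[p] =>
        (fun i : W => x (e.symm i)))) := Measure.isProbabilityMeasure_map hJ.aemeasurable
    have i2 : ((hm p V).map (fun x : V → ℤ_[p] =>
        (fun i : W => x (e.symm i)))).IsAddLeftInvariant := by
      refine ⟨fun v => ?_⟩
      rw [Measure.map_map (measurable_const_add v) hJ]
      have e1 : (fun y : W → ℤ_[p] => v + y) ∘ (fun x : V → ℤ_[p] =>
          (fun i : W => x (e.symm i))) = (fun x : V → ℤ_[p] =>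
          (fun i : W => x (e.symm i))) ∘ (fun z => (fun i => v (e i)) + z) := by
        funext z o
        simp
      rw [e1, ← Measure.map_map hJ (measurable_const_add _)]
      congr 1
      exact map_add_left_eq_self (hm p V) _
    first
      | exact (pi_unique _).symm
      | exact pi_unique _
  have h1 := hk0 k hk (fun i => a (e i)) (fun i => ha _) c hc
    (fun x => φ (fun i : W => x (e.symm i))) (fun y => by
      rw [hφ, eval_rename]
      congr 3
      funext i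
      simp) χ
  have h2 : Es (hm p W) φ = Es (hm p V) (fun x => φ (fun i : W => x (e.symm i))) := by
    funext d u
    have hq : Measurable fun y : W → ℤ_[p] => psi p d (u * φ y) :=
      (Pool.Agent.N138.SU.B3.psi_meas d).comp (measurable_const.mul hφm)
    unfold Es
    rw [← hmap, integral_map hJ.aemeasurable hq.aestronglyMeasurable]
  rw [h2]
  exact h1

end Pool.Agent.J4H50.NI
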