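import Pool.Agent.J4H50.NI.K

set_option autoImplicit false
set_option linter.unusedSectionVars false
set_option linter.unusedVariables false

/-! # Jets of critical points with a rational discriminant -/

namespace Pool.Agent.J4H50.NI

open MvPolynomial Pool.Agent.J4H50.IG

section Sqrt

variable {σ K : Type} [Field K]

/-- jets of inverse square roots -/
theorem sqrt_jet (h2 : (2 : K) ≠ 0) (a : MvPolynomial σ K) (ha : constantCoeff a = 1) (n : ℕ) :
    ∃ t : MvPolynomial σ K, constantCoeff t = 1 ∧ t ^ 2 * a - 1 ∈ mI σ K ^ (n + 1) := by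
  induction n with
  | zero =>
    refine ⟨1, map_one _, ?_⟩
    rw [one_pow, one_mul, zero_add, pow_one, mem_m_iff, map_sub, ha, map_one, sub_self]
  | succ n ih =>
    obtain ⟨t, ht, h1⟩ := ih
    set ε := t ^ 2 * a - 1 with hε
    have hεm : constantCoeff ε = 0 := by
      rw [hε, map_sub, map_mul, map_pow, ht, ha, one_pow, one_mul, map_one, sub_self]
    refine ⟨t * (1 - C (2⁻¹) * ε), ?_, ?_⟩
    · rw [map_mul, map_sub, map_mul, ht, hεm, map_one, mul_zero, sub_zero, mul_one]
    · have e2 : (C (2⁻¹) : MvPolynomial σ K) * 2 = 1 := by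
        have e2 : (2 : MvPolynomial σ K) = C 2 := (map_ofNat C 2).symm
        rw [e2, ← map_mul, inv_mul_cancel₀ h2, map_one]
      have e : (t * (1 - C (2⁻¹) * ε)) ^ 2 * a - 1 =
          ε ^ 2 * (- 1 + C (2⁻¹) ^ 2 * (1 + ε)) := by
        have e3 : t ^ 2 * a = 1 + ε := by rw [hε]; ring
        have e4 : (t * (1 - C (2⁻¹) * ε)) ^ 2 * a = (1 - C (2⁻¹) * ε) ^ 2 * (t ^ 2 * a) := by ring
        rw [e4, e3]
        linear_combination (-ε - ε ^ 2) * e2
      rw [e]
      refine Ideal.mul_mem_right _ _ ?_
      have h3 := Ideal.pow_mem_pow h1 2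
      rw [← pow_mul] at h3
      exact pow_le (by omega) h3

end Sqrt

section Split

variable {σ K : Type} [Fintype σ] [DecidableEq σ] [Field K]

/-- the substitution `z ↦ z + H` -/
noncomputable def zs (H : MvPolynomial (Option σ) K) (i : Option σ) : MvPolynomial (Option σ) K :=
  X i + (if i = none then H else 0)

theorem zs_none (H : MvPolynomial (Option σ) K) : zs H none = X none + H := by
  unfold zs
  rw [if_pos rfl]

theorem zs_some (H : MvPolynomial (Option σ) K) (i : σ) : zs H (some i) = X (some i) := by
  unfold zs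
  rw [if_neg (by simp), add_zero]

theorem zs_rename (H : MvPolynomial (Option σ) K) (g : MvPolynomial σ K) :
    aeval (zs H) (rename some g) = rename some g := by
  rw [aeval_rename, rename_eq_aeval]
  congr 2
  funext i
  exact zs_some H i

theorem zs_comp (H G : MvPolynomial (Option σ) K) (F : MvPolynomial (Option σ) K) :
    aeval (zs G) (aeval (zs H) F) = aeval (zs (G + aeval (zs G) H)) F := by
  rw [aeval_aeval]
  congr 2
  funext i
  rcases i with _ | i
  · rw [zs_none, zs_none, map_add, aeval_X, zs_none]
    ring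
  · rw [zs_some, zs_some, aeval_X, zs_some]

theorem zs_nd {H : MvPolynomial (Option σ) K} (hH : H ∈ mI (Option σ) K ^ 2) :
    NonDeg (zs H) := by
  unfold zs
  refine nonDeg_id _ fun i => ?_
  split_ifs
  · exact hH
  · exact Ideal.zero_mem _

/-- the restriction to `z = 0` -/
noncomputable def z0 : MvPolynomial (Option σ) K →ₐ[K] MvPolynomial σ K :=
  aeval fun i => i.elim 0 X

theorem z0_rename (g : MvPolynomial σ K) : z0 (rename some g) = g := by
  unfold z0
  rw [aeval_rename]
  have : ((fun i : Option σ => i.elim 0 X) ∘ some : σ → MvPolynomial σ K) = X := rfl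
  rw [this, aeval_X_left, AlgHom.id_apply]

theorem z0_none : z0 (X none : MvPolynomial (Option σ) K) = 0 := by
  unfold z0
  rw [aeval_X]
  rfl

theorem z0_mem (n : ℕ) {q : MvPolynomial (Option σ) K} (hq : q ∈ mI (Option σ) K ^ n) :
    z0 q ∈ mI σ K ^ n := by
  refine aeval_mem _ (fun i => ?_) n hq
  rcases i with _ | i
  · exact Ideal.zero_mem _
  · exact X_mem i

theorem z0_cc (q : MvPolynomial (Option σ) K) : constantCoeff (z0 q) = constantCoeff q := by
  have h1 : q - C (constantCoeff q) ∈ mI (Option σ) K ^ 1 := by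
    rw [pow_one, mem_m_iff, map_sub, constantCoeff_C, sub_self]
  have h2 := z0_mem 1 h1
  rw [pow_one, mem_m_iff, map_sub, map_sub, sub_eq_zero] at h2
  rw [h2]
  unfold z0
  rw [aeval_C, algebraMap_eq, constantCoeff_C]

theorem rst_z0 (r : MvPolynomial (Option σ) K) :
    rst {none} r = rename some (z0 r) := by
  unfold rst z0
  rw [rename_eq_aeval, ← AlgHom.comp_apply]
  congr 1
  ext1 i
  rw [AlgHom.comp_apply, aeval_X, aeval_X]
  rcases i with _ | i
  · simp
  · simp

theorem z_part (k : ℕ) {r : MvPolynomial (Option σ) K} (hr : r ∈ mI (Option σ) K ^ (k + 1)) :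
    ∃ a ∈ mI (Option σ) K ^ k, r = rename some (z0 r) + X none * a := by
  obtain ⟨a, ha, haY, hs⟩ := IY_sum k (sub_rst_mem (Y := {none}) k hr)
  refine ⟨a none, ha none, ?_⟩
  rw [Finset.sum_eq_single none] at hs
  · rw [← rst_z0]
    linear_combination - hs
  · intro i _ hi
    rw [haY i (by simpa using hi), zero_mul]
  · intro h
    exact absurd (Finset.mem_univ _) h

/-- the jets of the splitting, with `x'` fixed -/
theorem split_rec (h2 : (2 : K) ≠ 0) (c : K) (hc : c ≠ 0) (F : MvPolynomial (Option σ) K)
    (g0 : MvPolynomial σ K)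
    (hF : F - (C c * X none ^ 2 + rename some g0) ∈ mI (Option σ) K ^ 3) (n : ℕ) :
    ∃ (H : MvPolynomial (Option σ) K) (g : MvPolynomial σ K), H ∈ mI (Option σ) K ^ 2 ∧
      aeval (zs H) F - (C c * X none ^ 2 + rename some g) ∈ mI (Option σ) K ^ (n + 3) := by
  induction n with
  | zero =>
    refine ⟨0, g0, Ideal.zero_mem _, ?_⟩
    have e : (zs 0 : Option σ → MvPolynomial (Option σ) K) = X := by
      funext i
      unfold zs
      split_ifs <;> simp
    rw [e, aeval_X_left, AlgHom.id_apply]
    exact hF
  | succ n ih =>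
    obtain ⟨H, g, hH, hr⟩ := ih
    set r := aeval (zs H) F - (C c * X none ^ 2 + rename some g) with hrd
    obtain ⟨a, ha, hra⟩ := z_part (n + 2) hr
    set G : MvPolynomial (Option σ) K := C (-(2 * c)⁻¹) * a with hG
    have hGm : G ∈ mI (Option σ) K ^ (n + 2) := Ideal.mul_mem_left _ _ ha
    refine ⟨G + aeval (zs G) H, g + z0 r, ?_, ?_⟩
    · refine Ideal.add_mem _ (pow_le (by omega) hGm) ?_
      refine aeval_mem _ (fun i => ?_) 2 hH
      unfold zs
      refine Ideal.add_mem _ (X_mem i) ?_
      split_ifs
      · exact Ideal.pow_le_self (by omega) hGm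
      · exact Ideal.zero_mem _
    · rw [← zs_comp]
      have e1 : aeval (zs H) F = C c * X none ^ 2 + rename some g + r := by
        rw [hrd]
        ring
      have e2 : C c * (2 * (X none * G)) = - (X none * a) := by
        rw [hG]
        have e5 : (C c * (2 * C (-(2 * c)⁻¹)) : MvPolynomial (Option σ) K) = -1 := by
          have e6 : (2 : MvPolynomial (Option σ) K) = C 2 := (map_ofNat C 2).symm
          rw [e6, ← map_mul, ← map_mul]
          have e7 : c * (2 * -(2 * c)⁻¹) = -1 := by
            field_simp
          rw [e7, map_neg, map_one]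
        linear_combination (X none * a) * e5
      have e3 : aeval (zs G) (C c * X none ^ 2 + rename some g + r) -
          (C c * X none ^ 2 + rename some (g + z0 r)) =
          C c * G ^ 2 + (aeval (zs G) r - r) := by
        rw [map_add, map_add, zs_rename, map_mul, map_pow, aeval_X, zs_none, aeval_C,
          algebraMap_eq, map_add]
        linear_combination hra + e2
      rw [e1, e3]
      refine Ideal.add_mem _ (Ideal.mul_mem_left _ _ ?_) ?_
      · have := Ideal.pow_mem_pow hGm 2
        rw [← pow_mul] at this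
        exact pow_le (by omega) this
      · refine subst_mem (n + 2) (n + 2) (by omega) (fun i => if i = none then G else 0)
          (fun i => ?_) hr
        split_ifs
        · exact hGm
        · exact Ideal.zero_mem _

/-- **The jets of a critical point with a rational discriminant.** -/
theorem jet_disc (h2 : (2 : K) ≠ 0) (c : K) (hc : c ≠ 0) (F : MvPolynomial (Option σ) K)
    (g0 : MvPolynomial σ K)
    (hF : F - (C c * X none ^ 2 + rename some g0) ∈ mI (Option σ) K ^ 3)
    (A B : MvPolynomial (Option σ) K) (D : MvPolynomial σ K) (hA : constantCoeff A = 1)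
    (hD : A * F + B * pderiv none F = rename some D) (n : ℕ) :
    CEq F (C c * X none ^ 2 + rename some D) n := by
  obtain ⟨H, g, hH, hr⟩ := split_rec h2 c hc F g0 hF n
  set r := aeval (zs H) F - (C c * X none ^ 2 + rename some g) with hrd
  have e1 : aeval (zs H) F = C c * X none ^ 2 + rename some g + r := by
    rw [hrd]
    ring
  -- the derivative
  have hg0 : pderiv (none : Option σ) (rename some g) = (0 : MvPolynomial (Option σ) K) := by
    apply pderiv_eq_zero_of_notMem_vars
    intro h
    have h2 := vars_rename _ _ h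
    simp at h2
  have h3 : aeval (zs H) (pderiv none F) * (1 + pderiv none H) =
      C (2 * c) * X none + pderiv none r := by
    have h4 := chain (zs H) none F
    rw [Fintype.sum_option, zs_none, map_add, pderiv_X_self] at h4
    have h5 : ∑ i : σ, aeval (zs H) (pderiv (some i) F) * pderiv none (zs H (some i)) = 0 := by
      refine Finset.sum_eq_zero fun i _ => ?_
      rw [zs_some, pderiv_X_of_ne (by simp), mul_zero]
    rw [h5, add_zero, e1, map_add, map_add, hg0, pderiv_C_mul, Derivation.leibniz_pow,
      pderiv_X_self, smul_eq_mul, mul_one, add_zero] at h4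
    rw [← h4, map_mul C, nsmul_eq_mul]
    have e6 : (C 2 : MvPolynomial (Option σ) K) = 2 := map_ofNat C 2
    rw [e6]
    push_cast
    ring
  have hu : IsUnit (constantCoeff (1 + pderiv none H)) := by
    have h4 := pderiv_mem (none : Option σ) 1 hH
    rw [pow_one, mem_m_iff] at h4
    rw [map_add, map_one, h4, add_zero]
    exact isUnit_one
  obtain ⟨w, hw⟩ := inv_mod (1 + pderiv none H) hu (n + 2)
  have h4 : aeval (zs H) (pderiv none F) - C (2 * c) * w * X none ∈ mI (Option σ) K ^ (n + 2) := by
    have e : aeval (zs H) (pderiv none F) - C (2 * c) * w * X none =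
        w * pderiv none r - aeval (zs H) (pderiv none F) * (w * (1 + pderiv none H) - 1) := by
      linear_combination w * h3
    rw [e]
    exact Ideal.sub_mem _ (Ideal.mul_mem_left _ _ (pderiv_mem none (n + 2) hr))
      (Ideal.mul_mem_left _ _ hw)
  set a0 := z0 (aeval (zs H) A) with ha0
  have hcc0 : constantCoeff a0 = 1 := by
    rw [ha0, z0_cc, cc_aeval _ (zs_nd hH).1, hA]
  have h5 : a0 * g - D ∈ mI σ K ^ (n + 2) := by
    have h6 := congrArg (fun q => z0 (aeval (zs H) q)) hD
    beta_reduce at h6
    rw [zs_rename, z0_rename, map_add, map_mul, map_mul, map_add, map_mul, map_mul, e1, map_add,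
      map_add, z0_rename, map_mul, map_pow, z0_none, ← ha0] at h6
    have h7 := z0_mem (n + 2) h4
    rw [map_sub, map_mul z0 _ (X none), z0_none, mul_zero, sub_zero] at h7
    have h8 := z0_mem (n + 3) hr
    have e : a0 * g - D = - (a0 * z0 r) - z0 (aeval (zs H) B) *
        z0 (aeval (zs H) (pderiv none F)) := by
      linear_combination h6
    rw [e]
    exact Ideal.sub_mem _ ((Ideal.neg_mem_iff _).2 (Ideal.mul_mem_left _ _ (pow_le (by omega) h8)))
      (Ideal.mul_mem_left _ _ h7)
  obtain ⟨t, ht, htt⟩ := sqrt_jet h2 a0 hcc0 n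
  -- the substitution
  set H' : MvPolynomial (Option σ) K := (rename some t - 1) * X none with hH'
  have hH'm : H' ∈ mI (Option σ) K ^ 2 := by
    rw [hH', pow_two]
    refine Ideal.mul_mem_mul ?_ (X_mem _)
    rw [mem_m_iff, map_sub, MvPolynomial.constantCoeff_rename, ht, map_one, sub_self]
  have hnd := zs_nd hH'm
  have hrm : ∀ (k : ℕ) {q : MvPolynomial σ K}, q ∈ mI σ K ^ k →
      rename (some : σ → Option σ) q ∈ mI (Option σ) K ^ k := by
    intro k q hq
    rw [rename_eq_aeval]
    exact aeval_mem _ (fun i => X_mem _) k hq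
  refine ⟨fun i => aeval (zs H') (zs H i), aeval (zs H') (rename some a0),
    (zs_nd hH).comp hnd, ?_, ?_⟩
  · rw [cc_aeval _ hnd.1, MvPolynomial.constantCoeff_rename, hcc0]
    exact isUnit_one
  · rw [← aeval_aeval, e1, zs_rename]
    have e2 : aeval (zs H') (X none : MvPolynomial (Option σ) K) = rename some t * X none := by
      rw [aeval_X, zs_none, hH']
      ring
    have e3 : rename some a0 * aeval (zs H') (C c * X none ^ 2 + rename some g + r) -
        (C c * X none ^ 2 + rename some D) =
        C c * X none ^ 2 * rename some (t ^ 2 * a0 - 1) + rename some (a0 * g - D) +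
          rename some a0 * aeval (zs H') r := by
      rw [map_add, map_add, map_mul, map_pow, e2, aeval_C, algebraMap_eq, zs_rename]
      simp only [map_sub, map_mul, map_pow, map_one]
      ring
    rw [e3]
    refine Ideal.add_mem _ (Ideal.add_mem _ (Ideal.mul_mem_left _ _ ?_) ?_)
      (Ideal.mul_mem_left _ _ ?_)
    · exact pow_le (by omega) (hrm _ htt)
    · exact pow_le (by omega) (hrm _ h5)
    · exact pow_le (by omega) (aeval_mem _ hnd.mem (n + 3) hr)

end Split

/-- base change of the contact equivalence -/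
theorem CEq.map {σ A B : Type} [Fintype σ] [DecidableEq σ] [CommRing A] [CommRing B] (φ : A →+* B)
    {f F : MvPolynomial σ A} {n : ℕ} (h : CEq f F n) :
    CEq (MvPolynomial.map φ f) (MvPolynomial.map φ F) n := by
  obtain ⟨ψ, v, ⟨h1, h2⟩, hv, h3⟩ := h
  refine ⟨fun i => MvPolynomial.map φ (ψ i), MvPolynomial.map φ v, ⟨fun i => ?_, ?_⟩, ?_, ?_⟩
  · rw [constantCoeff_map, h1, map_zero]
  · have e1 : (JM fun i => MvPolynomial.map φ (ψ i)).det = MvPolynomial.map φ (JM ψ).det := by
      rw [RingHom.map_det]
      congr 1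
      ext1 i j
      unfold JM
      simp [pderiv_map]
    rw [e1, constantCoeff_map]
    exact h2.map φ
  · rw [constantCoeff_map]
    exact hv.map φ
  · rw [← map_aeval', ← map_mul, ← map_sub]
    have : Ideal.map (MvPolynomial.map φ) (mI σ A ^ n) ≤ mI σ B ^ n := by
      rw [Ideal.map_pow]
      refine Ideal.pow_right_mono ?_ n
      rw [Ideal.map_span, Ideal.span_le]
      rintro _ ⟨_, ⟨i, rfl⟩, rfl⟩
      rw [map_X]
      exact X_mem i
    exact this (Ideal.mem_map_of_mem _ h3)

end Pool.Agent.J4H50.NI
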