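import Pool.Agent.J4H50.IG.Lat
import Pool.Agent.N138.RF.S2

set_option autoImplicit false
set_option linter.unusedSectionVars false
set_option linter.unusedVariables false

/-! # Nearly quadratic polynomials in one variable over `ℤ_p` -/

namespace Pool.Agent.J4H50.NI

open Polynomial
open Pool.Agent.N138.RF.S1 Pool.Agent.N138.RF.S2

variable {p : ℕ} [Fact p.Prime]

theorem norm_two_ge : (p : ℝ)⁻¹ ≤ ‖(2 : ℤ_[p])‖ := by
  have hp1 : (1 : ℝ) < p := by exact_mod_cast (Fact.out : p.Prime).one_lt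
  by_cases h : ‖(2 : ℤ_[p])‖ < 1
  · have h1 : (p : ℤ) ∣ 2 := by
      have := (PadicInt.norm_int_lt_one_iff_dvd (p := p) 2).1 (by exact_mod_cast h)
      exact this
    have h2 : p ∣ 2 := by exact_mod_cast h1
    have h3 : p = 2 := (Nat.prime_dvd_prime_iff_eq (Fact.out : p.Prime) Nat.prime_two).1 h2
    have h4 : ‖((p : ℕ) : ℤ_[p])‖ = (p : ℝ)⁻¹ := PadicInt.norm_p
    have h5 : ((p : ℕ) : ℤ_[p]) = 2 := by
      have h6 := congrArg (fun n : ℕ => (n : ℤ_[p])) h3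
      simpa using h6
    rw [h5] at h4
    exact h4.ge
  · push Not at h
    exact (inv_le_one_of_one_le₀ hp1.le).trans h

theorem two_ne : (2 : ℤ_[p]) ≠ 0 := two_ne_zero

/-- square roots of the numbers near `1` -/
theorem sqrt_one (L : ℕ) (hL : 3 ≤ L) (a : ℤ_[p]) :
    ∃ s : ℤ_[p], s ^ 2 = 1 + (p : ℤ_[p]) ^ L * a ∧ ‖s - 1‖ < ‖(2 : ℤ_[p])‖ := by
  have hp0 := inv_pos' (p := p)
  have hp1 := inv_lt_one' (p := p)
  set F : Polynomial ℤ_[p] := X ^ 2 - C (1 + (p : ℤ_[p]) ^ L * a) with hF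
  have h1 : aeval (1 : ℤ_[p]) F = - ((p : ℤ_[p]) ^ L * a) := by
    rw [hF]
    simp
  have h2 : aeval (1 : ℤ_[p]) (derivative F) = 2 := by
    rw [hF, derivative_sub, derivative_C, sub_zero, derivative_X_pow, coe_aeval_eq_eval]
    simp
  have h3 : ‖aeval (1 : ℤ_[p]) F‖ < ‖aeval (1 : ℤ_[p]) (derivative F)‖ ^ 2 := by
    rw [h1, h2, norm_neg, norm_mul, norm_pow, PadicInt.norm_p]
    have h4 : ((p : ℝ)⁻¹) ^ L * ‖a‖ ≤ ((p : ℝ)⁻¹) ^ L :=
      mul_le_of_le_one_right (pow_pos hp0 _).le (PadicInt.norm_le_one _)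
    have h5 : ((p : ℝ)⁻¹) ^ L < ((p : ℝ)⁻¹) ^ 2 :=
      pow_lt_pow_right_of_lt_one₀ hp0 hp1 (by omega)
    have h6 : ((p : ℝ)⁻¹) ^ 2 ≤ ‖(2 : ℤ_[p])‖ ^ 2 := pow_le_pow_left₀ hp0.le norm_two_ge 2
    linarith
  obtain ⟨s, hs, hs1, _⟩ := hensels_lemma h3
  refine ⟨s, ?_, ?_⟩
  · rw [hF] at hs
    simp only [map_sub, map_pow, aeval_X, aeval_C, Algebra.algebraMap_self, RingHom.id_apply] at hs
    exact sub_eq_zero.1 hs
  · rwa [h2] at hs1

/-- polynomials are Lipschitz -/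
theorem poly_lip (R : Polynomial ℤ_[p]) (x y : ℤ_[p]) : ‖R.eval x - R.eval y‖ ≤ ‖x - y‖ := by
  obtain ⟨c, hc⟩ := sub_dvd_eval_sub x y R
  rw [hc, norm_mul]
  exact mul_le_of_le_one_right (norm_nonneg _) (PadicInt.norm_le_one _)

/-- the second order expansion -/
theorem second_exp (r : Polynomial ℤ_[p]) (a : ℤ_[p]) : ∃ R : Polynomial ℤ_[p],
    r = C (r.eval a) + (X - C a) * C ((derivative r).eval a) + (X - C a) ^ 2 * R := by
  obtain ⟨q, hq⟩ : (X - C a) ∣ r - C (r.eval a) := by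
    rw [dvd_iff_isRoot, IsRoot, eval_sub, eval_C, sub_self]
  obtain ⟨R, hR⟩ : (X - C a) ∣ q - C (q.eval a) := by
    rw [dvd_iff_isRoot, IsRoot, eval_sub, eval_C, sub_self]
  have h1 : (derivative r).eval a = q.eval a := by
    have h2 := congrArg (fun f => (derivative f).eval a) hq
    simpa using h2
  refine ⟨R, ?_⟩
  rw [h1]
  linear_combination hq + (X - C a) * hR

/-- **Nearly quadratic polynomials.** -/
theorem oneD (L : ℕ) (hL : 3 ≤ L) (r : Polynomial ℤ_[p]) :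
    ∃ (z0 : ℤ_[p]) (w : ℤ_[p] → ℤ_[p]), Isometry w ∧
      2 * z0 + (p : ℤ_[p]) ^ L * (derivative r).eval z0 = 0 ∧
      ∀ z, z ^ 2 + (p : ℤ_[p]) ^ L * r.eval z =
        z0 ^ 2 + (p : ℤ_[p]) ^ L * r.eval z0 + w z ^ 2 := by
  have hp0 := inv_pos' (p := p)
  have hp1 := inv_lt_one' (p := p)
  have h20 : 0 < ‖(2 : ℤ_[p])‖ := norm_pos_iff.2 two_ne
  set F : Polynomial ℤ_[p] := C 2 * X + C ((p : ℤ_[p]) ^ L) * derivative r with hF
  have h1 : aeval (0 : ℤ_[p]) F = (p : ℤ_[p]) ^ L * (derivative r).eval 0 := by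
    rw [hF, coe_aeval_eq_eval]
    simp
  have h2 : aeval (0 : ℤ_[p]) (derivative F) =
      2 + (p : ℤ_[p]) ^ L * (derivative (derivative r)).eval 0 := by
    rw [hF, coe_aeval_eq_eval, derivative_add, derivative_C_mul, derivative_C_mul, derivative_X,
      eval_add, eval_mul, eval_mul, eval_C, eval_C, eval_one, mul_one]
  have hsm : ∀ x : ℤ_[p], ‖(p : ℤ_[p]) ^ L * x‖ ≤ ((p : ℝ)⁻¹) ^ L := by
    intro x
    rw [norm_mul, norm_pow, PadicInt.norm_p]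
    exact mul_le_of_le_one_right (pow_pos hp0 _).le (PadicInt.norm_le_one _)
  have h5 : ((p : ℝ)⁻¹) ^ L < ((p : ℝ)⁻¹) ^ 2 :=
    pow_lt_pow_right_of_lt_one₀ hp0 hp1 (by omega)
  have h5' : ((p : ℝ)⁻¹) ^ L < ((p : ℝ)⁻¹) ^ 1 :=
    pow_lt_pow_right_of_lt_one₀ hp0 hp1 (by omega)
  rw [pow_one] at h5'
  have hn2 : ∀ x : ℤ_[p], ‖2 + (p : ℤ_[p]) ^ L * x‖ = ‖(2 : ℤ_[p])‖ := by
    intro x
    refine norm_eq_of _ _ ?_
    rw [add_sub_cancel_left]
    exact ((hsm x).trans_lt h5').trans_le norm_two_ge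
  have h3 : ‖aeval (0 : ℤ_[p]) F‖ < ‖aeval (0 : ℤ_[p]) (derivative F)‖ ^ 2 := by
    rw [h1, h2, hn2]
    have h6 : ((p : ℝ)⁻¹) ^ 2 ≤ ‖(2 : ℤ_[p])‖ ^ 2 := pow_le_pow_left₀ hp0.le norm_two_ge 2
    exact (hsm _).trans_lt (h5.trans_le h6)
  obtain ⟨z0, hz0, _⟩ := hensels_lemma h3
  have hz : 2 * z0 + (p : ℤ_[p]) ^ L * (derivative r).eval z0 = 0 := by
    rw [hF, coe_aeval_eq_eval] at hz0
    simpa using hz0
  obtain ⟨R, hR⟩ := second_exp r z0
  choose s hs hs1 using fun z : ℤ_[p] => sqrt_one L hL (R.eval z)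
  have hsn : ∀ z, ‖s z‖ = 1 := by
    intro z
    have h6 : ‖s z‖ = ‖(1 : ℤ_[p])‖ := norm_eq_of _ _ (by
      rw [norm_one]
      exact (hs1 z).trans_le (PadicInt.norm_le_one _))
    rwa [norm_one] at h6
  have hsL : ∀ z z', ‖s z - s z'‖ * ‖(2 : ℤ_[p])‖ ≤ ((p : ℝ)⁻¹) ^ L * ‖z - z'‖ := by
    intro z z'
    have h6 : ‖s z + s z'‖ = ‖(2 : ℤ_[p])‖ := by
      refine norm_eq_of _ _ ?_
      have e : s z + s z' - 2 = (s z - 1) + (s z' - 1) := by ring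
      rw [e]
      exact (PadicInt.nonarchimedean _ _).trans_lt (max_lt (hs1 z) (hs1 z'))
    rw [← h6, ← norm_mul]
    have e : (s z - s z') * (s z + s z') = (p : ℤ_[p]) ^ L * (R.eval z - R.eval z') := by
      linear_combination hs z - hs z'
    rw [e, norm_mul, norm_pow, PadicInt.norm_p]
    exact mul_le_mul_of_nonneg_left (poly_lip R z z') (pow_pos hp0 _).le
  have hsL' : ∀ z z', z ≠ z' → ‖s z - s z'‖ < ‖z - z'‖ := by
    intro z z' hne
    have hpos : 0 < ‖z - z'‖ := norm_pos_iff.2 (sub_ne_zero.2 hne)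
    have h6 := hsL z z'
    have h7 : ((p : ℝ)⁻¹) ^ L * ‖z - z'‖ < ‖z - z'‖ * ‖(2 : ℤ_[p])‖ := by
      rw [mul_comm]
      exact mul_lt_mul_of_pos_left (h5'.trans_le norm_two_ge) hpos
    exact lt_of_mul_lt_mul_right (h6.trans_lt h7) h20.le
  refine ⟨z0, fun z => (z - z0) * s z, ?_, hz, ?_⟩
  · refine Isometry.of_dist_eq fun z z' => ?_
    rw [dist_eq_norm, dist_eq_norm]
    by_cases hne : z = z'
    · rw [hne, sub_self, sub_self]
    have e : (z - z0) * s z - (z' - z0) * s z' = (z - z') * s z + (z' - z0) * (s z - s z') := by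
      ring
    have h6 : ‖(z' - z0) * (s z - s z')‖ < ‖(z - z') * s z‖ := by
      rw [norm_mul, norm_mul, hsn, mul_one]
      exact (mul_le_of_le_one_left (norm_nonneg _) (PadicInt.norm_le_one _)).trans_lt
        (hsL' z z' hne)
    have h7 : ‖(z - z0) * s z - (z' - z0) * s z'‖ = ‖(z - z') * s z‖ := by
      refine norm_eq_of _ _ ?_
      rw [e, add_sub_cancel_left]
      exact h6
    rw [h7, norm_mul, hsn, mul_one]
  · intro z
    have e1 : r.eval z = r.eval z0 + (z - z0) * (derivative r).eval z0 +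
        (z - z0) ^ 2 * R.eval z := by
      conv_lhs => rw [hR]
      simp
    have e2 : ((z - z0) * s z) ^ 2 = (z - z0) ^ 2 * (1 + (p : ℤ_[p]) ^ L * R.eval z) := by
      rw [mul_pow, hs]
    rw [e1]
    beta_reduce
    rw [e2]
    linear_combination (z - z0) * hz

/-- the same on a ball, for a polynomial `X ^ 2 + p ^ L U` -/
theorem oneD_ball (L : ℕ) (hL : 3 ≤ L) (U : Polynomial ℤ_[p]) (b : ℤ_[p]) (j : ℕ) (β : ℤ_[p])
    (hb : 2 * b + (p : ℤ_[p]) ^ L * (derivative U).eval b = (p : ℤ_[p]) ^ (L + j) * β) :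
    ∃ (z0 : ℤ_[p]) (w : ℤ_[p] → ℤ_[p]), Isometry w ∧
      2 * (b + (p : ℤ_[p]) ^ j * z0) +
        (p : ℤ_[p]) ^ L * (derivative U).eval (b + (p : ℤ_[p]) ^ j * z0) = 0 ∧
      ∀ z, (b + (p : ℤ_[p]) ^ j * z) ^ 2 + (p : ℤ_[p]) ^ L * U.eval (b + (p : ℤ_[p]) ^ j * z) =
        (b + (p : ℤ_[p]) ^ j * z0) ^ 2 +
          (p : ℤ_[p]) ^ L * U.eval (b + (p : ℤ_[p]) ^ j * z0) + (p : ℤ_[p]) ^ (2 * j) * w z ^ 2 := by
  obtain ⟨R, hR⟩ := second_exp U b
  set R1 : Polynomial ℤ_[p] := R.comp (C b + C ((p : ℤ_[p]) ^ j) * X) with hR1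
  set r : Polynomial ℤ_[p] := C β * X + X ^ 2 * R1 with hr
  obtain ⟨z0, w, hw, h1, h2⟩ := oneD L hL r
  have hpj : (p : ℤ_[p]) ^ j ≠ 0 :=
    pow_ne_zero _ (by exact_mod_cast (Fact.out : p.Prime).ne_zero)
  have hU : ∀ z, U.eval (b + (p : ℤ_[p]) ^ j * z) = U.eval b +
      (p : ℤ_[p]) ^ j * z * (derivative U).eval b + ((p : ℤ_[p]) ^ j * z) ^ 2 * R1.eval z := by
    intro z
    conv_lhs => rw [hR]
    rw [hR1]
    simp
  have hV : ∀ z, (b + (p : ℤ_[p]) ^ j * z) ^ 2 + (p : ℤ_[p]) ^ L * U.eval (b + (p : ℤ_[p]) ^ j * z)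
      = b ^ 2 + (p : ℤ_[p]) ^ L * U.eval b +
        (p : ℤ_[p]) ^ (2 * j) * (z ^ 2 + (p : ℤ_[p]) ^ L * r.eval z) := by
    intro z
    have e : r.eval z = β * z + z ^ 2 * R1.eval z := by
      rw [hr]
      simp
    rw [hU, e]
    have e2 : (p : ℤ_[p]) ^ (2 * j) = (p : ℤ_[p]) ^ j * (p : ℤ_[p]) ^ j := by
      rw [two_mul, pow_add]
    have e3 : (p : ℤ_[p]) ^ (L + j) = (p : ℤ_[p]) ^ L * (p : ℤ_[p]) ^ j := pow_add _ _ _
    rw [e2]
    rw [e3] at hb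
    linear_combination ((p : ℤ_[p]) ^ j * z) * hb
  refine ⟨z0, w, hw, ?_, ?_⟩
  · -- the derivative
    have h3 : (C b + C ((p : ℤ_[p]) ^ j) * X) ^ 2 +
        C ((p : ℤ_[p]) ^ L) * U.comp (C b + C ((p : ℤ_[p]) ^ j) * X) =
        C (b ^ 2 + (p : ℤ_[p]) ^ L * U.eval b) +
          C ((p : ℤ_[p]) ^ (2 * j)) * (X ^ 2 + C ((p : ℤ_[p]) ^ L) * r) := by
      apply Polynomial.funext
      intro z
      have := hV z
      simp only [eval_add, eval_mul, eval_pow, eval_C, eval_X, eval_comp]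
      exact this
    have h4 := congrArg (fun f => (derivative f).eval z0) h3
    simp only [derivative_add, derivative_mul, derivative_C, derivative_X, derivative_pow,
      derivative_comp, eval_add, eval_mul, eval_C, eval_X, eval_pow, eval_comp, zero_mul,
      zero_add, mul_one, Nat.cast_ofNat, Nat.add_one_sub_one, pow_one, eval_one, eval_zero] at h4
    have h5 : (p : ℤ_[p]) ^ j * (2 * (b + (p : ℤ_[p]) ^ j * z0) +
        (p : ℤ_[p]) ^ L * (derivative U).eval (b + (p : ℤ_[p]) ^ j * z0)) = 0 := by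
      linear_combination h4 + ((p : ℤ_[p]) ^ (2 * j)) * h1
    exact (mul_eq_zero.1 h5).resolve_left hpj
  · intro z
    rw [hV z, hV z0, h2 z]
    ring

end Pool.Agent.J4H50.NI
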