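import Pool.Agent.N138.SV.B2
import Pool.Agent.J4H50.NI.P1

set_option autoImplicit false
set_option linter.unusedSectionVars false
set_option linter.unusedVariables false

/-! # The local theorems with functional equations at one number and one point

(after `Pool/Agent/N138/SV/B2.lean`) -/

namespace Pool.Agent.J4H50.NI

open Pool.Agent.W574.SM Pool.Agent.Y230.RE Pool.Agent.Y230.PL Polynomial
open Pool.Agent.Y230.PT Pool.Agent.Y465.TH Pool.Agent.N138.SU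
open Pool.Agent.N138.SV (crit_rr crit_one ic_init leaf_unit)

variable {p : ℕ} [Fact p.Prime]

attribute [local instance] msK bsK

theorem mp_ne' (φ : ℚ_[p] →+* ℂ) {f : Fin 1 → A ℚ_[p]} (hne : ∃ j, f j ≠ 0) : mp φ (f 0) ≠ 0 := by
  obtain ⟨j, hj⟩ := hne
  rw [Subsingleton.elim j 0] at hj
  intro h0
  apply hj
  refine MvPolynomial.map_injective φ φ.injective ?_
  rw [map_zero]
  exact h0

/-- the context -/
def ICE (φ : ℚ_[p] →+* ℂ) (f : Fin 1 → A ℚ_[p]) (r : ℂ) (Pt : Fin 2 → ℂ) (g : Fin 1 → A ℚ_[p])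
    (d0 d1 : Bool) (a0 n0 a1 n1 : ℕ) : Prop :=
  IC φ f r g d0 d1 a0 n0 a1 n1 ∧ Nonempty (GD (mp φ (f 0)) Pt (mp φ (g 0)) a0 n0 a1 n1)

theorem closed_ICE (φ : ℚ_[p] →+* ℂ) (f : Fin 1 → A ℚ_[p]) (r : ℂ) (Pt : Fin 2 → ℂ)
    (hF0 : mp φ (f 0) ≠ 0) (hr : LEv Pt (mp φ (f 0)) r) : Closed (ICE φ f r Pt) where
  pos _ _ _ _ _ _ _ h := ⟨h.1.1.1, h.1.1.2.1⟩
  ty0 _ _ _ _ _ _ h := h.1.1.2.2.1 rfl
  ty1 _ _ _ _ _ _ h := h.1.1.2.2.2 rfl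
  child g d0 d1 a0 n0 a1 n1 m gc gI hm hgc hgI hne h := by
    obtain ⟨⟨hT, hI⟩, hG⟩ := h
    obtain ⟨t0, tc, tI⟩ := closed_TC.child g d0 d1 a0 n0 a1 n1 m gc gI hm hgc hgI hne hT
    obtain ⟨j0, hj0⟩ := hne
    have hP0 : res0 (gcC φ (gc 0) 0 j0) ≠ 0 := by
      rw [gcC_0 φ hgc, ← mp_r0, Ne, Polynomial.map_eq_zero]
      exact hj0
    obtain ⟨i0, ic, iI⟩ := inv_childrenE (fun j => mp φ (f j)) (mp φ (f 0)) hF0 Pt r hr m hm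
      (fun c j => gcC φ (gc 0) c j) (fun j => mp φ (gI j))
      (fun c j => gcC_eq φ (hgc 0) c j) (chI_mp φ hgI) j0 hP0 hI hG
    have hn0 := hI.hn0
    have hn1 := hI.hn1
    obtain ⟨G⟩ := hG
    refine ⟨⟨⟨t0, ?_⟩, ?_⟩, fun c hc => ⟨⟨tc c hc, ?_⟩, ?_⟩, ⟨⟨tI, iI⟩, ?_⟩⟩
    · have : (fun j => mp φ (gc 0 j)) = fun j => gcC φ (gc 0) 0 j := by
        funext j
        rw [gcC_0 φ hgc]
      rw [this]
      exact i0
    · refine ⟨gd_child0 G hn0 hn1 m (mp φ (gc 0 0)) ?_⟩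
      have := gcC_eq φ (hgc 0) 0 0
      rwa [gcC_0 φ hgc] at this
    · have : (fun j => mp φ (gc c j)) = fun j => gcC φ (gc 0) (φ c) j := by
        funext j
        rw [gcC_k φ hgc]
      rw [this]
      exact ic (φ c) (fun h => hc ((map_eq_zero φ).1 h))
    · refine ⟨gd_child G hn0 hn1 m (φ c) (fun h => hc ((map_eq_zero φ).1 h)) (mp φ (gc c 0)) ?_⟩
      have := gcC_eq φ (hgc 0) (φ c) 0
      rwa [gcC_k φ hgc] at this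
    · exact ⟨gd_childI G hn0 hn1 m (mp φ (gI 0)) (chI_mp φ hgI 0)⟩

section Curves

variable (φ : ℚ_[p] →+* ℂ) (f : Fin 1 → A ℚ_[p]) (r : ℂ) (Pt : Fin 2 → ℂ)
  (hF0 : mp φ (f 0) ≠ 0)

include hF0

theorem perV (g : Fin 1 → A ℚ_[p]) (d0 : Bool) (a0 n0 m : ℕ) (hm : 2 ≤ m)
    (hc : ICE φ f r Pt g d0 false a0 n0 0 1) (h : A ℚ_[p]) (κ : Fin 1 → A ℚ_[p])
    (hgj : ∀ j, g j = h ^ m * κ j) (h0 : MvPolynomial.constantCoeff h = 0)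
    (h1 : MvPolynomial.constantCoeff (MvPolynomial.pderiv 1 h) ≠ 0) (j : Fin 1)
    (hj : MvPolynomial.constantCoeff (κ j) ≠ 0) : ¬ LEv Pt (mp φ (f 0)) (-1 / (m : ℂ)) := by
  obtain ⟨G⟩ := hc.2
  refine curve_E hF0 G m hm (mp φ h) (mp φ (κ 0)) ?_ (by rw [mp_cc, h0, map_zero]) (by
      rw [mp_pderiv, mp_cc]
      exact fun h => h1 ((map_eq_zero φ).1 h)) (by
      rw [mp_cc]
      rw [Subsingleton.elim j 0] at hj
      exact fun h => hj ((map_eq_zero φ).1 h))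
  rw [hgj, mp_mul, mp_pow]

theorem perU (g : Fin 1 → A ℚ_[p]) (d1 : Bool) (a1 n1 m : ℕ) (hm : 2 ≤ m)
    (hc : ICE φ f r Pt g false d1 0 1 a1 n1) (h : A ℚ_[p]) (κ : Fin 1 → A ℚ_[p])
    (hgj : ∀ j, g j = h ^ m * κ j) (h0 : MvPolynomial.constantCoeff h = 0)
    (h1 : MvPolynomial.constantCoeff (MvPolynomial.pderiv 0 h) ≠ 0) (j : Fin 1)
    (hj : MvPolynomial.constantCoeff (κ j) ≠ 0) : ¬ LEv Pt (mp φ (f 0)) (-1 / (m : ℂ)) := by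
  obtain ⟨G⟩ := hc.2
  refine curve_E hF0 (gd_swap G) m hm (W574.SM.sw (mp φ h)) (W574.SM.sw (mp φ (κ 0))) ?_
    (by rw [W574.SM.cc_sw, mp_cc, h0, map_zero]) (by
      rw [(W574.SM.pderiv_sw _).2, W574.SM.cc_sw, mp_pderiv, mp_cc]
      exact fun h => h1 ((map_eq_zero φ).1 h)) (by
      rw [W574.SM.cc_sw, mp_cc]
      rw [Subsingleton.elim j 0] at hj
      exact fun h => hj ((map_eq_zero φ).1 h))
  rw [hgj, mp_mul, mp_pow, map_mul, map_pow]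

end Curves

/-- the model of a critical exceptional curve -/
theorem specE (φ : ℚ_[p] →+* ℂ) (f : Fin 1 → A ℚ_[p]) {T0 : ℂ} (hT0 : T0 ≠ 0) (Pt : Fin 2 → ℂ)
    (hF0 : mp φ (f 0) ≠ 0) (hr : LEv Pt (mp φ (f 0)) ((rr p T0 : ℝ) : ℂ))
    (g : Fin 1 → A ℚ_[p]) (d0 d1 : Bool) (a0 n0 a1 n1 m : ℕ) (gc : ℚ_[p] → Fin 1 → A ℚ_[p])
    (gI : Fin 1 → A ℚ_[p]) (hm : 1 ≤ m)
    (hgc : ∀ c j, MvPolynomial.aeval (ch c) (g j) = MvPolynomial.X 0 ^ m * gc c j)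
    (hgI : ∀ j, MvPolynomial.aeval chI (g j) = MvPolynomial.X 1 ^ m * gI j)
    (hne' : ∃ j, r0 (gc 0 j) ≠ 0) (hc : ICE φ f ((rr p T0 : ℝ) : ℂ) Pt g d0 d1 a0 n0 a1 n1)
    (hcrit : Crit p T0 (a0 + a1 + m) (n0 + n1)) :
    ∃ (lam : Fin 1 → ℚ_[p]) (P : Polynomial ℚ_[p]) (γ : ℚ_[p]) (μ0 : ℕ) (T : Finset ℚ_[p])
        (μ : ℚ_[p] → ℕ), (∀ j, r0 (gc 0 j) = Polynomial.C (lam j) * P) ∧
        Spec T0 P m a0 n0 a1 n1 γ μ0 T μ := by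
  set r : ℂ := ((rr p T0 : ℝ) : ℂ) with hrdef
  have hcr : ∀ a n : ℕ, Crit p T0 a n → (n : ℂ) + r * (a : ℂ) = 0 := fun a n h => crit_r hT0 a n h
  have hcr' : ∀ a n : ℕ, Crit p T0 a n → (n : ℂ) + (a : ℂ) * r = 0 := fun a n h => by
    rw [mul_comm]
    exact hcr a n h
  obtain ⟨j0, hj0⟩ := hne'
  have hI := hc.1.2
  have hP0 : res0 (gcC φ (gc 0) 0 j0) ≠ 0 := by
    rw [gcC_0 φ hgc, ← mp_r0, Ne, Polynomial.map_eq_zero]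
    exact hj0
  have hmult : IsMult (fun j => mp φ (g j)) m :=
    ⟨⟨fun j => gcC φ (gc 0) 0 j, fun j => gcC_eq φ (hgc 0) 0 j⟩,
      ⟨fun j => mp φ (gI j), fun j => chI_mp φ hgI j⟩⟩
  obtain ⟨hdeg, hA0, hAI, hAc, T, hT, hcard, h1, h2, hsum, hrel⟩ :=
    crit_structE (mp φ (f 0)) hF0 Pt (fun j => mp φ (g j)) a0 n0 a1 n1 hI.hn0 hI.hn1
      hc.2 m hm (fun c j => gcC φ (gc 0) c j) (fun j => mp φ (gI j))
      (fun c j => gcC_eq φ (hgc 0) c j) (chI_mp φ hgI) j0 hP0 (hI.hJ1 m hmult) hI.hJ2 hI.hJ2'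
      hI.hz0 hI.hz1 r hr (hcr' _ _ hcrit)
  have hPP : res0 (gcC φ (gc 0) 0 j0) = (r0 (gc 0 j0)).map φ := by
    rw [gcC_0 φ hgc, ← mp_r0]
  rw [hPP] at hdeg hA0 hAI hsum hrel h1 h2
  simp only [hPP] at hAc hT hsum hrel
  obtain ⟨γ, μ0, T', μ, hS⟩ := spec_of φ T0 r hcr (r0 (gc 0 j0)) hj0 m a0 n0 a1 n1 hdeg hA0 hAI
    hAc T hT hcard h1 h2 hsum hrel
  refine ⟨fun _ => 1, r0 (gc 0 j0), γ, μ0, T', μ, fun j => ?_, hS⟩
  rw [Subsingleton.elim j j0, map_one, one_mul]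

theorem ice_init (φ : ℚ_[p] →+* ℂ) (f : Fin 1 → A ℚ_[p]) (r : ℂ) (P : Fin 2 → ℚ_[p]) :
    ICE φ f r (fun i => φ (P i)) (nd f P) false false 0 1 0 1 := by
  refine ⟨ic_init φ f r P, ?_⟩
  have h1 : mp φ (nd f P 0) = W574.SM.translate (fun i => φ (P i)) (mp φ (f 0)) := mp_tr φ P (f 0)
  rw [h1]
  exact ⟨gd_init _ _⟩

/-- **The twisted local theorem.** -/
theorem local_xE (χ : UC p) (hχ : ¬ χ.IsTr) (φ : ℚ_[p] →+* ℂ)
    (f : Fin 1 → A ℚ_[p]) {T0 : ℂ} (hT0 : T0 ≠ 0) (P : Fin 2 → ℚ_[p])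
    (hr : LEv (fun i => φ (P i)) (mp φ (f 0)) ((rr p T0 : ℝ) : ℂ)) (hne : ∃ j, f j ≠ 0) :
    LReg T0 0 (Zx (Hx χ (nd f P) 0 1 0 1)) (0, 0) := by
  have hF0 := mp_ne' φ hne
  have hT : KT (nd f P) false false := exists_KT _ false false (tr_ne_zero f P hne) (by simp)
    (by simp)
  have hcurve : ∀ m : ℕ, 1 ≤ m → (2 ≤ m → ¬ LEv (fun i => φ (P i)) (mp φ (f 0)) (-1 / (m : ℂ))) →
      ¬ Cr χ T0 m 1 := by
    intro m hm h1 h2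
    by_cases hm2 : 2 ≤ m
    · rw [crit_rr hT0 hm h2.1] at hr
      exact h1 hm2 hr
    · have hm1 : m = 1 := by omega
      subst hm1
      apply hχ
      intro u hu
      have := h2.2 u hu
      rwa [pow_one] at this
  exact lreg_of_CCx χ (main_X χ hT0 (T0' := T0) (fun a n h => h.1)
    (ICE φ f ((rr p T0 : ℝ) : ℂ) (fun i => φ (P i))) (closed_ICE φ f _ _ hF0 hr)
    (fun g d0 d1 a0 n0 a1 n1 hc j hj h =>
      leaf_unit φ f hT0 g d0 d1 a0 n0 a1 n1 hc.1 j hj h.1.1 h.2.1)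
    (fun g d0 a0 n0 m hm hc h κ hgj h0 h1 j hj => hcurve m hm fun hm2 =>
      perV φ f _ _ hF0 g d0 a0 n0 m hm2 hc h κ hgj h0 h1 j hj)
    (fun g d1 a1 n1 m hm hc h κ hgj h0 h1 j hj => hcurve m hm fun hm2 =>
      perU φ f _ _ hF0 g d1 a1 n1 m hm2 hc h κ hgj h0 h1 j hj)
    (fun g d0 d1 a0 n0 a1 n1 m gc gI hm hgc hgI hne' hc hcrit =>
      specE φ f hT0 _ hF0 hr g d0 d1 a0 n0 a1 n1 m gc gI hm hgc hgI hne' hc hcrit)
    (fun g d0 d1 a0 n0 a1 n1 hc hcrit ρ hρ h =>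
      hc.1.2.hH0 (by rw [mul_comm]; exact crit_r hT0 _ _ hcrit.1) ρ (ord0_mp φ hρ)
        (crit_r hT0 _ _ h.1))
    (fun g d0 d1 a0 n0 a1 n1 hc hcrit ρ hρ h =>
      hc.1.2.hH1 (by rw [mul_comm]; exact crit_r hT0 _ _ hcrit.1) ρ (ord1_mp φ hρ)
        (crit_r hT0 _ _ h.1))
    hT 0 1 0 1 (ice_init φ f _ P))

/-- **The local theorem, away from `p`.** -/
theorem local_cE (φ : ℚ_[p] →+* ℂ)
    (f : Fin 1 → A ℚ_[p]) {T0 : ℂ} (hT0 : T0 ≠ 0) (hTp : T0 ≠ p) (P : Fin 2 → ℚ_[p])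
    (hr : LEv (fun i => φ (P i)) (mp φ (f 0)) ((rr p T0 : ℝ) : ℂ)) (hne : ∃ j, f j ≠ 0) :
    LReg T0 0 (Zc (Hn (nd f P) 0 1 0 1)) (0, 0) := by
  have hF0 := mp_ne' φ hne
  have hT : KT (nd f P) false false := exists_KT _ false false (tr_ne_zero f P hne) (by simp)
    (by simp)
  have hcurve : ∀ m : ℕ, 1 ≤ m → (2 ≤ m → ¬ LEv (fun i => φ (P i)) (mp φ (f 0)) (-1 / (m : ℂ))) →
      ¬ Crit p T0 m 1 := by
    intro m hm h1 h2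
    by_cases hm2 : 2 ≤ m
    · rw [crit_rr hT0 hm h2] at hr
      exact h1 hm2 hr
    · have hm1 : m = 1 := by omega
      subst hm1
      exact hTp (crit_one h2)
  have hCC := main_C hT0 (ICE φ f ((rr p T0 : ℝ) : ℂ) (fun i => φ (P i)))
    (closed_ICE φ f _ _ hF0 hr)
    (fun g d0 d1 a0 n0 a1 n1 hc j hj h =>
      leaf_unit φ f hT0 g d0 d1 a0 n0 a1 n1 hc.1 j hj h.1 h.2)
    (fun g d0 a0 n0 m hm hc h κ hgj h0 h1 j hj => hcurve m hm fun hm2 =>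
      perV φ f _ _ hF0 g d0 a0 n0 m hm2 hc h κ hgj h0 h1 j hj)
    (fun g d1 a1 n1 m hm hc h κ hgj h0 h1 j hj => hcurve m hm fun hm2 =>
      perU φ f _ _ hF0 g d1 a1 n1 m hm2 hc h κ hgj h0 h1 j hj)
    (fun g d0 d1 a0 n0 a1 n1 m gc gI hm hgc hgI hne' hc hcrit =>
      specE φ f hT0 _ hF0 hr g d0 d1 a0 n0 a1 n1 m gc gI hm hgc hgI hne' hc hcrit)
    (fun g d0 d1 a0 n0 a1 n1 hc hcrit ρ hρ h =>
      hc.1.2.hH0 (by rw [mul_comm]; exact crit_r hT0 _ _ hcrit) ρ (ord0_mp φ hρ)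
        (crit_r hT0 _ _ h))
    (fun g d0 d1 a0 n0 a1 n1 hc hcrit ρ hρ h =>
      hc.1.2.hH1 (by rw [mul_comm]; exact crit_r hT0 _ _ hcrit) ρ (ord1_mp φ hρ)
        (crit_r hT0 _ _ h))
    hT 0 1 0 1 (ice_init φ f _ P)
  refine (hCC 0 0 (fun h => absurd h not_crit01) (fun h => absurd h not_crit01)).congr
    isOpen_univ trivial fun C _ _ s _ => ?_
  rw [crr_false not_crit01, crr_false not_crit01, sub_zero, sub_zero]

/-- **The local theorem at `p`.** -/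
theorem local_pE (φ : ℚ_[p] →+* ℂ)
    (f : Fin 1 → A ℚ_[p]) {T0 : ℂ} (hT0 : T0 ≠ 0) (P : Fin 2 → ℚ_[p])
    (hr : LEv (fun i => φ (P i)) (mp φ (f 0)) ((rr p T0 : ℝ) : ℂ)) (hne : ∃ j, f j ≠ 0) :
    LReg T0 1 (Zc (Hn (nd f P) 0 1 0 1)) (0, 0) := by
  have hF0 := mp_ne' φ hne
  have hT : KT (nd f P) false false := exists_KT _ false false (tr_ne_zero f P hne) (by simp)
    (by simp)
  refine main_M hT0 1 (ICE φ f ((rr p T0 : ℝ) : ℂ) (fun i => φ (P i)))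
    (closed_ICE φ f _ _ hF0 hr) ?_ ?_ ?_ hT 0 1 0 1 (ice_init φ f _ P)
  · intro g d0 d1 a0 n0 a1 n1 hc j hj
    refine Or.inr (Or.inl ⟨rfl, ?_⟩)
    rw [← not_and_or]
    rintro ⟨h5, h6⟩
    exact leaf_unit φ f hT0 g d0 d1 a0 n0 a1 n1 hc.1 j hj h5 h6
  · intro g d0 a0 n0 m hm hc h κ hg h0 h1 j hj
    refine Or.inr (Or.inl ⟨rfl, ?_⟩)
    rw [← not_and_or]
    rintro ⟨h5, h6⟩
    obtain ⟨_, _, _, _, _, hO, _⟩ := Hn_curve g m h κ hg h0 h1 j hj 0 1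
    refine hc.1.2.hH0 (by rw [mul_comm]; exact crit_r hT0 _ _ h5) m (ord0_mp φ hO) ?_
    rw [zero_add]
    exact crit_r hT0 _ _ h6
  · intro g d1 a1 n1 m hm hc h κ hg h0 h1 j hj
    refine Or.inr (Or.inl ⟨rfl, ?_⟩)
    rw [← not_and_or]
    rintro ⟨h5, h6⟩
    obtain ⟨_, _, _, _, _, hO, _⟩ := Hn_curve (fun j => Y230.PT.sw (g j)) m (Y230.PT.sw h)
      (fun j => Y230.PT.sw (κ j)) (fun i => by simp only [hg, map_mul, map_pow])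
      (by rw [Y230.PT.cc_sw, h0]) (by rw [Y230.PT.pderiv_sw, Y230.PT.cc_sw]; exact h1) j
      (by rw [Y230.PT.cc_sw]; exact hj) 0 1
    simp only [r0_sw] at hO
    refine hc.1.2.hH1 (by rw [mul_comm]; exact crit_r hT0 _ _ h5) m (ord1_mp φ hO) ?_
    rw [zero_add]
    exact crit_r hT0 _ _ h6

end Pool.Agent.J4H50.NI
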