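import Pool.Agent.J4H50.NI.Ea
import Pool.Agent.J4H50.NI.OneD
import Pool.Agent.J4H50.NI.P3

set_option autoImplicit false
set_option linter.unusedSectionVars false

/-! # The law of a function which is quadratic on the fibres -/

namespace Pool.Agent.J4H50.NI

open MeasureTheory
open Pool.Agent.W427.SMC (msZ bsZ mu)
open Pool.Agent.Y230.PS (EP N0 N0_EP mem_N0)
open Pool.Agent.N138.SU Pool.Agent.N138.SV
open Pool.Agent.N316.SU (ppos plt norm_le_iff)
open Pool.Agent.J4H50.IG (hm pi_unique)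
open Pool.Agent.Y230.PT (rr)

attribute [local instance] msZ bsZ

variable {p : ℕ} [Fact p.Prime]

/-! ## Fubini -/

/-- the point with the coordinates `x` and `z` -/
def jo {A σ : Type} (x : σ → A) (z : A) : Option σ → A := fun o => o.elim z x

@[simp] theorem jo_none {A σ : Type} (x : σ → A) (z : A) : jo x z none = z := rfl

@[simp] theorem jo_some {A σ : Type} (x : σ → A) (z : A) (i : σ) : jo x z (some i) = x i := rfl

theorem jo_eta {A σ : Type} (y : Option σ → A) : jo (fun i => y (some i)) (y none) = y := by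
  funext o
  cases o <;> rfl

variable {σ : Type} [Fintype σ]

theorem jo_meas : Measurable fun z : (σ → ℤ_[p]) × ℤ_[p] => jo z.1 z.2 := by
  refine measurable_pi_lambda _ fun o => ?_
  cases o with
  | none => exact measurable_snd
  | some i => exact (measurable_pi_apply i).comp measurable_fst

theorem jo_map : ((hm p σ).prod (mu p)).map (fun z : (σ → ℤ_[p]) × ℤ_[p] => jo z.1 z.2) =
    hm p (Option σ) := by
  have i1 : IsProbabilityMeasure (((hm p σ).prod (mu p)).map
      (fun z : (σ → ℤ_[p]) × ℤ_[p] => jo z.1 z.2)) :=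
    Measure.isProbabilityMeasure_map jo_meas.aemeasurable
  have i2 : (((hm p σ).prod (mu p)).map
      (fun z : (σ → ℤ_[p]) × ℤ_[p] => jo z.1 z.2)).IsAddLeftInvariant := by
    refine ⟨fun v => ?_⟩
    rw [Measure.map_map (measurable_const_add v) jo_meas]
    have e1 : (fun y : Option σ → ℤ_[p] => v + y) ∘
        (fun z : (σ → ℤ_[p]) × ℤ_[p] => jo z.1 z.2) =
        (fun z : (σ → ℤ_[p]) × ℤ_[p] => jo z.1 z.2) ∘
          (fun z => ((fun i => v (some i)), v none) + z) := by
      funext z o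
      cases o <;> rfl
    rw [e1, ← Measure.map_map jo_meas (measurable_const_add _)]
    congr 1
    exact map_add_left_eq_self ((hm p σ).prod (mu p)) _
  first
    | exact (pi_unique _).symm
    | exact pi_unique _

theorem int_jo (H : (Option σ → ℤ_[p]) → ℂ) (hH : Measurable H) (hb : ∃ B : ℝ, ∀ z, ‖H z‖ ≤ B) :
    ∫ y, H y ∂(hm p (Option σ)) = ∫ x, ∫ z, H (jo x z) ∂(mu p) ∂(hm p σ) := by
  obtain ⟨B, hB⟩ := hb
  rw [← jo_map, integral_map jo_meas.aemeasurable hH.aestronglyMeasurable]
  have hi : Integrable (fun z : (σ → ℤ_[p]) × ℤ_[p] => H (jo z.1 z.2)) ((hm p σ).prod (mu p)) :=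
    Integrable.of_bound (hH.comp jo_meas).aestronglyMeasurable B
      (Filter.Eventually.of_forall fun z => hB _)
  exact integral_prod _ hi

/-! ## the fibres -/

theorem isom_mul (s : ℤ_[p]) (hs : ‖s‖ = 1) : Isometry fun t : ℤ_[p] => s * t := by
  refine Isometry.of_dist_eq fun x y => ?_
  rw [dist_eq_norm, dist_eq_norm, ← mul_sub, norm_mul, hs, one_mul]

theorem root_unit {L : ℕ} (hL : 3 ≤ L) (a : ℤ_[p]) :
    ∃ s : ℤ_[p], s ^ 2 = 1 + (p : ℤ_[p]) ^ L * a ∧ ‖s‖ = 1 := by
  obtain ⟨s, hs, -⟩ := sqrt_one L hL a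
  refine ⟨s, hs, ?_⟩
  have h1 : ‖s ^ 2‖ = 1 := by
    rw [hs]
    exact vt_norm (by omega : 1 ≤ L) a
  rw [norm_pow] at h1
  exact (pow_eq_one_iff_of_nonneg (norm_nonneg _) (by norm_num)).1 h1

theorem fib {N L : ℕ} (hN : 3 ≤ N) (hL : N ≤ L) (γ c ε : ℤ_[p]) (w : ℤ_[p] → ℤ_[p])
    (hw : Isometry w) (h : ℤ_[p] → ℂ) (hh : Measurable h) (hb : ∃ B : ℝ, ∀ z, ‖h z‖ ≤ B) :
    ∫ t, ∫ z, h (vt N t * (γ + c * w z ^ 2)) ∂(mu p) ∂(mu p) =
      ∫ t, ∫ z, h (vt N t * ((1 + (p : ℤ_[p]) ^ L * ε) * γ + c * z ^ 2)) ∂(mu p) ∂(mu p) := by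
  obtain ⟨B, hB⟩ := hb
  obtain ⟨s, hs, hs1⟩ := root_unit (by omega : 3 ≤ L) ε
  have hc : ∀ v : ℤ_[p], Continuous fun z : ℤ_[p] => v * (γ + c * z ^ 2) := fun v =>
    continuous_const.mul (continuous_const.add (continuous_const.mul (continuous_id.pow 2)))
  have h1 : ∀ t : ℤ_[p], ∫ z, h (vt N t * (γ + c * w z ^ 2)) ∂(mu p) =
      ∫ z, h (vt N t * (γ + c * z ^ 2)) ∂(mu p) := fun t =>
    Pool.Agent.N138.RF.S1.int_isom w hw (fun z => h (vt N t * (γ + c * z ^ 2)))
      (hh.comp (hc _).measurable)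
  simp only [h1]
  set f : ℤ_[p] → ℂ := fun v => ∫ z, h (v * (γ + c * z ^ 2)) ∂(mu p) with hf
  have hm : Measurable (fun z : ℤ_[p] × ℤ_[p] => h (z.1 * (γ + c * z.2 ^ 2))) :=
    hh.comp (continuous_fst.mul (continuous_const.add (continuous_const.mul
      (continuous_snd.pow 2)))).measurable
  have hfm : Measurable f := by
    have h1 : StronglyMeasurable
        (Function.uncurry fun (v : ℤ_[p]) (z : ℤ_[p]) => h (v * (γ + c * z ^ 2))) :=
      hm.stronglyMeasurable
    exact h1.integral_prod_right.measurable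
  have h2 := av_subst (by omega : 1 ≤ N) (1 + (p : ℤ_[p]) ^ L * ε) (by
    refine (vt_near L ε).trans ?_
    exact pow_le_pow_of_le_one ppos.le plt.le hL) f hfm
  rw [← h2]
  refine integral_congr_ae (Filter.Eventually.of_forall fun t => ?_)
  beta_reduce
  rw [hf]
  beta_reduce
  have h3 := Pool.Agent.N138.RF.S1.int_isom (fun z : ℤ_[p] => s * z) (isom_mul s hs1)
    (fun z => h (vt N t * ((1 + (p : ℤ_[p]) ^ L * ε) * γ + c * z ^ 2)))
    (hh.comp (continuous_const.mul (continuous_const.add (continuous_const.mul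
      (continuous_id.pow 2)))).measurable)
  rw [← h3]
  refine integral_congr_ae (Filter.Eventually.of_forall fun z => ?_)
  beta_reduce
  congr 1
  rw [mul_pow, hs]
  ring

/-- the exponential sums of a square -/
noncomputable def E2 (c : ℤ_[p]) : ℕ → ℤ_[p] → ℂ := Es (mu p) (fun z => c * z ^ 2)

theorem sq_meas (c : ℤ_[p]) : Measurable fun z : ℤ_[p] => c * z ^ 2 :=
  (continuous_const.mul (continuous_id.pow 2)).measurable

theorem E2_LC {N : ℕ} (hN : 3 ≤ N) (c : ℤ_[p]) : LC N (E2 c) := by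
  intro e u v hv
  obtain ⟨a, ha⟩ := (norm_le_iff _ N).1 hv
  obtain ⟨s, hs, hs1⟩ := root_unit hN a
  have hv1 : v = s ^ 2 := by rw [hs, ← ha]; ring
  unfold E2 Es
  have h3 := Pool.Agent.N138.RF.S1.int_isom (fun z : ℤ_[p] => s * z) (isom_mul s hs1)
    (fun z => psi p e (u * (c * z ^ 2)))
    ((Pool.Agent.N138.SU.B3.psi_meas e).comp (continuous_const.mul (continuous_const.mul
      (continuous_id.pow 2))).measurable)
  rw [← h3]
  refine integral_congr_ae (Filter.Eventually.of_forall fun z => ?_)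
  beta_reduce
  rw [hv1]
  congr 1
  ring

/-- **The average of the exponential sums of a function which is quadratic on the fibres.** -/
theorem law {N L : ℕ} (hN : 3 ≤ N) (hL : N ≤ L) (φ : (Option σ → ℤ_[p]) → ℤ_[p])
    (hφ : Measurable φ) (ψ : (σ → ℤ_[p]) → ℤ_[p]) (hψ : Measurable ψ) (c : ℤ_[p])
    (H : ∀ x, ∃ (γ ε : ℤ_[p]) (w : ℤ_[p] → ℤ_[p]), Isometry w ∧
      (∀ z, φ (jo x z) = γ + c * w z ^ 2) ∧ ψ x = (1 + (p : ℤ_[p]) ^ L * ε) * γ) :
    av N (Es (hm p (Option σ)) φ) = fun e u => av N (Es (hm p σ) ψ) e u * E2 c e u := by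
  funext e u
  have hpsi : Measurable fun z : ℤ_[p] => psi p e (u * z) :=
    (Pool.Agent.N138.SU.B3.psi_meas e).comp (continuous_const.mul continuous_id).measurable
  have hpb : ∀ z : ℤ_[p], ‖psi p e z‖ ≤ 1 := fun z => (Pool.Agent.N138.SU.B3.psi_norm e z).le
  -- the left side
  have h1 : ∀ t : ℤ_[p], Es (hm p (Option σ)) φ e (u * vt N t) =
      ∫ x, ∫ z, psi p e (u * (vt N t * φ (jo x z))) ∂(mu p) ∂(hm p σ) := by
    intro t
    unfold Es
    have := int_jo (fun y => psi p e (u * (vt N t * φ y)))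
      (hpsi.comp (measurable_const.mul hφ)) ⟨1, fun z => hpb _⟩
    rw [← this]
    refine integral_congr_ae (Filter.Eventually.of_forall fun y => ?_)
    beta_reduce
    rw [mul_assoc]
  have hm1 : Measurable fun q : ℤ_[p] × (σ → ℤ_[p]) =>
      ∫ z, psi p e (u * (vt N q.1 * φ (jo q.2 z))) ∂(mu p) := by
    have hm : Measurable fun q : (ℤ_[p] × (σ → ℤ_[p])) × ℤ_[p] =>
        psi p e (u * (vt N q.1.1 * φ (jo q.1.2 q.2))) := by
      have hj : Measurable fun q : (ℤ_[p] × (σ → ℤ_[p])) × ℤ_[p] => jo q.1.2 q.2 :=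
        jo_meas.comp ((measurable_snd.comp measurable_fst).prodMk measurable_snd)
      exact hpsi.comp (((vt_cont N).measurable.comp (measurable_fst.comp measurable_fst)).mul
        (hφ.comp hj))
    have h1 : StronglyMeasurable (Function.uncurry fun (q : ℤ_[p] × (σ → ℤ_[p])) (z : ℤ_[p]) =>
        psi p e (u * (vt N q.1 * φ (jo q.2 z)))) := hm.stronglyMeasurable
    exact h1.integral_prod_right.measurable
  have hi1 : Integrable (fun q : ℤ_[p] × (σ → ℤ_[p]) =>
      ∫ z, psi p e (u * (vt N q.1 * φ (jo q.2 z))) ∂(mu p)) ((mu p).prod (hm p σ)) := by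
    refine Integrable.of_bound hm1.aestronglyMeasurable 1 (Filter.Eventually.of_forall fun q => ?_)
    refine (norm_integral_le_of_norm_le_const (C := 1) (Filter.Eventually.of_forall fun y =>
      hpb _)).trans ?_
    rw [one_mul]
    exact measureReal_le_one
  have hm2 : Measurable fun q : ℤ_[p] × (σ → ℤ_[p]) =>
      ∫ z, psi p e (u * (vt N q.1 * (ψ q.2 + c * z ^ 2))) ∂(mu p) := by
    have hm : Measurable fun q : (ℤ_[p] × (σ → ℤ_[p])) × ℤ_[p] =>
        psi p e (u * (vt N q.1.1 * (ψ q.1.2 + c * q.2 ^ 2))) := by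
      refine hpsi.comp (((vt_cont N).measurable.comp (measurable_fst.comp measurable_fst)).mul ?_)
      exact (hψ.comp (measurable_snd.comp measurable_fst)).add
        ((sq_meas c).comp measurable_snd)
    have h1 : StronglyMeasurable (Function.uncurry fun (q : ℤ_[p] × (σ → ℤ_[p])) (z : ℤ_[p]) =>
        psi p e (u * (vt N q.1 * (ψ q.2 + c * z ^ 2)))) := hm.stronglyMeasurable
    exact h1.integral_prod_right.measurable
  have hi2 : Integrable (fun q : ℤ_[p] × (σ → ℤ_[p]) =>
      ∫ z, psi p e (u * (vt N q.1 * (ψ q.2 + c * z ^ 2))) ∂(mu p)) ((mu p).prod (hm p σ)) := by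
    refine Integrable.of_bound hm2.aestronglyMeasurable 1 (Filter.Eventually.of_forall fun q => ?_)
    refine (norm_integral_le_of_norm_le_const (C := 1) (Filter.Eventually.of_forall fun y =>
      hpb _)).trans ?_
    rw [one_mul]
    exact measureReal_le_one
  calc av N (Es (hm p (Option σ)) φ) e u
      = ∫ t, ∫ x, ∫ z, psi p e (u * (vt N t * φ (jo x z))) ∂(mu p) ∂(hm p σ) ∂(mu p) := by
        unfold av
        exact integral_congr_ae (Filter.Eventually.of_forall fun t => h1 t)
    _ = ∫ x, ∫ t, ∫ z, psi p e (u * (vt N t * φ (jo x z))) ∂(mu p) ∂(mu p) ∂(hm p σ) :=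
        integral_integral_swap hi1
    _ = ∫ x, ∫ t, ∫ z, psi p e (u * (vt N t * (ψ x + c * z ^ 2))) ∂(mu p) ∂(mu p) ∂(hm p σ) := by
        refine integral_congr_ae (Filter.Eventually.of_forall fun x => ?_)
        beta_reduce
        obtain ⟨γ, ε, w, hw, h2, h3⟩ := H x
        simp only [h2, h3]
        exact fib hN hL γ c ε w hw (fun z => psi p e (u * z)) hpsi ⟨1, fun z => hpb _⟩
    _ = ∫ t, ∫ x, ∫ z, psi p e (u * (vt N t * (ψ x + c * z ^ 2))) ∂(mu p) ∂(hm p σ) ∂(mu p) :=
        (integral_integral_swap hi2).symm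
    _ = ∫ t, Es (hm p σ) ψ e (u * vt N t) * E2 c e u ∂(mu p) := by
        refine integral_congr_ae (Filter.Eventually.of_forall fun t => ?_)
        beta_reduce
        have h4 : ∀ x, ∫ z, psi p e (u * (vt N t * (ψ x + c * z ^ 2))) ∂(mu p) =
            psi p e (u * vt N t * ψ x) * E2 c e u := by
          intro x
          rw [← E2_LC hN c e u _ (vt_near N t)]
          unfold E2 Es
          rw [← integral_const_mul]
          refine integral_congr_ae (Filter.Eventually.of_forall fun z => ?_)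
          beta_reduce
          rw [← Pool.Agent.N138.SU.B3.psi_add]
          congr 1
          ring
        simp only [h4]
        rw [integral_mul_const]
        rfl
    _ = av N (Es (hm p σ) ψ) e u * E2 c e u := by
        rw [integral_mul_const]
        rfl

/-- the components of the exponential sums of a square -/
theorem E2_mem (c : ℤ_[p]) (hc : c ≠ 0) (χ : UC p) :
    (fun e => hat (E2 c) χ e) ∈ EP (mS p {r | r = -1/2}) := by
  have h1 := Pool.Agent.N138.RF.Wh.t p (τ := Unit) (MvPolynomial.C c * MvPolynomial.X () ^ 2)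
    (fun _ => 1) 2 (fun _ => Nat.one_pos) (by norm_num) ?_ ?_
  · have h2 := h1.2 χ
    have h3 : (fun e : ℕ => Eh (Measure.pi fun _ : Unit => mu p)
        (fun y => MvPolynomial.eval y (MvPolynomial.C c * MvPolynomial.X () ^ 2)) χ e) =
        fun e => hat (E2 c) χ e := by
      funext e
      unfold Eh hat E2
      refine setIntegral_congr_fun Pool.Agent.N138.SU.B2C.meas_un fun u _ => ?_
      beta_reduce
      congr 1
      unfold Es
      have h4 := (measurePreserving_funUnique (mu p) Unit).integral_comp'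
        (fun z : ℤ_[p] => psi p e (u * (c * z ^ 2)))
      rw [← h4]
      refine integral_congr_ae (Filter.Eventually.of_forall fun y => ?_)
      simp only [map_mul, MvPolynomial.eval_C, map_pow, MvPolynomial.eval_X]
      rfl
    rw [h3] at h2
    refine Pool.Agent.Y230.TH.EP_mono (fun T _ => ?_) h2
    beta_reduce
    split_ifs with hT
    · have hp : (1 : ℝ) < p := by exact_mod_cast (Fact.out : p.Prime).one_lt
      have h5 : ‖T‖ ^ 2 = (p : ℝ) := by
        rw [← norm_pow, hT]
        simp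
      have h6 : 1 < ‖T‖ := by
        by_contra hn
        have : ‖T‖ ^ 2 ≤ 1 := pow_le_one₀ (norm_nonneg _) (not_lt.1 hn)
        linarith
      rw [mS_top h6]
      · exact le_top
      · show rr p T = -1/2
        unfold rr
        have h7 : Real.log p = 2 * Real.log ‖T‖ := by
          rw [← h5, Real.log_pow]
          norm_num
        have h8 : 0 < Real.log ‖T‖ := Real.log_pos h6
        rw [h7]
        field_simp
    · exact bot_le
  · have h2 := (MvPolynomial.isWeightedHomogeneous_C (R := ℤ_[p]) (σ := Unit) (fun _ => (1 : ℕ)) c).mul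
      ((MvPolynomial.isWeightedHomogeneous_X ℤ_[p] (fun _ : Unit => (1 : ℕ)) ()).pow 2)
    simpa using h2
  · intro z hz
    have h2 := hz ()
    have h3 : MvPolynomial.pderiv () (MvPolynomial.C c * MvPolynomial.X () ^ 2) =
        MvPolynomial.C (2 * c) * (MvPolynomial.X () : MvPolynomial Unit ℤ_[p]) := by
      rw [MvPolynomial.pderiv_C_mul, MvPolynomial.pderiv_pow, MvPolynomial.pderiv_X_self,
        map_mul, map_ofNat]
      ring
    rw [h3, map_mul] at h2
    simp only [MvPolynomial.eval₂_mul, MvPolynomial.eval₂_C, MvPolynomial.eval₂_X] at h2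
    funext i
    rcases mul_eq_zero.1 h2 with h4 | h4
    · exfalso
      have h5 : (2 * c : ℤ_[p]) = 0 := Subtype.ext h4
      rcases mul_eq_zero.1 h5 with h6 | h6
      · exact two_ne_zero h6
      · exact hc h6
    · exact h4

end Pool.Agent.J4H50.NI
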