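import Pool.Agent.J4H50.NI.Law
import Pool.Agent.J4H50.NI.Jt
import Pool.Agent.J4H50.IG.LocE
import Pool.Agent.N138.RF.G5
import Pool.Agent.N138.RF.E1

set_option autoImplicit false
set_option linter.unusedSectionVars false
set_option linter.unusedTactic false

/-! # Splitting off a square: the exponential sums -/

namespace Pool.Agent.J4H50.NI

open MeasureTheory MvPolynomial
open Pool.Agent.W427.SMC (msZ bsZ mu)
open Pool.Agent.Y230.PS (EP N0 N0_EP mem_N0)
open Pool.Agent.N138.SU Pool.Agent.N138.SV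
open Pool.Agent.N316.SU (ppos plt norm_le_iff)
open Pool.Agent.J4H50.IG (hm pi_unique mI scl scl_lift pderiv_scl eval_scl cz cz_inj lip
  exists_pow_mul_le mem_m_iff X_mem norm_p_pow_le eval_cz)
open Pool.Agent.Y230.PT (rr inc)

attribute [local instance] msZ bsZ

variable {p : ℕ} [Fact p.Prime]

/-- The averages of the exponential sums of the multiples of `G` on the small balls near the origin
are controlled by `B`. -/
def TD {σ : Type} [Fintype σ] (G : MvPolynomial σ ℚ_[p]) (B : Set ℝ) : Prop :=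
  ∀ N, 3 ≤ N → ∃ k0 : ℕ, ∀ k, k0 ≤ k → ∀ a : σ → ℤ_[p], (∀ i, ‖a i‖ ≤ ((p : ℝ)⁻¹) ^ k0) →
    ∀ c : ℚ_[p], c ≠ 0 → ∀ φ : (σ → ℤ_[p]) → ℤ_[p],
    (∀ y, inc p (φ y) = c * eval (fun i => inc p (a i + (p : ℤ_[p]) ^ k * y i)) G) →
    ∀ χ : UC p, (fun e => hat (av N (Es (hm p σ) φ)) χ e) ∈ EP (mS p B)

theorem mS_mono {B B' : Set ℝ} (h : B ⊆ B') (T : ℂ) : mS p B T ≤ mS p B' T := by
  by_cases h1 : 1 < ‖T‖ ∧ rr p T ∈ B
  · rw [mS_top h1.1 (h h1.2)]
    exact le_top
  · unfold mS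
    rw [if_neg h1]
    exact bot_le

theorem rr_mul {T1 T2 : ℂ} (h1 : T1 ≠ 0) (h2 : T2 ≠ 0) : rr p (T1 * T2) = rr p T1 + rr p T2 := by
  unfold rr
  rw [norm_mul, Real.log_mul (norm_ne_zero_iff.2 h1) (norm_ne_zero_iff.2 h2)]
  ring

variable {σ : Type} [Fintype σ] [DecidableEq σ]

theorem small_div (c0 : ℚ_[p]) : ∃ m : ℕ, ∀ k : ℕ, m ≤ k → ∃ δ : ℤ_[p],
    cz p δ = c0 * (p : ℚ_[p]) ^ k := by
  obtain ⟨m, hm⟩ := exists_pow_mul_le c0
  refine ⟨m, fun k hk => ?_⟩
  have h1 : ‖c0 * (p : ℚ_[p]) ^ k‖ ≤ 1 := by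
    have e : c0 * (p : ℚ_[p]) ^ k = (p : ℚ_[p]) ^ (k - m) * ((p : ℚ_[p]) ^ m * c0) := by
      rw [← mul_assoc, ← pow_add, Nat.sub_add_cancel hk, mul_comm]
    rw [e, norm_mul]
    exact mul_le_one₀ (norm_p_pow_le _) (norm_nonneg _) hm
  exact ⟨⟨_, h1⟩, rfl⟩

theorem scl_rename (c : ℚ_[p]) (q : MvPolynomial σ ℚ_[p]) :
    scl c (rename (some : σ → Option σ) q) = rename some (scl c q) := by
  unfold scl
  induction q using MvPolynomial.induction_on with
  | C a => rw [rename_C, aeval_C, aeval_C, algebraMap_eq, algebraMap_eq, rename_C]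
  | add f g hf hg => rw [map_add, map_add, hf, hg, map_add, map_add]
  | mul_X f i hf =>
    rw [map_mul, map_mul, hf, map_mul, map_mul, rename_X, aeval_X, aeval_X, map_mul, rename_C,
      rename_X]

/-- the function in small coordinates -/
theorem scale (c0 : ℚ_[p]) (hc0 : c0 ≠ 0) (F : MvPolynomial (Option σ) ℚ_[p])
    (g0 : MvPolynomial σ ℚ_[p])
    (hF : F - (C c0 * X none ^ 2 + rename some g0) ∈ mI (Option σ) ℚ_[p] ^ 3)
    (A : MvPolynomial (Option σ) ℚ_[p]) (hA : constantCoeff A = 1) (L : ℕ) :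
    ∃ (k1 : ℕ) (Ψ A1 : MvPolynomial (Option σ) ℤ_[p]),
      scl ((p : ℚ_[p]) ^ k1) F = rename some (scl ((p : ℚ_[p]) ^ k1) (z0 F)) +
        C (c0 * (p : ℚ_[p]) ^ (2 * k1)) * (X none ^ 2 + C ((p : ℚ_[p]) ^ L) *
          (X none * map (cz p) Ψ)) ∧
      scl ((p : ℚ_[p]) ^ k1) A = 1 + C ((p : ℚ_[p]) ^ L) * map (cz p) A1 := by
  have hp0 : (p : ℚ_[p]) ≠ 0 := by exact_mod_cast (Fact.out : p.Prime).ne_zero
  set r := F - (C c0 * X none ^ 2 + rename some g0) with hr
  obtain ⟨a, ha, hra⟩ := z_part (K := ℚ_[p]) 2 (r := r) hF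
  obtain ⟨s1, hs1⟩ := scl_lift (p := p) 1 a ha
  have hA1 : A - 1 ∈ mI (Option σ) ℚ_[p] ^ (0 + 1) := by
    rw [zero_add, pow_one, mem_m_iff, map_sub, hA, map_one, sub_self]
  obtain ⟨s2, hs2⟩ := scl_lift (p := p) 0 (A - 1) hA1
  obtain ⟨m, hm⟩ := small_div (p := p) c0⁻¹
  set k1 := s1 + s2 + L + m with hk1
  obtain ⟨η, hη⟩ := hs1 k1 (by omega)
  obtain ⟨η2, hη2⟩ := hs2 k1 (by omega)
  obtain ⟨δ, hδ⟩ := hm (k1 - s1 - L) (by omega)
  clear_value k1
  refine ⟨k1, C δ * η, C ((p : ℤ_[p]) ^ (k1 - s2 - L)) * η2, ?_, ?_⟩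
  · have hz : z0 F = g0 + z0 r := by
      have : F = C c0 * X none ^ 2 + rename some g0 + r := by rw [hr]; ring
      conv_lhs => rw [this]
      rw [map_add, map_add, map_mul, map_pow, z0_none, z0_rename]
      ring
    have hFe : F = rename some (z0 F) + (C c0 * X none ^ 2 + X none * a) := by
      rw [hz, map_add]
      have : F = C c0 * X none ^ 2 + rename some g0 + r := by rw [hr]; ring
      conv_lhs => rw [this, hra]
      ring
    have hsc : ∀ x y : MvPolynomial (Option σ) ℚ_[p], scl ((p : ℚ_[p]) ^ k1) (x + y) =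
        scl ((p : ℚ_[p]) ^ k1) x + scl ((p : ℚ_[p]) ^ k1) y := fun x y => by
      unfold scl; rw [map_add]
    have hsm : ∀ x y : MvPolynomial (Option σ) ℚ_[p], scl ((p : ℚ_[p]) ^ k1) (x * y) =
        scl ((p : ℚ_[p]) ^ k1) x * scl ((p : ℚ_[p]) ^ k1) y := fun x y => by
      unfold scl; rw [map_mul]
    have hsX : scl ((p : ℚ_[p]) ^ k1) (X none : MvPolynomial (Option σ) ℚ_[p]) =
        C ((p : ℚ_[p]) ^ k1) * X none := by
      unfold scl; rw [aeval_X]
    have hsC : scl ((p : ℚ_[p]) ^ k1) (C c0 : MvPolynomial (Option σ) ℚ_[p]) = C c0 := by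
      unfold scl; rw [aeval_C, algebraMap_eq]
    have hsr : scl ((p : ℚ_[p]) ^ k1) (rename some (z0 F)) =
        rename some (scl ((p : ℚ_[p]) ^ k1) (z0 F)) := scl_rename _ _
    conv_lhs => rw [hFe]
    rw [hsc, hsr, hsc, hsm, pow_two, hsm, hsm, hsX, hsC, hη]
    rw [map_mul (map (cz p)), map_C, hδ]
    congr 1
    have e1 : (p : ℚ_[p]) ^ (k1 - s1) = c0 * (p : ℚ_[p]) ^ L * (c0⁻¹ * (p : ℚ_[p]) ^ (k1 - s1 - L)) := by
      have : k1 - s1 = L + (k1 - s1 - L) := by omega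
      conv_lhs => rw [this, pow_add]
      field_simp
    rw [e1, one_mul, two_mul k1, pow_add]
    simp only [map_mul]
    ring
  · have e0 : A = 1 + (A - 1) := by ring
    have hsc : ∀ x y : MvPolynomial (Option σ) ℚ_[p], scl ((p : ℚ_[p]) ^ k1) (x + y) =
        scl ((p : ℚ_[p]) ^ k1) x + scl ((p : ℚ_[p]) ^ k1) y := fun x y => by
      unfold scl; rw [map_add]
    have hs1 : scl ((p : ℚ_[p]) ^ k1) (1 : MvPolynomial (Option σ) ℚ_[p]) = 1 := by
      unfold scl; rw [map_one]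
    conv_lhs => rw [e0]
    rw [hsc, hs1, hη2]
    congr 1
    have e2 : cz p ((p : ℤ_[p]) ^ (k1 - s2 - L)) = (p : ℚ_[p]) ^ (k1 - s2 - L) := by
      rw [map_pow, map_natCast]
    rw [map_mul (map (cz p)), map_C, e2, zero_mul, pow_zero, one_mul]
    have e1 : (p : ℚ_[p]) ^ (k1 - s2) = (p : ℚ_[p]) ^ L * (p : ℚ_[p]) ^ (k1 - s2 - L) := by
      rw [← pow_add]
      congr 1
      omega
    rw [e1, map_mul]
    ring

/-- the polynomial on the fibre -/
noncomputable def fibp (ξ : σ → ℤ_[p]) (Q : MvPolynomial (Option σ) ℤ_[p]) : Polynomial ℤ_[p] :=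
  aeval (fun o : Option σ => o.elim Polynomial.X fun i => Polynomial.C (ξ i)) Q

theorem fibp_eval (ξ : σ → ℤ_[p]) (Q : MvPolynomial (Option σ) ℤ_[p]) (z : ℤ_[p]) :
    (fibp ξ Q).eval z = eval (jo ξ z) Q := by
  unfold fibp
  induction Q using MvPolynomial.induction_on with
  | C a => rw [aeval_C, eval_C, Polynomial.algebraMap_eq, Polynomial.eval_C]
  | add f g hf hg => rw [map_add, Polynomial.eval_add, hf, hg, map_add]
  | mul_X f i hf =>
    rw [map_mul, Polynomial.eval_mul, hf, map_mul, aeval_X, eval_X]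
    congr 1
    cases i with
    | none => exact Polynomial.eval_X
    | some i => exact Polynomial.eval_C

theorem fibp_der (ξ : σ → ℤ_[p]) (Q : MvPolynomial (Option σ) ℤ_[p]) :
    Polynomial.derivative (fibp ξ Q) = fibp ξ (pderiv none Q) := by
  unfold fibp
  induction Q using MvPolynomial.induction_on with
  | C a => rw [aeval_C, Polynomial.algebraMap_eq, Polynomial.derivative_C, pderiv_C, map_zero]
  | add f g hf hg => rw [map_add, Polynomial.derivative_add, hf, hg, map_add, map_add]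
  | mul_X f i hf =>
    rw [map_mul, Polynomial.derivative_mul, hf, Derivation.leibniz, map_add, smul_eq_mul,
      smul_eq_mul, map_mul, map_mul, aeval_X]
    cases i with
    | none =>
      rw [pderiv_X_self, map_one]
      simp only [Option.elim_none, Polynomial.derivative_X]
      ring
    | some i =>
      rw [pderiv_X_of_ne (by simp)]
      simp only [Option.elim_some, Polynomial.derivative_C, map_zero]
      ring

end Pool.Agent.J4H50.NI
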