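import Pool.Agent.J4H50.NI.Step

set_option autoImplicit false
set_option linter.unusedSectionVars false
set_option linter.unusedTactic false

/-! # Splitting off a square: the exponential sums, the theorem -/

namespace Pool.Agent.J4H50.NI

open MeasureTheory MvPolynomial
open Pool.Agent.W427.SMC (msZ bsZ mu)
open Pool.Agent.Y230.PS (EP N0 N0_EP mem_N0)
open Pool.Agent.N138.SU Pool.Agent.N138.SV
open Pool.Agent.N316.SU (ppos plt norm_le_iff)
open Pool.Agent.N138.RF (IsM)
open Pool.Agent.J4H50.IG (hm pi_unique mI scl scl_lift pderiv_scl eval_scl cz cz_inj lip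
  exists_pow_mul_le mem_m_iff X_mem norm_p_pow_le eval_cz isom_onto)
open Pool.Agent.Y230.PT (rr inc)

attribute [local instance] msZ bsZ

variable {p : ℕ} [Fact p.Prime]

section gen

variable {σ : Type} [Fintype σ]

/-- the functions of multiples of polynomials on balls are functions of polynomials -/
theorem isM_ball (G : MvPolynomial σ ℚ_[p]) (k : ℕ) (a : σ → ℤ_[p]) (c : ℚ_[p])
    (φ : (σ → ℤ_[p]) → ℤ_[p])
    (hφ : ∀ y, inc p (φ y) = c * eval (fun i => inc p (a i + (p : ℤ_[p]) ^ k * y i)) G) :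
    IsM (C c * Pool.Agent.N138.RF.G5.sub ((p : ℚ_[p]) ^ k) (fun i => inc p (a i)) G) φ := by
  intro y
  rw [hφ, map_mul, eval_C, Pool.Agent.N138.RF.G5.eval_sub]
  congr 3

theorem ball_meas (G : MvPolynomial σ ℚ_[p]) (k : ℕ) (a : σ → ℤ_[p]) (c : ℚ_[p])
    (φ : (σ → ℤ_[p]) → ℤ_[p])
    (hφ : ∀ y, inc p (φ y) = c * eval (fun i => inc p (a i + (p : ℤ_[p]) ^ k * y i)) G) :
    Measurable φ :=
  Pool.Agent.N138.RF.E1.IsM_meas (isM_ball G k a c φ hφ)

/-- the balls without critical points -/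
theorem av_nc (G : MvPolynomial σ ℚ_[p]) (k : ℕ) (a : σ → ℤ_[p]) (c : ℚ_[p]) (hc : c ≠ 0)
    (φ : (σ → ℤ_[p]) → ℤ_[p])
    (hφ : ∀ y, inc p (φ y) = c * eval (fun i => inc p (a i + (p : ℤ_[p]) ^ k * y i)) G)
    (i : σ) (hi : ∀ y : σ → ℤ_[p],
      eval (fun i => inc p (a i + (p : ℤ_[p]) ^ k * y i)) (pderiv i G) ≠ 0)
    {N : ℕ} (hN : 1 ≤ N) (χ : UC p) (m : ℂ → ℕ∞) :
    (fun e => hat (av N (Es (hm p σ) φ)) χ e) ∈ EP m := by
  have hφm := ball_meas G k a c φ hφ
  have hpk : (p : ℚ_[p]) ^ k ≠ 0 :=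
    pow_ne_zero _ (by exact_mod_cast (Fact.out : p.Prime).ne_zero)
  refine hat_av_mem hN _ (Es_meas (hm p σ) φ hφm) (Es_norm (hm p σ) φ) χ m ?_
  have h1 := Pool.Agent.N138.RF.S.t p _ φ (isM_ball G k a c φ hφ) ?_ 0
  · simp only [sub_zero] at h1
    exact Pool.Agent.Y230.TH.EP_mono (fun T _ => bot_le) (h1.2 χ)
  · intro x
    refine ⟨i, ?_⟩
    rw [pderiv_C_mul, Pool.Agent.N138.RF.G5.pderiv_sub, map_mul, map_mul, eval_C, eval_C,
      Pool.Agent.N138.RF.G5.eval_sub]
    refine mul_ne_zero hc (mul_ne_zero hpk ?_)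
    have h2 := hi x
    have e1 : (fun i => inc p (a i + (p : ℤ_[p]) ^ k * x i)) =
        fun i => inc p (a i) + (p : ℚ_[p]) ^ k * inc p (x i) := by
      funext i
      exact Pool.Agent.N138.RF.G5.inc_lin _ _ _
    rw [e1] at h2
    exact h2

end gen

variable {σ : Type} [Fintype σ] [DecidableEq σ]

theorem pderiv_rename_some_none (q : MvPolynomial σ ℚ_[p]) :
    pderiv none (rename (some : σ → Option σ) q) = 0 := by
  apply pderiv_eq_zero_of_notMem_vars
  intro h
  have h1 := vars_rename some q h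
  simp at h1

/-- **Splitting off a square.** -/
theorem step (c0 : ℚ_[p]) (hc0 : c0 ≠ 0) (F : MvPolynomial (Option σ) ℚ_[p])
    (g0 : MvPolynomial σ ℚ_[p])
    (hF : F - (C c0 * X none ^ 2 + rename some g0) ∈ mI (Option σ) ℚ_[p] ^ 3)
    (A B : MvPolynomial (Option σ) ℚ_[p]) (hA : constantCoeff A = 1) (D : MvPolynomial σ ℚ_[p])
    (hD : A * F + B * pderiv none F = rename some D) (BF BD : Set ℝ)
    (hB : ∀ r ∈ BD, r - 1/2 ∈ BF) (h0 : D = 0 → (-1/2 : ℝ) ∈ BF) (h1 : D ≠ 0 → TD D BD) :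
    TD F BF := by
  intro N hN
  have hp0 : (p : ℚ_[p]) ≠ 0 := by exact_mod_cast (Fact.out : p.Prime).ne_zero
  have hpz : (p : ℤ_[p]) ≠ 0 := by exact_mod_cast (Fact.out : p.Prime).ne_zero
  obtain ⟨k1, Ψ, A1, hsF, hsA⟩ := scale c0 hc0 F g0 hF A hA N
  have hk2 : ∃ k2 : ℕ, D ≠ 0 → ∀ k, k2 ≤ k → ∀ a : σ → ℤ_[p],
      (∀ i, ‖a i‖ ≤ ((p : ℝ)⁻¹) ^ k2) → ∀ c : ℚ_[p], c ≠ 0 → ∀ φ : (σ → ℤ_[p]) → ℤ_[p],
      (∀ y, inc p (φ y) = c * eval (fun i => inc p (a i + (p : ℤ_[p]) ^ k * y i)) D) →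
      ∀ χ : UC p, (fun e => hat (av N (Es (hm p σ) φ)) χ e) ∈ EP (mS p BD) := by
    by_cases hD0 : D = 0
    · exact ⟨0, fun h => absurd hD0 h⟩
    · obtain ⟨k2, h⟩ := h1 hD0 N hN
      exact ⟨k2, fun _ => h⟩
  obtain ⟨k2, hk2⟩ := hk2
  refine ⟨k1 + k2, fun k hk a ha c hc φ hφ χ => ?_⟩
  obtain ⟨j, rfl⟩ : ∃ j, k = k1 + j := ⟨k - k1, by omega⟩
  have ha1 : ∀ i, (p : ℤ_[p]) ^ k1 ∣ a i := fun i => (norm_le_iff _ _).1 ((ha i).trans
    (pow_le_pow_of_le_one ppos.le plt.le (by omega)))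
  choose a' ha' using ha1
  set pt : (Option σ → ℤ_[p]) → Option σ → ℤ_[p] := fun y i => a' i + (p : ℤ_[p]) ^ j * y i with hpt
  have hpe : ∀ y i, a i + (p : ℤ_[p]) ^ (k1 + j) * y i = (p : ℤ_[p]) ^ k1 * pt y i := by
    intro y i
    rw [hpt, ha' i, pow_add]
    ring
  have hinc : ∀ x : ℤ_[p], inc p x = cz p x := fun x => rfl
  have hev : ∀ (Q : MvPolynomial (Option σ) ℚ_[p]) (y : Option σ → ℤ_[p]),
      eval (fun i => inc p (a i + (p : ℤ_[p]) ^ (k1 + j) * y i)) Q =
        eval (fun i => cz p (pt y i)) (scl ((p : ℚ_[p]) ^ k1) Q) := by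
    intro Q y
    rw [eval_scl]
    congr 2
    funext i
    rw [hpe, hinc, map_mul, map_pow, map_natCast]
  have hcz2 : ∀ u v : ℤ_[p], cz p (u ^ 2 + (p : ℤ_[p]) ^ N * (u * v)) =
      cz p u ^ 2 + (p : ℚ_[p]) ^ N * (cz p u * cz p v) := by
    intro u v
    rw [map_add, map_pow, map_mul, map_mul, map_pow, map_natCast]
  have hcz3 : ∀ u v : ℤ_[p], cz p (2 * u + (p : ℤ_[p]) ^ N * v) =
      2 * cz p u + (p : ℚ_[p]) ^ N * cz p v := by
    intro u v
    rw [map_add, map_mul, map_mul, map_pow, map_natCast, map_ofNat]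
  have hFe : ∀ y, eval (fun i => inc p (a i + (p : ℤ_[p]) ^ (k1 + j) * y i)) F =
      eval (fun i : σ => cz p (pt y (some i))) (scl ((p : ℚ_[p]) ^ k1) (z0 F)) +
        c0 * (p : ℚ_[p]) ^ (2 * k1) * cz p (pt y none ^ 2 +
          (p : ℤ_[p]) ^ N * (pt y none * eval (pt y) Ψ)) := by
    intro y
    rw [hev, hsF, map_add, eval_rename, map_mul, eval_C, map_add, map_pow, eval_X, map_mul, eval_C,
      map_mul, eval_X, ← eval_cz, hcz2]
    rfl
  set Θ : (Option σ → ℤ_[p]) → ℤ_[p] := fun x => 2 * x none +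
    (p : ℤ_[p]) ^ N * eval x (pderiv none (X none * Ψ)) with hΘ
  have hdF : ∀ y, (p : ℚ_[p]) ^ k1 *
      eval (fun i => inc p (a i + (p : ℤ_[p]) ^ (k1 + j) * y i)) (pderiv none F) =
      c0 * (p : ℚ_[p]) ^ (2 * k1) * cz p (Θ (pt y)) := by
    intro y
    have e1 := congrArg (pderiv none) hsF
    rw [pderiv_scl, map_add, pderiv_rename_some_none, zero_add, pderiv_C_mul, map_add,
      pderiv_C_mul] at e1
    have e2 : pderiv none (X none * map (cz p) Ψ) = map (cz p) (pderiv none (X none * Ψ)) := by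
      rw [← pderiv_map, map_mul (map (cz p)), map_X]
    have e3 : pderiv none (X none ^ 2 : MvPolynomial (Option σ) ℚ_[p]) = C 2 * X none := by
      rw [pderiv_pow, pderiv_X_self, map_ofNat]
      norm_num
    rw [e2, e3] at e1
    have e4 := congrArg (eval fun i => cz p (pt y i)) e1
    rw [map_mul, eval_C, ← hev] at e4
    rw [e4, map_mul, eval_C, map_add, map_mul, eval_C, eval_X, map_mul, eval_C, ← eval_cz]
    rw [hΘ]
    beta_reduce
    rw [hcz3]
  have hAe : ∀ y, eval (fun i => inc p (a i + (p : ℤ_[p]) ^ (k1 + j) * y i)) A =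
      cz p (1 + (p : ℤ_[p]) ^ N * eval (pt y) A1) := by
    intro y
    rw [hev, hsA, map_add, map_one, map_mul, eval_C, ← eval_cz, map_add, map_one, map_mul, map_pow,
      map_natCast]
  have hpk : (p : ℚ_[p]) ^ k1 ≠ 0 := pow_ne_zero _ hp0
  have hck : c0 * (p : ℚ_[p]) ^ (2 * k1) ≠ 0 := mul_ne_zero hc0 (pow_ne_zero _ hp0)
  have hcz : ∀ x : ℤ_[p], cz p x = 0 → x = 0 := fun x hx => cz_inj (hx.trans (map_zero _).symm)
  by_cases hcase : ∀ y, Θ (pt y) ≠ 0
  · -- no critical points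
    refine av_nc F (k1 + j) a c hc φ hφ none (fun y h2 => ?_) (by omega) χ _
    have h3 := hdF y
    rw [h2, mul_zero] at h3
    rcases mul_eq_zero.1 h3.symm with h4 | h4
    · exact hck h4
    · exact hcase y (hcz _ h4)
  · push Not at hcase
    obtain ⟨y1, hy1⟩ := hcase
    set b : ℤ_[p] := pt y1 none with hb
    -- the fibres
    have hfib : ∀ x : σ → ℤ_[p], ∃ (z0' : ℤ_[p]) (w : ℤ_[p] → ℤ_[p]), Isometry w ∧
        Θ (pt (jo x z0')) = 0 ∧ ∀ z, inc p (φ (jo x z)) = inc p (φ (jo x z0')) +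
          c * (c0 * (p : ℚ_[p]) ^ (2 * k1)) * (p : ℚ_[p]) ^ (2 * j) * cz p (w z) ^ 2 := by
      intro x
      set ξ : σ → ℤ_[p] := fun i => a' (some i) + (p : ℤ_[p]) ^ j * x i with hξ
      have hptj : ∀ z, pt (jo x z) = jo ξ (a' none + (p : ℤ_[p]) ^ j * z) := by
        intro z
        funext o
        cases o <;> rfl
      have hβ : ∃ β : ℤ_[p], 2 * b + (p : ℤ_[p]) ^ N *
          (Polynomial.derivative (fibp ξ (X none * Ψ))).eval b = (p : ℤ_[p]) ^ (N + j) * β := by
        have e1 : ‖eval (jo ξ b) (pderiv none (X none * Ψ)) -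
            eval (pt y1) (pderiv none (X none * Ψ))‖ ≤ ((p : ℝ)⁻¹) ^ j := by
          refine (lip _ _ _).trans ?_
          refine (pi_norm_le_iff_of_nonneg (pow_pos ppos _).le).2 fun o => ?_
          cases o with
          | none =>
            rw [Pi.sub_apply, jo_none, hb, sub_self, norm_zero]
            exact (pow_pos ppos _).le
          | some i =>
            rw [Pi.sub_apply, jo_some, hξ, hpt]
            beta_reduce
            rw [show a' (some i) + (p : ℤ_[p]) ^ j * x i - (a' (some i) +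
              (p : ℤ_[p]) ^ j * y1 (some i)) = (p : ℤ_[p]) ^ j * (x i - y1 (some i)) by ring]
            rw [norm_mul, norm_pow, PadicInt.norm_p]
            exact mul_le_of_le_one_right (pow_pos ppos _).le (PadicInt.norm_le_one _)
        obtain ⟨β, hβ⟩ := (norm_le_iff _ _).1 e1
        refine ⟨β, ?_⟩
        rw [fibp_der, fibp_eval]
        have e2 : 2 * b + (p : ℤ_[p]) ^ N * eval (pt y1) (pderiv none (X none * Ψ)) = 0 := hy1
        rw [pow_add, mul_assoc, ← hβ]
        linear_combination e2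
      obtain ⟨β, hβ⟩ := hβ
      obtain ⟨z1, w, hw, hz1, hz2⟩ := oneD_ball N hN (fibp ξ (X none * Ψ)) b j β hβ
      have hbz : ∀ z, a' none + (p : ℤ_[p]) ^ j * z = b + (p : ℤ_[p]) ^ j * (z - y1 none) := by
        intro z
        rw [hb, hpt]
        ring
      refine ⟨z1 + y1 none, fun z => w (z - y1 none), ?_, ?_, ?_⟩
      · exact hw.comp (Isometry.of_dist_eq fun u v => by
          rw [dist_eq_norm, dist_eq_norm, sub_sub_sub_cancel_right])
      · rw [hptj, hbz, add_sub_cancel_right, hΘ]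
        beta_reduce
        rw [jo_none, ← fibp_eval, ← fibp_der]
        exact hz1
      · intro z
        have e3 : ∀ z, inc p (φ (jo x z)) = c * (eval (fun i : σ => cz p (ξ i))
            (scl ((p : ℚ_[p]) ^ k1) (z0 F)) + c0 * (p : ℚ_[p]) ^ (2 * k1) *
            cz p ((b + (p : ℤ_[p]) ^ j * (z - y1 none)) ^ 2 + (p : ℤ_[p]) ^ N *
              (fibp ξ (X none * Ψ)).eval (b + (p : ℤ_[p]) ^ j * (z - y1 none)))) := by
          intro z
          rw [hφ, hFe, hptj, jo_none, fibp_eval, map_mul, eval_X, jo_none, hbz]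
          rfl
        rw [e3, e3, add_sub_cancel_right, hz2, map_add, map_mul (cz p) ((p : ℤ_[p]) ^ (2 * j)),
          map_pow (cz p) (p : ℤ_[p]), map_natCast, map_pow (cz p) (w _)]
        ring
    choose zc w hw hΘ0 hfz using hfib
    -- the constant of the square
    obtain ⟨z1, hz1⟩ := isom_onto (w 0) (hw 0) 1
    obtain ⟨c1, hc1⟩ : ∃ c1 : ℤ_[p], cz p c1 =
        c * (c0 * (p : ℚ_[p]) ^ (2 * k1)) * (p : ℚ_[p]) ^ (2 * j) := by
      refine ⟨φ (jo 0 z1) - φ (jo 0 (zc 0)), ?_⟩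
      have e1 := hfz 0 z1
      rw [hz1, map_one, one_pow, mul_one] at e1
      rw [map_sub]
      change inc p _ - inc p _ = _
      rw [e1]
      ring
    have hc1' : c1 ≠ 0 := by
      intro h
      rw [h, map_zero] at hc1
      exact mul_ne_zero (mul_ne_zero hc hck) (pow_ne_zero _ hp0) hc1.symm
    -- the discriminant
    set ψ : (σ → ℤ_[p]) → ℤ_[p] := fun x =>
      (1 + (p : ℤ_[p]) ^ N * eval (pt (jo x (zc x))) A1) * φ (jo x (zc x)) with hψ
    have hψD : ∀ x, inc p (ψ x) = c * eval (fun i => inc p (a (some i) +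
        (p : ℤ_[p]) ^ (k1 + j) * x i)) D := by
      intro x
      have e1 := congrArg (eval fun i => inc p (a i + (p : ℤ_[p]) ^ (k1 + j) * (jo x (zc x)) i)) hD
      have e2 : eval (fun i => inc p (a i + (p : ℤ_[p]) ^ (k1 + j) * (jo x (zc x)) i))
          (pderiv none F) = 0 := by
        have e3 := hdF (jo x (zc x))
        rw [hΘ0, map_zero, mul_zero] at e3
        exact (mul_eq_zero.1 e3).resolve_left hpk
      rw [map_add, map_mul, map_mul, e2, mul_zero, add_zero, hAe, eval_rename] at e1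
      have e4 : (fun i => inc p (a (some i) + (p : ℤ_[p]) ^ (k1 + j) * x i)) =
          (fun i => inc p (a i + (p : ℤ_[p]) ^ (k1 + j) * (jo x (zc x)) i)) ∘ some := by
        funext i
        rfl
      rw [e4, ← e1, hψ]
      beta_reduce
      rw [hinc, map_mul]
      have e5 : cz p (φ (jo x (zc x))) = c * eval (fun i => inc p (a i +
          (p : ℤ_[p]) ^ (k1 + j) * (jo x (zc x)) i)) F := hφ _
      rw [e5]
      ring
    have hφm := ball_meas F (k1 + j) a c φ hφ
    have hψm := ball_meas D (k1 + j) (fun i => a (some i)) c ψ hψD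
    have hlaw := law (N := N) (L := N) hN le_rfl φ hφm ψ hψm c1 (fun x =>
      ⟨φ (jo x (zc x)), eval (pt (jo x (zc x))) A1, w x, hw x, fun z => by
        apply cz_inj
        have e1 := hfz x z
        rw [← hc1] at e1
        rw [map_add, map_mul, map_pow]
        exact e1, rfl⟩)
    rw [hlaw]
    by_cases hD0 : D = 0
    · have hψ0 : ψ = fun _ => 0 := by
        funext x
        apply cz_inj
        have e1 := hψD x
        rw [hD0, map_zero, mul_zero] at e1
        rw [map_zero]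
        exact e1
      have e1 : ∀ e u, av N (Es (hm p σ) ψ) e u = 1 := by
        intro e u
        unfold av Es
        rw [hψ0]
        simp only [mul_zero, Pool.Agent.N316.SU.psi_zero]
        rw [integral_const, integral_const]
        simp
      simp only [e1, one_mul]
      exact Pool.Agent.Y230.TH.EP_mono (fun T _ => mS_mono (B := {r | r = -1/2}) (B' := BF)
        (fun r hr => by
          have hr' : r = -1/2 := hr
          rw [hr']
          exact h0 hD0) T) (E2_mem c1 hc1' χ)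
    · refine Pool.Agent.N138.SV.D1.t p N (by omega) (av N (Es (hm p σ) ψ)) (E2 c1)
        (av_LC (by omega) _ (Es_meas (hm p σ) ψ hψm)) (E2_LC hN c1) (mS p BD)
        (mS p {r | r = -1/2}) (mS p BF) ?_ ?_ (E2_mem c1 hc1') χ
      · intro T1 T2 hT1 hT2 a b ha hb hma hmb
        obtain ⟨u1, u2⟩ := mS_le ha hma
        obtain ⟨v1, v2⟩ := mS_le hb hmb
        have v3 : rr p T2 = -1/2 := v2
        rw [mS_top]
        · exact le_top
        · rw [norm_mul]
          exact one_lt_mul_of_lt_of_le u1 v1.le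
        · rw [rr_mul hT1 hT2, v3]
          have := hB _ u2
          rwa [show rr p T1 + -1/2 = rr p T1 - 1/2 by ring]
      · exact hk2 hD0 (k1 + j) (by omega) (fun i => a (some i)) (fun i => (ha _).trans
          (pow_le_pow_of_le_one ppos.le plt.le (by omega))) c hc ψ hψD

end Pool.Agent.J4H50.NI
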